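import Pool.Agent.Lib.MP_9277c3_lc.helper83.Spec

section
/-!
# Splitting by the number of turns
-/
namespace Pool.Agent.Lib.MP_9277c3_lc.CL

open CM

/-- More branchings are allowed. -/
theorem Rk.mono_s {S : Sys} {b l s v c : ℕ} (h : Rk S b l s v c) :
    ∀ {s1 : ℕ}, s ≤ s1 → Rk S b l s1 v c := by
  induction h with
  | done l s v h => exact fun _ => Rk.done _ _ _ h
  | unary l s v c h _ ih => exact fun hs => Rk.unary _ _ _ _ h (ih hs)
  | left l s s' v c c' h0 h1 hs h2 _ _ ih =>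
    exact fun hs1 => Rk.left _ _ _ _ _ _ h0 h1 hs h2 (ih hs1)
  | right l s s' v c c' h0 h1 hs _ h3 ih _ =>
    exact fun hs1 => Rk.right _ _ _ _ _ _ h0 h1 hs (ih hs1) h3
  | both l s s' v c c' h0 h1 h2 _ _ ih =>
    intro s1 hs1
    obtain ⟨d, rfl⟩ := Nat.exists_eq_add_of_le hs1
    have := Rk.both _ _ _ _ _ _ h0 h1 h2 (ih (Nat.le_add_right s' d))
    rwa [show s + (s' + d) + 1 = s + s' + 1 + d by omega] at this

/-- A larger bound for the levels below. -/
theorem Rk.mono_b {S : Sys} {b b' l s v c : ℕ} (hb : b ≤ b') (h : Rk S b l s v c) :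
    Rk S b' l s v c := by
  induction h with
  | done l s v h => exact Rk.done _ _ _ h
  | unary l s v c h _ ih => exact Rk.unary _ _ _ _ h ih
  | left l s s' v c c' h0 h1 hs _ _ ih ih' =>
    exact Rk.left _ _ _ _ _ _ h0 h1 (hs.trans hb) ih ih'
  | right l s s' v c c' h0 h1 hs _ _ ih ih' =>
    exact Rk.right _ _ _ _ _ _ h0 h1 (hs.trans hb) ih ih'
  | both l s s' v c c' h0 h1 _ _ ih ih' => exact Rk.both _ _ _ _ _ _ h0 h1 ih ih'

/-- A node with at most `b` branchings has no branchings above the next level. -/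
theorem Rk.lift {S : Sys} {b l s v c : ℕ} (h : Rk S b l s v c) (hs : s ≤ b) :
    Rk S b (l + 1) 0 v c := by
  induction h with
  | done l s v h => exact Rk.done _ _ _ h
  | unary l s v c h _ ih => exact Rk.unary _ _ _ _ h (ih hs)
  | left l s s' v c c' h0 h1 hs' _ _ ih ih' =>
    exact Rk.left _ _ _ _ _ _ h0 h1 (Nat.zero_le b) (ih hs') (ih' hs)
  | right l s s' v c c' h0 h1 hs' _ _ ih ih' =>
    exact Rk.right _ _ _ _ _ _ h0 h1 (Nat.zero_le b) (ih hs) (ih' hs')
  | both l s s' v c c' h0 h1 h2 _ _ ih' =>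
    exact Rk.left _ _ _ _ _ _ h0 h1 (show s ≤ b by omega) h2 (ih' (by omega))

/-- Many levels. -/
theorem Rk.lifts {S : Sys} {b l v c : ℕ} (h : Rk S b l 0 v c) (j : ℕ) :
    Rk S b (l + j) 0 v c := by
  induction j with
  | zero => exact h
  | succ j ih => exact ih.lift (Nat.zero_le b)

theorem Rk.lift_le {S : Sys} {b l l' s v c : ℕ} (h : Rk S b l s v c) (hs : s ≤ b) (hl : l ≤ l') :
    ∃ s' ≤ b, Rk S b l' s' v c := by
  rcases Nat.eq_or_lt_of_le hl with rfl | hlt
  · exact ⟨s, hs, h⟩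
  · obtain ⟨j, rfl⟩ := Nat.exists_eq_add_of_lt hlt
    refine ⟨0, Nat.zero_le _, ?_⟩
    rw [show l + j + 1 = l + 1 + j by omega]
    exact (h.lift hs).lifts j

theorem Me.pos {S : Sys} {k v c m : ℕ} (h : Me S k v c m) : 1 ≤ m := by
  induction h with
  | base => exact le_rfl
  | unary _ _ _ _ _ ih => exact ih
  | left _ _ _ _ _ _ _ _ ih => exact ih
  | right _ _ _ _ _ _ _ _ ih => exact ih
  | both _ _ _ _ _ _ _ _ _ ih _ => omega

theorem Me.one {S : Sys} {k v c m : ℕ} (b : ℕ) (h : Me S k v c m) (hm : m ≤ 1) :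
    Rk S b (k + 1) 0 v c := by
  induction h with
  | base v c h => exact (h.mono_b (Nat.zero_le b)).lift (Nat.zero_le b)
  | unary v c m h _ ih => exact Rk.unary _ _ _ _ h (ih hm)
  | left v c c' m h0 h1 h2 _ ih =>
    exact Rk.left _ _ _ _ _ _ h0 h1 (Nat.zero_le b) (h2.mono_b (Nat.zero_le b)) (ih hm)
  | right v c c' m h0 h1 _ h3 ih =>
    exact Rk.right _ _ _ _ _ _ h0 h1 (Nat.zero_le b) (ih hm) (h3.mono_b (Nat.zero_le b))
  | both v c c' m m' h0 h1 h2 h3 _ _ =>
    have := h2.pos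
    have := h3.pos
    omega

theorem Me.split {S : Sys} {k b j : ℕ}
    (ihj : ∀ v c m, Me S k v c m → m ≤ (b + 1) ^ j → ∃ s, s ≤ b ∧ Rk S b (k + 1 + j) s v c)
    {v c m : ℕ} (h : Me S k v c m) :
    m ≤ (b + 1) ^ j ∨ ∃ s, Rk S b (k + 1 + j + 1) s v c ∧ (s + 1) * (b + 1) ^ j ≤ m := by
  have hpos : 1 ≤ (b + 1) ^ j := Nat.one_le_pow _ _ (Nat.succ_pos _)
  have hlift : ∀ w d, Rk S 0 k 0 w d → Rk S b (k + 1 + j) 0 w d := by
    intro w d hw
    rw [show k + 1 + j = k + (1 + j) by omega]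
    exact (hw.mono_b (Nat.zero_le b)).lifts (1 + j)
  induction h with
  | base v c h => exact Or.inl hpos
  | unary v c m h _ ih =>
    rcases ih with ih | ⟨s, ih, hs⟩
    · exact Or.inl ih
    · exact Or.inr ⟨s, Rk.unary _ _ _ _ h ih, hs⟩
  | left v c c' m h0 h1 h2 _ ih =>
    rcases ih with ih | ⟨s, ih, hs⟩
    · exact Or.inl ih
    · exact Or.inr ⟨s, Rk.left _ _ _ _ _ _ h0 h1 (Nat.zero_le b) (hlift _ _ h2) ih, hs⟩
  | right v c c' m h0 h1 _ h3 ih =>
    rcases ih with ih | ⟨s, ih, hs⟩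
    · exact Or.inl ih
    · exact Or.inr ⟨s, Rk.right _ _ _ _ _ _ h0 h1 (Nat.zero_le b) ih (hlift _ _ h3), hs⟩
  | both v c c' m m' h0 h1 h2 h3 ih ih' =>
    rcases ih with ih | ⟨s, ih, hs⟩
    · obtain ⟨s1, hs1, g1⟩ := ihj _ _ _ h2 ih
      rcases ih' with ih' | ⟨s', ih', hs'⟩
      · obtain ⟨s2, hs2, g2⟩ := ihj _ _ _ h3 ih'
        rcases Nat.lt_or_ge ((b + 1) ^ j) (m + m') with hlt | hge
        · exact Or.inr ⟨0, Rk.left _ _ _ _ _ _ h0 h1 hs1 g1 (g2.lift hs2), by omega⟩
        · exact Or.inl hge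
      · exact Or.inr ⟨s', Rk.left _ _ _ _ _ _ h0 h1 hs1 g1 ih', by omega⟩
    · rcases ih' with ih' | ⟨s', ih', hs'⟩
      · obtain ⟨s2, hs2, g2⟩ := ihj _ _ _ h3 ih'
        exact Or.inr ⟨s, Rk.right _ _ _ _ _ _ h0 h1 hs2 ih g2, by omega⟩
      · refine Or.inr ⟨s + s' + 1, Rk.both _ _ _ _ _ _ h0 h1 ih ih', ?_⟩
        have : (s + s' + 1 + 1) * (b + 1) ^ j = (s + 1) * (b + 1) ^ j + (s' + 1) * (b + 1) ^ j := by
          ring
        omega

theorem specSPLIT : SpecSPLIT := by
  intro S k b j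
  induction j with
  | zero =>
    intro v c m h hm
    rw [pow_zero] at hm
    exact ⟨0, Nat.zero_le _, h.one b hm⟩
  | succ j ih =>
    intro v c m h hm
    have hpos : 0 < (b + 1) ^ j := Nat.pow_pos (Nat.succ_pos _)
    rcases h.split ih with h1 | ⟨s, h1, h2⟩
    · obtain ⟨s, hs, h3⟩ := ih v c m h h1
      exact ⟨0, Nat.zero_le _, h3.lift hs⟩
    · refine ⟨s, ?_, h1⟩
      have h3 : (s + 1) * (b + 1) ^ j ≤ (b + 1) * (b + 1) ^ j := by
        refine h2.trans (hm.trans (le_of_eq ?_))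
        rw [pow_succ]
        ring
      have h4 := Nat.le_of_mul_le_mul_right h3 hpos
      omega

end Pool.Agent.Lib.MP_9277c3_lc.CL
end

section
/-!
# Evaluation of nodes with few branchings on each level
-/
namespace Pool.Agent.Lib.MP_9277c3_lc.CL

open CM CM.Sys Classical

/-- Values are values. -/
theorem Rk.ev {S : Sys} {b l s v c : ℕ} (h : Rk S b l s v c) : ∃ n, Ev S v c n := by
  induction h with
  | done l s v h => exact ⟨1, Ev.done _ h⟩
  | unary l s v c h _ ih =>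
    obtain ⟨n, hn⟩ := ih
    exact ⟨_, Ev.unary _ _ _ h hn⟩
  | left l s s' v c c' h0 h1 hs _ _ ih ih' =>
    obtain ⟨n, hn⟩ := ih
    obtain ⟨n', hn'⟩ := ih'
    exact ⟨_, Ev.binary _ _ _ _ _ h0 h1 hn hn'⟩
  | right l s s' v c c' h0 h1 hs _ _ ih ih' =>
    obtain ⟨n, hn⟩ := ih
    obtain ⟨n', hn'⟩ := ih'
    exact ⟨_, Ev.binary _ _ _ _ _ h0 h1 hn hn'⟩
  | both l s s' v c c' h0 h1 _ _ ih ih' =>
    obtain ⟨n, hn⟩ := ih
    obtain ⟨n', hn'⟩ := ih'
    exact ⟨_, Ev.binary _ _ _ _ _ h0 h1 hn hn'⟩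

/-- `Bc S O v c k`: the value of `v` is `c`, and `k` nodes of its tree are branchings relative to
the oracle `O`. -/
inductive Bc (S : Sys) (O : ℕ → ℕ) : ℕ → ℕ → ℕ → Prop
  | done (v : ℕ) (h : S.tag v = 0) : Bc S O v (S.nx v) 0
  | unary (v c k : ℕ) (h : S.tag v = 1) (h1 : Bc S O (S.nx v) c k) : Bc S O v c k
  | second (v c c' k : ℕ) (h0 : S.tag v ≠ 0) (h1 : S.tag v ≠ 1) (h2 : O (S.nx v) = c + 1)
      (h3 : Bc S O (S.kont v c) c' k) : Bc S O v c' k
  | first (v c c' k : ℕ) (h0 : S.tag v ≠ 0) (h1 : S.tag v ≠ 1) (hz : O (S.nx v) = 0)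
      (h2 : Bc S O (S.nx v) c k) (h3 : O (S.kont v c) = c' + 1) : Bc S O v c' k
  | both (v c c' k k' : ℕ) (h0 : S.tag v ≠ 0) (h1 : S.tag v ≠ 1) (hz : O (S.nx v) = 0)
      (h2 : Bc S O (S.nx v) c k) (hz' : O (S.kont v c) = 0) (h3 : Bc S O (S.kont v c) c' k') :
      Bc S O v c' (k + k' + 1)

variable {S : Sys} {O : ℕ → ℕ} {N : ℕ}

theorem Bc.down_one {v c k : ℕ} (h : Bc S O v c k) (h0 : S.tag v ≠ 0) (hp : ¬S.pend O v) :
    Bc S O (S.nxt O v) c k := by
  cases h with
  | done _ h => exact absurd h h0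
  | unary _ _ _ h1 h2 =>
    rw [nxt, if_neg h0, if_pos h1]
    exact h2
  | second _ c1 _ _ _ h1 h2 h3 =>
    rw [nxt, if_neg h0, if_neg h1, if_neg (by omega), h2, Nat.add_sub_cancel]
    exact h3
  | first _ c1 _ _ _ h1 hz _ _ => exact absurd ⟨h0, h1, hz⟩ hp
  | both _ c1 _ _ _ _ h1 hz _ _ _ => exact absurd ⟨h0, h1, hz⟩ hp

theorem Bc.down_pend {v c k : ℕ} (h : Bc S O v c k) (hp : S.pend O v) :
    ∃ c' k1, Bc S O (S.nxt O v) c' k1 ∧ ((O (S.kont v c') = c + 1 ∧ k = k1) ∨
      ∃ k2, O (S.kont v c') = 0 ∧ Bc S O (S.kont v c') c k2 ∧ k = k1 + k2 + 1) := by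
  rw [nxt_pend hp]
  cases h with
  | done _ h => exact absurd h hp.1
  | unary _ _ _ h1 h2 => exact absurd h1 hp.2.1
  | second _ c1 _ _ _ h1 h2 h3 =>
    rw [hp.2.2] at h2
    omega
  | first _ c1 _ _ _ h1 hz h2 h3 => exact ⟨c1, k, h2, Or.inl ⟨h3, rfl⟩⟩
  | both _ c1 _ k1 k2 _ h1 hz h2 hz' h3 => exact ⟨c1, k1, h2, Or.inr ⟨k2, hz', h3, rfl⟩⟩

theorem Bc.ev (hC : Closed S N) (hO : Sound S O N) {w d k : ℕ} (hb : Bc S O w d k) (hw : w < N) :
    ∃ m, Ev S w d m := by
  induction hb with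
  | done w h => exact ⟨1, Ev.done _ h⟩
  | unary w c k h _ ih =>
    obtain ⟨m, hm⟩ := ih (hC.nx _)
    exact ⟨_, Ev.unary _ _ _ h hm⟩
  | second w c c' k h0 h1 h2 _ ih =>
    obtain ⟨m, hm⟩ := ih (hC.kont _ _)
    obtain ⟨m', hm'⟩ := hO _ (hC.nx _) _ h2
    exact ⟨_, Ev.binary _ _ _ _ _ h0 h1 hm' hm⟩
  | first w c c' k h0 h1 _ _ h3 ih =>
    obtain ⟨m, hm⟩ := ih (hC.nx _)
    obtain ⟨m', hm'⟩ := hO _ (hC.kont _ _) _ h3
    exact ⟨_, Ev.binary _ _ _ _ _ h0 h1 hm hm'⟩
  | both w c c' k k' h0 h1 _ _ _ _ ih ih' =>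
    obtain ⟨m, hm⟩ := ih (hC.nx _)
    obtain ⟨m', hm'⟩ := ih' (hC.kont _ _)
    exact ⟨_, Ev.binary _ _ _ _ _ h0 h1 hm hm'⟩

/-- The history needs `2 * k + 1` steps. -/
theorem hist_bc (hC : Closed S N) (hO : Sound S O N) (v : ℕ) (s : ℕ) :
    ∀ u c k, Ev S u c s → Bc S O u c k → u < N → ∀ t, (S.hist O N v t).u = u →
      (S.hist O N v t).md = 1 → (S.hist O N v t).par ≤ t →
        S.hist O N v (t + (2 * k + 1)) =
          ret (S.hist O N v) (S.hist O N v t).par (S.hist O N v t).ptgt c := by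
  induction s using Nat.strongRecOn with
  | ind s ih =>
    intro u c k0 hev hbc hu t hHu hHmd hpar
    set H := S.hist O N v with hH
    set par := (H t).par with hpardef
    set ptgt := (H t).ptgt with hptgtdef
    obtain ⟨L, hL, htag, h1, hval, h2⟩ := exists_path hC hO hu hev
    have hN0 : 0 < N := by omega
    -- the way up, node by node
    have key : ∀ n, n ≤ L → ∀ cj sj kj, Ev S (S.node O u (L - n)) cj sj →
        Bc S O (S.node O u (L - n)) cj kj →
        (H (t + 2 * kj)).u = u ∧ (H (t + 2 * kj)).md ≠ 0 ∧ (H (t + 2 * kj)).par = par ∧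
        (H (t + 2 * kj)).ptgt = ptgt ∧
        (S.ascF O u N)^[N] (S.start O N (H (t + 2 * kj))) =
          (S.ascF O u N)^[N] (S.node O u (L - n), cj, 1) := by
      intro n
      induction n with
      | zero =>
        intro _ cj sj kj hj hbj
        rw [Nat.sub_zero] at hj hbj ⊢
        have hk0 : kj = 0 := by
          cases hbj with
          | done _ _ => rfl
          | unary _ _ _ h _ => rw [htag] at h; omega
          | second _ _ _ _ h _ _ _ => exact absurd htag h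
          | first _ _ _ _ h _ _ _ _ => exact absurd htag h
          | both _ _ _ _ _ h _ _ _ _ _ => exact absurd htag h
        subst hk0
        refine ⟨hHu, by rw [Nat.mul_zero, Nat.add_zero, hHmd]; simp, rfl, rfl, ?_⟩
        rw [Nat.mul_zero, Nat.add_zero, start, if_pos hHmd, hHu, node_tag0 htag hL.le, if_pos htag]
        have h3 := (Ev.done (S := S) _ htag).unique hj
        rw [← h3.1]
      | succ n ihn =>
        intro hn cj sj kj hj hbj
        set j := L - (n + 1) with hjdef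
        have hjL : j < L := by omega
        have hj1 : L - n = j + 1 := by omega
        rw [hj1] at ihn
        by_cases hp : S.pend O (S.node O u j)
        · obtain ⟨c', s', s'', g1, g2, g3⟩ := CM.Sys.down_pend hj hp
          obtain ⟨c'', k1, b1, b2⟩ := hbj.down_pend hp
          rw [← node_succ] at g1 b1
          -- the values agree
          have hcc : c'' = c' := by
            have hlt : S.node O u (j + 1) < N := by
              have : ∀ i, S.node O u i < N := by
                intro i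
                induction i with
                | zero => exact hu
                | succ i ih => rw [node_succ]; exact hC.nxt ih
              exact this _
            obtain ⟨m, hm⟩ := b1.ev hC hO hlt
            exact (g1.unique hm).1
          subst hcc
          obtain ⟨k2', k3, k4, k5, k6⟩ := ihn (by omega) c'' s' k1 g1 b1
          have hcand : S.cand O u (j + 1) = S.node O u j + 1 := by rw [cand, if_pos hp]
          have hstep := ascF_at hL h1 h2 (j := j + 1) hjL c''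
          rw [hcand, if_neg (by omega), Nat.add_sub_cancel] at hstep
          have hNsub : N = (N - 1) + 1 := by omega
          rcases b2 with ⟨hz, rfl⟩ | ⟨k2, hz, b3, rfl⟩
          · -- the value is known
            rw [if_neg (by omega), hz, Nat.add_sub_cancel] at hstep
            refine ⟨k2', k3, k4, k5, ?_⟩
            rw [k6]
            conv_lhs => rw [hNsub]
            rw [Function.iterate_succ_apply, ← hNsub, hstep]
            exact (asc_stable hL h1 h2 hjL.le cj (by omega) (by omega)).symm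
          · -- a branch
            rw [if_pos hz] at hstep
            have e1 : (S.ascF O u N)^[N] (S.node O u (j + 1), c'', 1) =
                (S.node O u j, c'', 3) := by
              conv_lhs => rw [hNsub]
              rw [Function.iterate_succ_apply, ← hNsub, hstep, ascF_absorb (by simp)]
            have e2 : H (t + 2 * k1 + 1) = ⟨S.kont (S.node O u j) c'', 0, 0, S.node O u j, 1,
                t + 2 * k1 + 1⟩ := by
              rw [hH, hist_succ, ← hH, gH, if_neg k3, k2', k6, e1, fin]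
              simp
            have hsj : sj ≤ s := by
              obtain ⟨c3, s3, g4, g5⟩ := hval j hjL.le
              obtain ⟨_, g6⟩ := g4.unique hj
              omega
            have l3 := ih s'' (by omega) _ _ k2 g2 b3 (hC.kont _ _) (t + 2 * k1 + 1)
              (by rw [e2]) (by rw [e2]) (by rw [e2])
            rw [e2] at l3
            simp only [ret, Nat.add_sub_cancel] at l3
            rw [if_neg (by omega), k2', k4, k5] at l3
            rw [show t + 2 * (k1 + k2 + 1) = t + 2 * k1 + 1 + (2 * k2 + 1) by ring, l3]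
            refine ⟨rfl, by simp, rfl, rfl, ?_⟩
            rw [start]
            simp
        · obtain ⟨s', g1, g2⟩ := CM.Sys.down_one hC hO hj (h1 j hjL) hp
          have b1 := hbj.down_one (h1 j hjL) hp
          rw [← node_succ] at g1 b1
          obtain ⟨k2, k3, k4, k5, k6⟩ := ihn (by omega) cj s' kj g1 b1
          refine ⟨k2, k3, k4, k5, ?_⟩
          rw [k6]
          have hNsub : N = (N - 1) + 1 := by omega
          have e1 : S.ascF O u N (S.node O u (j + 1), cj, 1) =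
              S.ascF O u N (S.node O u j, cj, 1) := by
            rw [ascF_at hL h1 h2 hjL, ascF_at hL h1 h2 hjL.le]
            have hcand : S.cand O u (j + 1) = S.cand O u j := by rw [cand, if_neg hp]
            rw [hcand]
          conv_lhs => rw [hNsub]
          conv_rhs => rw [hNsub]
          rw [Function.iterate_succ_apply, Function.iterate_succ_apply, ← hNsub, e1]
    obtain ⟨k2, k3, k4, k5, k6⟩ := key L le_rfl c s k0 (by rw [Nat.sub_self]; exact hev)
      (by rw [Nat.sub_self]; exact hbc)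
    rw [Nat.sub_self] at k6
    have hNsub : N = (N - 1) + 1 := by omega
    have e1 : (S.ascF O u N)^[N] (S.node O u 0, c, 1) = (0, c, 2) := by
      conv_lhs => rw [hNsub]
      rw [Function.iterate_succ_apply, ← hNsub, ascF_at hL h1 h2 (Nat.zero_le _)]
      have hc0 : S.cand O u 0 = 0 := rfl
      rw [if_pos hc0, ascF_absorb (by simp)]
    rw [← Nat.add_assoc, hH, hist_succ, ← hH, gH, if_neg k3, k2, k6, e1, fin, ret]
    simp only [if_true, k4, k5]
    by_cases hp0 : par = 0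
    · rw [if_pos hp0, if_pos hp0]
    · rw [if_neg hp0, if_neg hp0, min_eq_left (by omega)]

/-- Nodes which are known on the level `l` have no branchings relative to it. -/
theorem bc_of_known {b l : ℕ}
    (hl : ∀ s v c, Rk S b l s v c → s ≤ b → v < N → O v = c + 1) (hC : Closed S N)
    {l' s v c : ℕ} (h : Rk S b l' s v c) : l' ≤ l → s ≤ b → Bc S O v c 0 := by
  have known : ∀ {l' s v c}, Rk S b l' s v c → l' ≤ l → s ≤ b → v < N → O v = c + 1 := by
    intro l' s v c h hll hs hv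
    obtain ⟨s', hs', h'⟩ := h.lift_le hs hll
    exact hl _ _ _ h' hs' hv
  induction h with
  | done l' s v h => exact fun _ _ => Bc.done _ h
  | unary l' s v c h _ ih => exact fun hll hs => Bc.unary _ _ _ h (ih hll hs)
  | left l' s s' v c c' h0 h1 hs' h2 _ _ ih' =>
    exact fun hll hs => Bc.second _ _ _ _ h0 h1 (known h2 (by omega) hs' (hC.nx _)) (ih' hll hs)
  | right l' s s' v c c' h0 h1 hs' h2 _ _ ih' =>
    exact fun hll hs => Bc.second _ _ _ _ h0 h1 (known h2 hll hs (hC.nx _))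
      (ih' (by omega) hs')
  | both l' s s' v c c' h0 h1 h2 _ _ ih' =>
    exact fun hll hs => Bc.second _ _ _ _ h0 h1 (known h2 hll (by omega) (hC.nx _))
      (ih' hll (by omega))

theorem bc_of_rk {b l : ℕ} (hl : ∀ s v c, Rk S b l s v c → s ≤ b → v < N → O v = c + 1)
    (hC : Closed S N) (hO : Sound S O N) {l' s v c : ℕ} (h : Rk S b l' s v c) :
    l' = l + 1 → ∃ k, k ≤ s ∧ Bc S O v c k := by
  induction h with
  | done l' s v h => exact fun _ => ⟨0, Nat.zero_le _, Bc.done _ h⟩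
  | unary l' s v c h _ ih =>
    intro hll
    obtain ⟨k, hk, hb⟩ := ih hll
    exact ⟨k, hk, Bc.unary _ _ _ h hb⟩
  | left l' s s' v c c' h0 h1 hs' h2 _ _ ih' =>
    intro hll
    obtain rfl : l' = l := by omega
    obtain ⟨k, hk, hb⟩ := ih' hll
    exact ⟨k, hk, Bc.second _ _ _ _ h0 h1 (hl _ _ _ h2 hs' (hC.nx _)) hb⟩
  | right l' s s' v c c' h0 h1 hs' h2 h3 ih _ =>
    intro hll
    obtain rfl : l' = l := by omega
    by_cases hz : O (S.nx v) = 0
    · obtain ⟨k, hk, hb⟩ := ih hll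
      exact ⟨k, hk, Bc.first _ _ _ _ h0 h1 hz hb (hl _ _ _ h3 hs' (hC.kont _ _))⟩
    · obtain ⟨n, hn⟩ := h2.ev
      obtain ⟨n', hn'⟩ := hO.sub_one (hC.nx _) hz
      obtain ⟨h4, _⟩ := hn.unique hn'
      exact ⟨0, Nat.zero_le _, Bc.second _ c _ _ h0 h1 (by omega)
        (bc_of_known hl hC h3 le_rfl hs')⟩
  | both l' s s' v c c' h0 h1 h2 h3 ih ih' =>
    intro hll
    obtain rfl : l' = l := by omega
    obtain ⟨k, hk, hb⟩ := ih hll
    obtain ⟨k', hk', hb'⟩ := ih' hll
    by_cases hz : O (S.nx v) = 0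
    · by_cases hz' : O (S.kont v c) = 0
      · exact ⟨k + k' + 1, by omega, Bc.both _ _ _ _ _ h0 h1 hz hb hz' hb'⟩
      · obtain ⟨n, hn⟩ := h3.ev
        obtain ⟨n', hn'⟩ := hO.sub_one (hC.kont _ _) hz'
        obtain ⟨h4, _⟩ := hn.unique hn'
        exact ⟨k, by omega, Bc.first _ c _ _ h0 h1 hz hb (by omega)⟩
    · obtain ⟨n, hn⟩ := h2.ev
      obtain ⟨n', hn'⟩ := hO.sub_one (hC.nx _) hz
      obtain ⟨h4, _⟩ := hn.unique hn'
      exact ⟨k', by omega, Bc.second _ c _ _ h0 h1 (by omega) hb'⟩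

theorem specALG : SpecALG := by
  intro S N T b hC hT l
  induction l with
  | zero =>
    intro s v c h _ _
    cases h with
    | done _ _ _ h => rw [small, if_pos h]
  | succ l ih =>
    intro s v c h hs hv
    obtain ⟨n, hn⟩ := h.ev
    obtain ⟨k, hk, hb⟩ := bc_of_rk ih hC (small_sound hC T l) h rfl
    have k3 := hist_bc hC (small_sound hC T l) v n v c k hn hb hv 0
      (by rw [hist_zero]) (by rw [hist_zero]) (by rw [hist_zero])
    rw [hist_zero, ret, if_pos rfl, Nat.zero_add] at k3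
    have h4 := hist_final (S := S) (O := S.small N T l) (N := N) (v := v) (t := 2 * k + 1)
      (by rw [k3]) (t' := T) (by omega)
    rw [small, h4, k3]
    simp

end Pool.Agent.Lib.MP_9277c3_lc.CL
end

section
/-!
# From a run with `r` turns to a tree
-/
set_option autoImplicit false

namespace Pool.Agent.Lib.MP_9277c3_lc

namespace DPDA

variable {α : Type} {M : DPDA α} {x : List α}

variable (M) in
/-- Trees with the number of turns. -/
inductive WB (x : List α) : ℕ → Bool → Option M.State → ℕ → List M.Stack → Option M.State → ℕ →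
    Prop
  | nil (up : Bool) (q : Option M.State) (i : ℕ) : WB x 0 up q i [] q i
  | halt (up : Bool) (i : ℕ) (X : M.Stack) : WB x 0 up none i [X] none i
  | accept (up : Bool) (q : M.State) (i : ℕ) (X : M.Stack) (h : M.accepting q (cell x i)) :
      WB x 0 up (some q) i [X] none i
  | step (r : ℕ) (up : Bool) (q : M.State) (i : ℕ) (X : M.Stack) (q₁ : M.State) (mv : Move)
      (β : List M.Stack) (q₂ : Option M.State) (i₂ : ℕ) (h : ¬M.accepting q (cell x i))
      (h₁ : M.next q (cell x i) X = some (q₁, mv, β))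
      (h₂ : WB x r (upNext up β.length) (some q₁) (mv.apply x.length i) β q₂ i₂) :
      WB x (r + turnOf up β.length) up (some q) i [X] q₂ i₂
  | cons (r₁ r₂ : ℕ) (up : Bool) (q : Option M.State) (i : ℕ) (X : M.Stack) (β : List M.Stack)
      (q₁ : Option M.State) (i₁ : ℕ) (q₂ : Option M.State) (i₂ : ℕ) (hβ : β ≠ [])
      (h₁ : WB x r₁ up q i [X] q₁ i₁) (h₂ : WB x r₂ false q₁ i₁ β q₂ i₂) :
      WB x (r₁ + r₂) up q i (X :: β) q₂ i₂

theorem WB.cons' {r₁ r₂ : ℕ} {up : Bool} {q : Option M.State} {i : ℕ} {X : M.Stack}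
    {β : List M.Stack} {q₁ : Option M.State} {i₁ : ℕ} {q₂ : Option M.State} {i₂ : ℕ}
    (h₁ : M.WB x r₁ up q i [X] q₁ i₁) (h₂ : M.WB x r₂ false q₁ i₁ β q₂ i₂) :
    M.WB x (r₁ + r₂) up q i (X :: β) q₂ i₂ := by
  by_cases hβ : β = []
  · subst hβ
    cases h₂
    exact h₁
  · exact WB.cons _ _ _ _ _ _ _ _ _ _ _ hβ h₁ h₂

theorem WB.uncons {r : ℕ} {up : Bool} {q : Option M.State} {i : ℕ} {X : M.Stack}
    {β : List M.Stack} {q₂ : Option M.State} {i₂ : ℕ} (h : M.WB x r up q i (X :: β) q₂ i₂) :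
    ∃ r₁ r₂ q₁ i₁, r = r₁ + r₂ ∧ M.WB x r₁ up q i [X] q₁ i₁ ∧ M.WB x r₂ false q₁ i₁ β q₂ i₂ := by
  by_cases hβ : β = []
  · subst hβ
    exact ⟨r, 0, q₂, i₂, rfl, h, WB.nil _ _ _⟩
  · cases h with
    | halt => exact absurd rfl hβ
    | accept => exact absurd rfl hβ
    | step => exact absurd rfl hβ
    | cons r₁ r₂ _ _ _ _ _ q₁ i₁ _ _ _ g₁ g₂ => exact ⟨r₁, r₂, q₁, i₁, rfl, g₁, g₂⟩

theorem WB.split {β γ : List M.Stack} : ∀ {r : ℕ} {up : Bool} {q : Option M.State} {i : ℕ}
    {q₂ : Option M.State} {i₂ : ℕ}, (β = [] → up = false) → M.WB x r up q i (β ++ γ) q₂ i₂ →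
    ∃ r₁ r₂ q₁ i₁, r = r₁ + r₂ ∧ M.WB x r₁ up q i β q₁ i₁ ∧ M.WB x r₂ false q₁ i₁ γ q₂ i₂ := by
  induction β with
  | nil =>
    intro r up q i q₂ i₂ hup h
    rw [hup rfl] at h ⊢
    exact ⟨0, r, q, i, by omega, WB.nil _ _ _, h⟩
  | cons X β ih =>
    intro r up q i q₂ i₂ _ h
    obtain ⟨r₁, r₂, q₁, i₁, rfl, h1, h2⟩ := WB.uncons h
    obtain ⟨r₃, r₄, q₃, i₃, rfl, h3, h4⟩ := ih (fun _ => rfl) h2
    exact ⟨r₁ + r₃, r₄, q₃, i₃, by omega, WB.cons' h1 h3, h4⟩

theorem WB.halts (up : Bool) (i : ℕ) (β : List M.Stack) : M.WB x 0 up none i β none i := by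
  induction β generalizing up with
  | nil => exact WB.nil _ _ _
  | cons X β ih => exact WB.cons' (WB.halt up i X) (ih false)

theorem WB.accepts (up : Bool) {q : M.State} {i : ℕ} (h : M.accepting q (cell x i))
    (β : List M.Stack) : ∃ c : Option M.State, M.WB x 0 up (some q) i β c i ∧
      ∀ q', c = some q' → M.accepting q' (cell x i) := by
  cases β with
  | nil =>
    refine ⟨some q, WB.nil _ _ _, fun q' hq' => ?_⟩
    rw [Option.some.injEq] at hq'
    subst hq'
    exact h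
  | cons X β =>
    refine ⟨none, ?_, fun q' hq' => absurd hq' (by simp)⟩
    exact WB.cons' (WB.accept up q i X h) (WB.halts false i β)

/-- From the run to the tree. -/
theorem TSteps.exists_wb {r : ℕ} {up : Bool} {c c' : M.State × ℕ × List M.Stack}
    (h : M.TSteps x r up c c') (ha : M.accepting c'.1 (cell x c'.2.1)) :
    ∃ r' q i, r' ≤ r ∧ M.WB x r' up (some c.1) c.2.1 c.2.2 q i ∧
      ∀ q', q = some q' → M.accepting q' (cell x i) := by
  induction h with
  | refl up c =>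
    obtain ⟨q, h1, h2⟩ := WB.accepts up ha c.2.2
    exact ⟨_, q, _, le_rfl, h1, h2⟩
  | head r up q i X γ q' mv β c hnext h' ih =>
    obtain ⟨r', q₂, i₂, hr, hw, hg⟩ := ih ha
    by_cases hacc : M.accepting q (cell x i)
    · obtain ⟨q₃, h1, h2⟩ := WB.accepts up hacc (X :: γ)
      exact ⟨_, q₃, _, Nat.zero_le _, h1, h2⟩
    · obtain ⟨r₁, r₂, q₁, i₁, rfl, h1, h2⟩ := WB.split (by rintro rfl; rfl) hw
      refine ⟨r₁ + turnOf up β.length + r₂, q₂, i₂, by omega, ?_, hg⟩
      exact WB.cons' (WB.step _ _ _ _ _ _ _ _ _ _ hacc hnext h1) h2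

end DPDA

namespace CL

open CM

namespace TURNM

variable {α : Type} {M : DPDA α} (C : Cd M) {x : List α}

/-- the four statements -/
structure Good (C : Cd M) (x : List α) (r : ℕ) (up : Bool) (q : Option M.State) (i : ℕ)
    (l : List M.Stack) (q' : Option M.State) (i' : ℕ) : Prop where
  le : i' ≤ x.length + 1
  none : q = none → q' = Option.none ∧ r = 0 ∧ Rk (C.sys x) 0 2 0 (C.code q i l) (C.code q' i' []) ∧
    (l.length ≤ 1 → Rk (C.sys x) 0 1 0 (C.code q i l) (C.code q' i' []))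
  zero : q' ≠ Option.none → r = 0 → Rk (C.sys x) 0 2 0 (C.code q i l) (C.code q' i' []) ∧
    (l.length ≤ 1 → Rk (C.sys x) 0 1 0 (C.code q i l) (C.code q' i' [])) ∧ (up = true → l = [])
  three : r = 0 → Rk (C.sys x) 0 3 0 (C.code q i l) (C.code q' i' [])
  four : ∃ m, Me (C.sys x) 3 (C.code q i l) (C.code q' i' []) m ∧ m ≤ max 1 r

theorem rk_nil {q : Option M.State} {i : ℕ} (hi : i ≤ x.length + 1) (l : ℕ) :
    Rk (C.sys x) 0 l 0 (C.code q i []) (C.code q i []) := by
  have h := Rk.done (S := C.sys x) (b := 0) l 0 (C.code q i []) (C.tag_nil x q i)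
  rwa [C.nx_nil hi] at h

theorem good {r : ℕ} {up : Bool} {q q' : Option M.State} {i i' : ℕ} {l : List M.Stack}
    (h : M.WB x r up q i l q' i') : i ≤ x.length + 1 → l.length ≤ C.D →
      Good C x r up q i l q' i' := by
  induction h with
  | nil up q i =>
    intro hi _
    have h1 := rk_nil C (x := x) (q := q) hi
    refine ⟨hi, fun hq => ⟨hq, rfl, h1 2, fun _ => h1 1⟩, fun _ _ => ⟨h1 2, fun _ => h1 1,
      fun _ => rfl⟩, fun _ => h1 3, 1, Me.base _ _ (h1 3), le_max_left _ _⟩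
  | halt up i X =>
    intro hi _
    have h1 : ∀ k, Rk (C.sys x) 0 (k + 1) 0 (C.code none i [X]) (C.code none i []) := fun k =>
      Rk.unary _ _ _ _ (C.tag_one x none i X) (by rw [C.nx_halt hi]; exact rk_nil C hi _)
    exact ⟨hi, fun _ => ⟨rfl, rfl, h1 1, fun _ => h1 0⟩, fun h => absurd rfl h, fun _ => h1 2,
      1, Me.base _ _ (h1 2), le_max_left _ _⟩
  | accept up q i X h =>
    intro hi _
    have h1 : ∀ k, Rk (C.sys x) 0 (k + 1) 0 (C.code (some q) i [X]) (C.code none i []) := fun k =>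
      Rk.unary _ _ _ _ (C.tag_one x _ i X) (by rw [C.nx_accept hi X h]; exact rk_nil C hi _)
    exact ⟨hi, fun h => absurd h (by simp), fun h => absurd rfl h, fun _ => h1 2,
      1, Me.base _ _ (h1 2), le_max_left _ _⟩
  | step r up q i X q₁ mv β q₂ i₂ h h₁ _ ih =>
    intro hi _
    obtain ⟨g0, g1, g2, g3, m, g4, g5⟩ := ih (Cd.apply_le mv hi) (C.hD _ _ _ _ _ _ h₁)
    have ht := C.tag_one x (some q) i X
    have hn := C.nx_step hi h h₁
    refine ⟨g0, fun h => absurd h (by simp), fun hq hr => ?_, fun hr => ?_, m, ?_, ?_⟩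
    · obtain ⟨a1, a2, a3⟩ := g2 hq (by omega)
      have hlen : β.length ≤ 1 := by
        by_contra hcon
        obtain ⟨k, hk⟩ : ∃ k, β.length = k + 2 := ⟨β.length - 2, by omega⟩
        have : β = [] := a3 (by rw [hk]; rfl)
        rw [this] at hk
        simp at hk
      refine ⟨Rk.unary _ _ _ _ ht (by rw [hn]; exact a1), fun _ =>
        Rk.unary _ _ _ _ ht (by rw [hn]; exact a2 hlen), fun hup => ?_⟩
      exfalso
      subst hup
      rcases Nat.le_one_iff_eq_zero_or_eq_one.1 hlen with h0 | h0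
      · rw [h0] at hr
        simp [turnOf] at hr
      · have : β = [] := a3 (by rw [h0]; rfl)
        rw [this] at h0
        simp at h0
    · exact Rk.unary _ _ _ _ ht (by rw [hn]; exact g3 (by omega))
    · exact Me.unary _ _ _ ht (by rw [hn]; exact g4)
    · exact g5.trans (max_le_max le_rfl (Nat.le_add_right _ _))
  | cons r₁ r₂ up q i X β q₁ i₁ q₂ i₂ hβ _ _ ih₁ ih₂ =>
    intro hi hl
    obtain ⟨Y, γ, rfl⟩ := List.exists_cons_of_ne_nil hβ
    obtain ⟨f0, f1, f2, f3, m, f4, f5⟩ := ih₁ hi C.hD1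
    obtain ⟨g0, g1, g2, g3, m', g4, g5⟩ := ih₂ f0 (by rw [List.length_cons] at hl; omega)
    have ht := C.tag_two (q := q) (i := i) x hl
    have hn := C.nx_two (q := q) hi hl
    have hk : (C.sys x).kont (C.code q i (X :: Y :: γ)) (C.code q₁ i₁ []) =
        C.code q₁ i₁ (Y :: γ) := C.kont_eq f0 hl
    have ht0 : (C.sys x).tag (C.code q i (X :: Y :: γ)) ≠ 0 := by omega
    have ht1 : (C.sys x).tag (C.code q i (X :: Y :: γ)) ≠ 1 := by omega
    refine ⟨g0, fun hq => ?_, fun hq hr => ?_, fun hr => ?_, ?_⟩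
    · obtain ⟨a1, a2, a3, a4⟩ := f1 hq
      obtain ⟨b1, b2, b3, b4⟩ := g1 a1
      refine ⟨b1, by omega, ?_, fun h => absurd h (by simp)⟩
      exact Rk.left 1 0 0 _ _ _ ht0 ht1 le_rfl (by rw [hn]; exact a4 (by simp))
        (by rw [hk]; exact b3)
    · have hq₁ : q₁ ≠ Option.none := fun h => hq (g1 h).1
      obtain ⟨a1, a2, a3⟩ := f2 hq₁ (by omega)
      obtain ⟨b1, b2, b3⟩ := g2 hq (by omega)
      refine ⟨?_, fun h => absurd h (by simp), fun hup => absurd (a3 hup) (by simp)⟩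
      exact Rk.left 1 0 0 _ _ _ ht0 ht1 le_rfl (by rw [hn]; exact a2 (by simp))
        (by rw [hk]; exact b1)
    · by_cases hq₁ : q₁ = Option.none
      · obtain ⟨b1, b2, b3, b4⟩ := g1 hq₁
        exact Rk.right 2 0 0 _ _ _ ht0 ht1 le_rfl (by rw [hn]; exact f3 (by omega))
          (by rw [hk]; exact b3)
      · obtain ⟨a1, a2, a3⟩ := f2 hq₁ (by omega)
        exact Rk.left 2 0 0 _ _ _ ht0 ht1 le_rfl (by rw [hn]; exact a1)
          (by rw [hk]; exact g3 (by omega))
    · rcases Nat.eq_zero_or_pos r₁ with h1 | h1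
      · subst h1
        exact ⟨m', Me.left _ _ _ _ ht0 ht1 (by rw [hn]; exact f3 rfl) (by rw [hk]; exact g4),
          by rwa [Nat.zero_add]⟩
      · rcases Nat.eq_zero_or_pos r₂ with h2 | h2
        · subst h2
          exact ⟨m, Me.right _ _ _ _ ht0 ht1 (by rw [hn]; exact f4) (by rw [hk]; exact g3 rfl),
            by rwa [Nat.add_zero]⟩
        · refine ⟨m + m', Me.both _ _ _ _ _ ht0 ht1 (by rw [hn]; exact f4)
            (by rw [hk]; exact g4), ?_⟩
          rw [max_eq_right h1] at f5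
          rw [max_eq_right h2] at g5
          exact (Nat.add_le_add f5 g5).trans (le_max_right _ _)

end TURNM

open TURNM in
theorem specTURN : SpecTURN := by
  intro α M C x r h
  obtain ⟨q, i, γ, hs, ha⟩ := h
  obtain ⟨r', q', i', hr, hw, hg⟩ := hs.exists_wb ha
  obtain ⟨g0, -, -, -, m, g4, g5⟩ := good C hw (Nat.le_add_left _ _) C.hD1
  exact ⟨q', i', m, g0, g5.trans (max_le_max le_rfl hr), g4, hg⟩

end CL

end Pool.Agent.Lib.MP_9277c3_lc
end
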