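import Pool.Agent.Lib.MP_9277c3_lc.helper83.Prog
import Pool.Agent.Lib.MP_9277c3_lc.helper78.CM.MainTM

/-!
# Computation of the parameters, for logarithmic space
-/

namespace Pool.Agent.Lib.MP_9277c3_lc.CL

open Finset CM

/-! ### The parameters -/

/-- The exponent of the base. -/
def lT (K n : ℕ) : ℕ := Nat.clog 4 (mP K n + 1)

/-- The base for the digits and the length of the history. -/
def TP (K n : ℕ) : ℕ := 2 ^ lT K n

/-- The number of digits of a state. -/
def dP (K n : ℕ) : ℕ := Nat.clog (TP K n) (4 * (K * (n + 3)) ^ 5)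

open Classical in
/-- The prime number. -/
noncomputable def pP (K n : ℕ) : ℕ := Nat.find (exists_p (dP K n * TP K n))

/-- The parameters. -/
noncomputable def par (K n : ℕ) : Par where
  N := K * (n + 3)
  m := dP K n
  p := pP K n
  T := TP K n
  Q := TP K n ^ dP K n
  cw := pP K n + TP K n + 1
  cb := TP K n ^ dP K n + pP K n + 4
  n := n + 1

/-- The exponent of the bound for all numbers. -/
def eP (c K n : ℕ) : ℕ := 300 * (c + 1) * mP K n

section

variable {K n : ℕ}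

theorem m_lt_T2 : mP K n < TP K n * TP K n := by
  have h1 : mP K n + 1 ≤ 4 ^ lT K n := Nat.le_pow_clog (by norm_num) _
  have h2 : TP K n * TP K n = 4 ^ lT K n := by
    rw [TP, ← mul_pow, show 2 * 2 = 4 from rfl]
  omega

theorem l_pos (hK : 64 ≤ K) : 0 < lT K n := by
  by_contra hcon
  have h1 := m_lt_T2 (K := K) (n := n)
  have h2 := m_ge (n := n) hK
  rw [TP, show lT K n = 0 by omega] at h1
  norm_num at h1
  omega

theorem T2_le (hK : 64 ≤ K) : TP K n * TP K n ≤ 4 * mP K n := by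
  have h0 := l_pos (n := n) hK
  have h1 : 4 ^ (lT K n - 1) < mP K n + 1 := Nat.pow_lt_of_lt_clog (show lT K n - 1 < _ by
    unfold lT at *
    omega)
  have h2 : TP K n * TP K n = 4 * 4 ^ (lT K n - 1) := by
    rw [TP, ← mul_pow, ← pow_succ', show lT K n - 1 + 1 = lT K n by omega, show 2 * 2 = 4 from rfl]
  omega

theorem T_ge (hK : 64 ≤ K) : 8 ≤ TP K n := by
  have h1 := m_lt_T2 (K := K) (n := n)
  have h2 := m_ge (n := n) hK
  have h3 : 2 < lT K n := by
    by_contra hcon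
    have h4 : TP K n ≤ 2 ^ 2 := Nat.pow_le_pow_right (by norm_num) (by omega)
    nlinarith
  calc 8 = 2 ^ 3 := by norm_num
    _ ≤ TP K n := Nat.pow_le_pow_right (by norm_num) h3

theorem TP_even (hK : 64 ≤ K) : TP K n = 2 * (TP K n / 2) := by
  have h0 := l_pos (n := n) hK
  have h1 : TP K n = 2 * 2 ^ (lT K n - 1) := by
    rw [TP, ← pow_succ', show lT K n - 1 + 1 = lT K n by omega]
  omega

theorem T_le_m (hK : 64 ≤ K) : TP K n ≤ mP K n := by
  have h1 := T2_le (n := n) hK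
  have h2 := m_ge (n := n) hK
  by_contra hcon
  push Not at hcon
  nlinarith

theorem l_le_T : lT K n ≤ TP K n := Nat.lt_two_pow_self.le

theorem T_lt (hK : 64 ≤ K) : TP K n < K * (n + 3) := by
  have h1 := m_le_log (K := K) (n := n)
  have h2 := T_le_m (n := n) hK
  have h3 := N_ge (n := n) hK
  have h4 : 7 ≤ Nat.log 2 (K * (n + 3)) :=
    Nat.le_log_of_pow_le (by norm_num) (by norm_num; omega)
  have h5 := ten_lt h4
  have h6 : 2 ^ Nat.log 2 (K * (n + 3)) ≤ K * (n + 3) := Nat.pow_log_le_self _ (by omega)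
  omega

theorem four_le_Q (hK : 64 ≤ K) : 4 * (K * (n + 3)) ^ 5 ≤ TP K n ^ dP K n :=
  Nat.le_pow_clog (by have := T_ge (n := n) hK; omega) _

theorem lt_four_Q {i : ℕ} (hi : i < dP K n) : TP K n ^ i < 4 * (K * (n + 3)) ^ 5 :=
  Nat.pow_lt_of_lt_clog hi

theorem d_pos (hK : 64 ≤ K) : 0 < dP K n := by
  by_contra hcon
  have h1 := four_le_Q (n := n) hK
  have h2 := N_ge (n := n) hK
  rw [show dP K n = 0 by omega, pow_zero] at h1
  have h3 : 0 < (K * (n + 3)) ^ 5 := by positivity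
  omega

theorem Q_le (hK : 64 ≤ K) : TP K n ^ dP K n ≤ TP K n * (4 * (K * (n + 3)) ^ 5) := by
  have h0 := d_pos (n := n) hK
  have h1 := lt_four_Q (K := K) (n := n) (i := dP K n - 1) (by omega)
  have h2 : TP K n ^ dP K n = TP K n * TP K n ^ (dP K n - 1) := by
    rw [← pow_succ', show dP K n - 1 + 1 = dP K n by omega]
  rw [h2]
  exact Nat.mul_le_mul_left _ h1.le

theorem Q_le_pow (hK : 64 ≤ K) : TP K n ^ dP K n ≤ 2 ^ (2 * mP K n) := by
  have h1 := Q_le (n := n) hK
  have h2 := four_le (K := K) (n := n)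
  have h3 := T_le_m (n := n) hK
  have h4 : mP K n < 2 ^ mP K n := Nat.lt_two_pow_self
  calc TP K n ^ dP K n ≤ TP K n * (4 * (K * (n + 3)) ^ 5) := h1
    _ ≤ 2 ^ mP K n * 2 ^ mP K n := Nat.mul_le_mul (by omega) h2
    _ = 2 ^ (2 * mP K n) := by rw [← pow_add]; congr 1; ring

theorem d_lt_Q (hK : 64 ≤ K) : dP K n < TP K n ^ dP K n :=
  Nat.lt_pow_self (by have := T_ge (n := n) hK; omega)

theorem d_le_m (hK : 64 ≤ K) : dP K n ≤ mP K n := by
  refine Nat.clog_le_of_le_pow ((four_le (K := K) (n := n)).trans ?_)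
  exact Nat.pow_le_pow_left (by have := T_ge (n := n) hK; omega) _

theorem pP_spec : 2 * (dP K n * TP K n) + 2 ≤ pP K n ∧ (pP K n).Prime := by
  classical
  exact Nat.find_spec (exists_p (dP K n * TP K n))

theorem pP_le : pP K n ≤ 4 * (dP K n * TP K n) + 2 := by
  classical
  obtain ⟨q, h1, h2, h3⟩ :=
    Nat.exists_prime_lt_and_le_two_mul (2 * (dP K n * TP K n) + 1) (by omega)
  exact (Nat.find_min' (exists_p (dP K n * TP K n)) ⟨by omega, h1⟩).trans (by omega)

theorem pP_min {i : ℕ} (h1 : 2 * (dP K n * TP K n) + 2 ≤ i) (h2 : i < pP K n) : ¬i.Prime := by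
  classical
  exact fun h => Nat.find_min (exists_p (dP K n * TP K n)) h2 ⟨h1, h⟩

theorem p_le_T4 (hK : 64 ≤ K) : pP K n ≤ TP K n ^ 4 := by
  have h1 := pP_le (K := K) (n := n)
  have h2 := d_le_m (n := n) hK
  have h3 := m_lt_T2 (K := K) (n := n)
  have h4 := T_ge (n := n) hK
  have h5 : dP K n * TP K n ≤ TP K n * TP K n * TP K n := Nat.mul_le_mul_right _ (by omega)
  have h6 : 8 * (TP K n * TP K n * TP K n) ≤ TP K n * (TP K n * TP K n * TP K n) :=
    Nat.mul_le_mul_right _ h4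
  have h7 : TP K n ^ 4 = TP K n * (TP K n * TP K n * TP K n) := by ring
  have h8 : 8 * 8 * 8 ≤ TP K n * TP K n * TP K n := by gcongr
  omega

theorem pd_le (hK : 64 ≤ K) : pP K n ^ dP K n ≤ 2 ^ (8 * mP K n) := by
  calc pP K n ^ dP K n ≤ (TP K n ^ 4) ^ dP K n := Nat.pow_le_pow_left (p_le_T4 hK) _
    _ = (TP K n ^ dP K n) ^ 4 := by rw [← pow_mul, ← pow_mul, Nat.mul_comm]
    _ ≤ (2 ^ (2 * mP K n)) ^ 4 := Nat.pow_le_pow_left (Q_le_pow hK) _
    _ = 2 ^ (8 * mP K n) := by rw [← pow_mul]; congr 1; ring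

theorem p_le_pow (hK : 64 ≤ K) : pP K n ≤ 2 ^ (8 * mP K n) :=
  (Nat.le_self_pow (by have := d_pos (n := n) hK; omega) _).trans (pd_le hK)

theorem cb_le (hK : 64 ≤ K) : TP K n ^ dP K n + pP K n + 4 ≤ 2 ^ (9 * mP K n) := by
  have h1 := Q_le_pow (n := n) hK
  have h2 := p_le_pow (n := n) hK
  have h3 := m_ge (n := n) hK
  have h4 : 2 ^ (2 * mP K n) ≤ 2 ^ (8 * mP K n) := Nat.pow_le_pow_right (by norm_num) (by omega)
  have h5 : 2 ^ 2 ≤ 2 ^ (8 * mP K n) := Nat.pow_le_pow_right (by norm_num) (by omega)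
  have h6 : 2 ^ (9 * mP K n) = 2 ^ (8 * mP K n) * 2 ^ mP K n := by
    rw [← pow_add]
    congr 1
    ring
  have h7 : 2 ^ 2 ≤ 2 ^ mP K n := Nat.pow_le_pow_right (by norm_num) (by omega)
  rw [h6]
  nlinarith

theorem cw_le (hK : 64 ≤ K) : pP K n + TP K n + 1 ≤ TP K n ^ 5 := by
  have h1 := p_le_T4 (n := n) hK
  have h2 := T_ge (n := n) hK
  have h3 : TP K n ≤ TP K n ^ 4 := Nat.le_self_pow (by norm_num) _
  have h4 : TP K n ^ 5 = TP K n ^ 4 * TP K n := pow_succ _ _
  rw [h4]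
  nlinarith

theorem cwT_le (hK : 64 ≤ K) : (pP K n + TP K n + 1) ^ (3 * TP K n) ≤ 2 ^ (60 * mP K n) := by
  calc (pP K n + TP K n + 1) ^ (3 * TP K n) ≤ (TP K n ^ 5) ^ (3 * TP K n) :=
        Nat.pow_le_pow_left (cw_le hK) _
    _ = 2 ^ (lT K n * (5 * (3 * TP K n))) := by
        conv_lhs => rw [TP]
        rw [← pow_mul, ← pow_mul]
        rfl
    _ ≤ 2 ^ (60 * mP K n) := by
        refine Nat.pow_le_pow_right (by norm_num) ?_
        have h1 := T2_le (n := n) hK
        have h2 := l_le_T (K := K) (n := n)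
        calc lT K n * (5 * (3 * TP K n)) ≤ TP K n * (5 * (3 * TP K n)) :=
              Nat.mul_le_mul_right _ h2
          _ = 15 * (TP K n * TP K n) := by ring
          _ ≤ 60 * mP K n := by omega

/-- Each level divides by enough. -/
theorem m_le_pow (hK : 64 ≤ K) : mP K n ≤ (TP K n / 2) ^ 4 := by
  have h1 := m_lt_T2 (K := K) (n := n)
  have h2 := m_ge (n := n) hK
  have h3 := TP_even (n := n) hK
  generalize TP K n / 2 = h at *
  rw [h3] at h1
  have h4 : mP K n < 4 * (h * h) := by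
    refine h1.trans_le (le_of_eq ?_)
    ring
  have h5 : mP K n ≤ 4 * (h * h) := h4.le
  have h6 : 37 * mP K n ≤ mP K n * mP K n := Nat.mul_le_mul_right _ h2
  have h7 : mP K n * mP K n ≤ 4 * (h * h) * (4 * (h * h)) := Nat.mul_le_mul h5 h5
  have h8 : 4 * (h * h) * (4 * (h * h)) = 16 * h ^ 4 := by ring
  omega

theorem levels_ge (hK : 64 ≤ K) (C : ℕ) : Nat.log 2 (n + 2) ^ C ≤ (TP K n / 2) ^ (4 * C) := by
  rw [pow_mul]
  exact Nat.pow_le_pow_left ((log_le hK).trans (m_le_pow hK)) _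

end

section

variable {c K n : ℕ}

theorem e_ge : 300 * mP K n ≤ eP c K n := by
  unfold eP
  nlinarith [Nat.zero_le (c * mP K n)]

theorem pow_le_A {k : ℕ} (hk : k ≤ 300 * mP K n) : 2 ^ k ≤ 2 ^ eP c K n :=
  Nat.pow_le_pow_right (by norm_num) (hk.trans e_ge)

/-- The parameters have the required properties. -/
theorem par_PB (hK : 64 ≤ K) : PB (par K n) (2 ^ eP c K n) := by
  have h1 := pP_spec (K := K) (n := n)
  have h2 := N_ge (n := n) hK
  have h3 := m_ge (n := n) hK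
  have h4 := T_ge (n := n) hK
  have h5 := d_pos (n := n) hK
  have h6 := d_lt_Q (n := n) hK
  have h7 : dP K n * 8 ≤ dP K n * TP K n := Nat.mul_le_mul_left _ h4
  have h8 : 1 * TP K n ≤ dP K n * TP K n := Nat.mul_le_mul_right _ h5
  refine ⟨h1.2, ?_, ?_, h5, ?_, ?_, T_lt hK, rfl, four_le_Q hK, ?_, ?_, ?_, ?_, ?_, ?_, ?_, ?_, ?_⟩
  · simp only [par]
    have h9 : dP K n * (TP K n - 1) ≤ dP K n * TP K n := Nat.mul_le_mul_left _ (by omega)
    omega
  · simp only [par]; omega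
  · simp only [par]; omega
  · simp only [par]; omega
  · simp only [par]; omega
  · simp only [par]; omega
  · simp only [par]; omega
  · simp only [par]; omega
  · simp only [par]; omega
  · exact (cb_le hK).trans (pow_le_A (by omega))
  · exact (pd_le hK).trans (pow_le_A (by omega))
  · have h9 := four_le (K := K) (n := n)
    have h10 : (K * (n + 3)) ^ 6 ≤ (4 * (K * (n + 3)) ^ 5) ^ 2 := by
      calc (K * (n + 3)) ^ 6 ≤ (K * (n + 3)) ^ 10 := Nat.pow_le_pow_right (by omega) (by norm_num)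
        _ ≤ 16 * (K * (n + 3)) ^ 10 := by omega
        _ = (4 * (K * (n + 3)) ^ 5) ^ 2 := by ring
    have h11 : (4 * (K * (n + 3)) ^ 5) ^ 2 ≤ (2 ^ mP K n) ^ 2 := Nat.pow_le_pow_left h9 2
    have h12 : 8 * (2 ^ mP K n) ^ 2 ≤ 2 ^ eP c K n := by
      rw [← pow_mul, show (8 : ℕ) = 2 ^ 3 by norm_num, ← pow_add]
      exact pow_le_A (by omega)
    have h13 : mP K n < 2 ^ mP K n := Nat.lt_two_pow_self
    have h14 : 2 < (2 ^ mP K n) ^ 2 := by nlinarith
    simp only [par]
    omega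
  · have h9 := p_le_pow (n := n) hK
    have h10 : pP K n * pP K n ≤ 2 ^ (8 * mP K n) * 2 ^ (8 * mP K n) := Nat.mul_le_mul h9 h9
    have h11 : 2 ^ (8 * mP K n) * 2 ^ (8 * mP K n) * 2 ≤ 2 ^ eP c K n := by
      rw [← pow_add, ← pow_succ]
      exact pow_le_A (by omega)
    have h12 : 0 < 2 ^ (8 * mP K n) * 2 ^ (8 * mP K n) := by positivity
    simp only [par]
    omega

theorem par_FS (hK : 64 ≤ K) :
    ((par K n).cb ^ saved.length * (par K n).cw ^ (3 * (par K n).T)) ^ c ≤ 2 ^ eP c K n := by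
  have h1 := cb_le (n := n) hK
  have h2 := cwT_le (n := n) hK
  have h6 : saved.length = 19 := rfl
  rw [h6]
  calc ((par K n).cb ^ 19 * (par K n).cw ^ (3 * (par K n).T)) ^ c
      ≤ ((2 ^ (9 * mP K n)) ^ 19 * 2 ^ (60 * mP K n)) ^ c :=
        Nat.pow_le_pow_left (Nat.mul_le_mul (Nat.pow_le_pow_left h1 _) h2) _
    _ = 2 ^ ((9 * mP K n * 19 + 60 * mP K n) * c) := by
        rw [← pow_mul, ← pow_add, ← pow_mul]
    _ ≤ 2 ^ eP c K n := by
        refine Nat.pow_le_pow_right (by norm_num) ?_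
        unfold eP
        calc (9 * mP K n * 19 + 60 * mP K n) * c = 231 * c * mP K n := by ring
          _ ≤ 300 * (c + 1) * mP K n := Nat.mul_le_mul_right _ (by omega)

end

section

open Rg

/-- Computation of the parameters. -/
def initC (K c : ℕ) : Prg :=
  sq [
    set cn 1, set e (Exp.inp cn - 1),
    Stmt.loop e (sq [set cn (Exp.var cn + 1), set e (Exp.inp cn - 1)]),
    set cN ((Exp.lit K : Exp Rg) * (Exp.var cn + 2)),
    set cQ 1, set e (4 * (cN * (cN * (cN * (cN * cN)))) - cQ),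
    Stmt.loop e (sq [set cQ (2 * cQ), set k1 (k1 + 1),
      set e (4 * (cN * (cN * (cN * (cN * cN)))) - cQ)]),
    set cT 1, set e (k1 + 1 - cT * cT),
    Stmt.loop e (sq [set cT (2 * cT), set e (k1 + 1 - cT * cT)]),
    set k1 0, set cQ 1, set e (4 * (cN * (cN * (cN * (cN * cN)))) - cQ),
    Stmt.loop e (sq [set cQ (cT * cQ), set cm (cm + 1),
      set e (4 * (cN * (cN * (cN * (cN * cN)))) - cQ)]),
    set lev (Exp.lit c : Exp Rg),
    set cp (2 * (cm * cT) + 1), set e 1, Stmt.loop e (sq [set cp (cp + 1), dvC]),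
    set cpm 1, set k2 (cm - 1), Stmt.loop k2 (sq [set cpm (cpm * cp), set k2 (k2 - 1)]),
    set cw (cp + cT + 1), set cb (cQ + cp + 4)]

/-- The main program. -/
def mainC (K c : ℕ) (startE accE : Exp Rg) : Prg :=
  sq [initC K c, set a startE, Stmt.call Pr.small, set e accE]

end

/-- The state after the computation of the parameters. -/
noncomputable def initS (c K n : ℕ) : Rg → ℕ
  | .cN => K * (n + 3)
  | .cm => dP K n
  | .cp => pP K n
  | .cpm => pP K n ^ (dP K n - 1)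
  | .cT => TP K n
  | .cQ => TP K n ^ dP K n
  | .cw => pP K n + TP K n + 1
  | .cb => TP K n ^ dP K n + pP K n + 4
  | .cn => n + 1
  | .lev => c
  | _ => 0

section

variable {α : Type} {X : List α} {cc : Cell α → ℕ} {A : ℕ} {body : Pr → Prg} {c K : ℕ}

theorem run_initC (hK : 64 ≤ K) (h1 : cc Cell.right = 1) (h2 : ∀ a, 2 ≤ cc (Cell.letter a))
    (h3 : ∀ d, cc d ≤ K) :
    RunA X cc (2 ^ eP c K X.length) body 0 (initC K c) (fun _ => 0) (initS c K X.length) := by
  set n := X.length with hn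
  set A := 2 ^ eP c K n with hA
  have f1 := pP_spec (K := K) (n := n)
  have f2 := N_ge (n := n) hK
  have f3 := m_ge (n := n) hK
  have f4 := T_ge (n := n) hK
  have f5 := e_ge (c := c) (K := K) (n := n)
  have f6 : mP K n < 2 ^ mP K n := Nat.lt_two_pow_self
  have f7 := pP_le (K := K) (n := n)
  have f8 := four_le (K := K) (n := n)
  have f9 := four_le_Q (n := n) hK
  have f10 := d_pos (n := n) hK
  have f11 := T_le_m (n := n) hK
  have f12 := T2_le (n := n) hK
  have f13 := m_lt_T2 (K := K) (n := n)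
  have f14 := d_lt_Q (n := n) hK
  have f15 := Q_le_pow (n := n) hK
  have f16 := p_le_pow (n := n) hK
  have b1 : 2 ^ (2 * mP K n) * 8 ≤ A := by
    rw [show (8 : ℕ) = 2 ^ 3 by norm_num, ← pow_add]
    exact pow_le_A (by omega)
  have b2 : 2 ^ (8 * mP K n) * 8 ≤ A := by
    rw [show (8 : ℕ) = 2 ^ 3 by norm_num, ← pow_add]
    exact pow_le_A (by omega)
  have b3 : 2 ^ mP K n ≤ 2 ^ (2 * mP K n) := Nat.pow_le_pow_right (by norm_num) (by omega)
  have b4 : 0 < 2 ^ (8 * mP K n) := by positivity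
  have a1 : 8 * 2 ^ mP K n < A := by
    rw [show (8 : ℕ) = 2 ^ 3 by norm_num, ← pow_add, hA]
    exact Nat.pow_lt_pow_right (by norm_num) (by omega)
  have a2 : K * (n + 3) ≤ 2 ^ mP K n := by
    refine le_trans ?_ f8
    calc K * (n + 3) = (K * (n + 3)) ^ 1 := (pow_one _).symm
      _ ≤ (K * (n + 3)) ^ 5 := Nat.pow_le_pow_right (by omega) (by norm_num)
      _ ≤ 4 * (K * (n + 3)) ^ 5 := by omega
  have a3 : K ≤ K * (n + 3) := Nat.le_mul_of_pos_right _ (by omega)
  have a4 : n + 3 ≤ K * (n + 3) := Nat.le_mul_of_pos_left _ (by omega)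
  have a6 : eP c K n < A := Nat.lt_two_pow_self
  have a7 : c < A := by
    have : c ≤ eP c K n := by
      unfold eP
      have h5 : 1 ≤ mP K n := by omega
      nlinarith [Nat.zero_le (c * mP K n)]
    omega
  have a9 : pP K n ^ dP K n ≤ A := (par_PB (c := c) (n := n) hK).hA2
  have hp0 : 0 < pP K n := f1.2.pos
  have hp2 := f1.2.two_le
  have a10 : dP K n * TP K n ≤ dP K n * TP K n := le_rfl
  -- the length
  refine RunA.sq_set 1 (by simp) (by omega) (RunA.sq_set (cc (cell X 1) - 1) (by simp)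
    (by have := h3 (cell X 1); omega) ?_)
  refine RunA.sq_cons ((RunA.seqLoop Rg.e _ (fun i => upd (upd (fun _ : Rg => 0) .cn (i + 1)) .e
    (cc (cell X (i + 1)) - 1)) n (fun i hi => ?_) ?_ (fun i hi => ?_)).congr_left rfl) ?_
  · have := h2 X[i]
    simp only [upd_self]
    rw [cell_letter hi]
    omega
  · simp only [upd_self]
    rw [cell_right le_rfl, h1]
  · refine RunA.sq_set (i + 2) (by simp) (by omega) (RunA.sq_set (cc (cell X (i + 2)) - 1)
      (by simp) (by have := h3 (cell X (i + 2)); omega) (RunA.sq_nil.cast ?_))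
    funext q; cases q <;> simp
  simp only [cell_right (X := X) (i := n) le_rfl, h1, Nat.sub_self]
  refine RunA.sq_set (K * (n + 3)) (by simp) (by omega) ?_
  -- the number of bits
  refine RunA.sq_set 1 (by simp) (by omega) (RunA.sq_set (4 * (K * (n + 3)) ^ 5 - 1) ?_
    (by omega) ?_)
  · simp
    ring_nf
  refine RunA.sq_cons ((RunA.seqLoop Rg.e _ (fun i => upd (upd (upd (upd (upd (fun _ : Rg => 0) .cn (n + 1))
    .cN (K * (n + 3))) .cQ (2 ^ i)) .k1 i) .e (4 * (K * (n + 3)) ^ 5 - 2 ^ i)) (mP K n)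
    (fun i hi => ?_) ?_ (fun i hi => ?_)).congr_left ?_) ?_
  · have := lt_four (K := K) (n := n) hi
    simp only [upd_self]
    omega
  · simp only [upd_self]
    omega
  · have h5 : 2 ^ (i + 1) ≤ 2 ^ mP K n := Nat.pow_le_pow_right (by norm_num) hi
    have h6 : 4 * (K * (n + 3)) ^ 5 - 2 ^ (i + 1) < A := (Nat.sub_le _ _).trans_lt
      (f8.trans_lt (by omega))
    refine RunA.sq_set (2 ^ (i + 1)) (by simp; ring) (by omega) (RunA.sq_set (i + 1) (by simp)
      (by omega) (RunA.sq_set (4 * (K * (n + 3)) ^ 5 - 2 ^ (i + 1)) ?_ h6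
      (RunA.sq_nil.cast ?_)))
    · simp
      ring_nf
    · funext q; cases q <;> simp
  · funext q; cases q <;> simp
  rw [show 4 * (K * (n + 3)) ^ 5 - 2 ^ mP K n = 0 by omega]
  -- the base
  refine RunA.sq_set 1 (by simp) (by omega) (RunA.sq_set (mP K n + 1 - 1 * 1) (by simp)
    (by omega) ?_)
  refine RunA.sq_cons ((RunA.seqLoop Rg.e _ (fun i => upd (upd (upd (upd (upd (upd
    (fun _ : Rg => 0) .cn (n + 1)) .cN (K * (n + 3))) .cQ (2 ^ mP K n)) .k1 (mP K n)) .cT (2 ^ i))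
    .e (mP K n + 1 - 2 ^ i * 2 ^ i)) (lT K n) (fun i hi => ?_) ?_ (fun i hi => ?_)).congr_left ?_)
    ?_
  · have h5 : 4 ^ i < mP K n + 1 := Nat.pow_lt_of_lt_clog hi
    have h6 : 2 ^ i * 2 ^ i = 4 ^ i := by rw [← mul_pow, show 2 * 2 = 4 from rfl]
    simp only [upd_self]
    omega
  · simp only [upd_self]
    have h5 : 2 ^ lT K n * 2 ^ lT K n = TP K n * TP K n := rfl
    omega
  · have h5 : 2 ^ (i + 1) ≤ TP K n := Nat.pow_le_pow_right (by norm_num) hi
    have h6 : mP K n + 1 - 2 ^ (i + 1) * 2 ^ (i + 1) < A := (Nat.sub_le _ _).trans_lt (by omega)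
    refine RunA.sq_set (2 ^ (i + 1)) (by simp; ring) (by omega)
      (RunA.sq_set (mP K n + 1 - 2 ^ (i + 1) * 2 ^ (i + 1)) (by simp) h6
      (RunA.sq_nil.cast ?_))
    funext q; cases q <;> simp
  · funext q; cases q <;> simp
  have hl0 : mP K n + 1 - 2 ^ lT K n * 2 ^ lT K n = 0 := by
    have h5 : 2 ^ lT K n * 2 ^ lT K n = TP K n * TP K n := rfl
    omega
  rw [hl0, show 2 ^ lT K n = TP K n from rfl]
  -- the number of digits
  refine RunA.sq_set 0 (by simp) (by omega) (RunA.sq_set 1 (by simp) (by omega)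
    (RunA.sq_set (4 * (K * (n + 3)) ^ 5 - 1) ?_ (by omega) ?_))
  · simp
    ring_nf
  refine RunA.sq_cons ((RunA.seqLoop Rg.e _ (fun i => upd (upd (upd (upd (upd (upd
    (fun _ : Rg => 0) .cn (n + 1)) .cN (K * (n + 3))) .cT (TP K n)) .cQ (TP K n ^ i)) .cm i) .e
    (4 * (K * (n + 3)) ^ 5 - TP K n ^ i)) (dP K n)
    (fun i hi => ?_) ?_ (fun i hi => ?_)).congr_left ?_) ?_
  · have := lt_four_Q (K := K) (n := n) hi
    simp only [upd_self]
    omega
  · simp only [upd_self]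
    omega
  · have h5 : TP K n ^ (i + 1) ≤ TP K n ^ dP K n := Nat.pow_le_pow_right (by omega) hi
    have h6 : 4 * (K * (n + 3)) ^ 5 - TP K n ^ (i + 1) < A := (Nat.sub_le _ _).trans_lt
      (f8.trans_lt (by omega))
    refine RunA.sq_set (TP K n ^ (i + 1)) (by simp; ring) (by omega) (RunA.sq_set (i + 1) (by simp)
      (by omega) (RunA.sq_set (4 * (K * (n + 3)) ^ 5 - TP K n ^ (i + 1)) ?_ h6
      (RunA.sq_nil.cast ?_)))
    · simp
      ring_nf
    · funext q; cases q <;> simp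
  · funext q; cases q <;> simp
  rw [show 4 * (K * (n + 3)) ^ 5 - TP K n ^ dP K n = 0 by omega]
  -- the number of levels
  refine RunA.sq_set c (by simp) (by omega) ?_
  -- the prime number
  refine RunA.sq_set (2 * (dP K n * TP K n) + 1) (by simp) (by omega)
    (RunA.sq_set 1 (by simp) (by omega) ?_)
  refine RunA.sq_cons ((RunA.seqLoop Rg.e _ (fun i => upd (upd (upd (upd (upd (upd (upd (upd
    (fun _ : Rg => 0) .cn (n + 1)) .cN (K * (n + 3))) .cQ (TP K n ^ dP K n)) .cm (dP K n)) .cT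
    (TP K n)) .lev c) .cp (2 * (dP K n * TP K n) + 1 + i)) .e
    (if i = 0 then 1 else dcn (2 * (dP K n * TP K n) + 1 + i) 0))
    (pP K n - (2 * (dP K n * TP K n) + 1))
    (fun i hi => ?_) ?_ (fun i hi => ?_)).congr_left ?_) ?_
  · simp only [upd_self]
    split_ifs with h0
    · exact one_ne_zero
    · rw [Ne, dcn_eq_zero (by omega)]
      exact pP_min (K := K) (n := n) (by omega) (by omega)
  · simp only [upd_self]
    rw [if_neg (by omega), show 2 * (dP K n * TP K n) + 1 +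
      (pP K n - (2 * (dP K n * TP K n) + 1)) = pP K n by omega, dcn_eq_zero hp2]
    exact f1.2
  · refine RunA.sq_set (2 * (dP K n * TP K n) + 1 + (i + 1)) (by simp; ring) (by omega)
      (RunA.sq_cons ((run_dvC (by simp) (by simp only [upd_self]; omega)).cast ?_) RunA.sq_nil)
    simp only [upd_self]
    funext q; cases q <;> simp
  · funext q; cases q <;> simp
  have hp3 : (if pP K n - (2 * (dP K n * TP K n) + 1) = 0 then 1 else
      dcn (2 * (dP K n * TP K n) + 1 + (pP K n - (2 * (dP K n * TP K n) + 1))) 0) = 0 := by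
    rw [if_neg (by omega), show 2 * (dP K n * TP K n) + 1 +
      (pP K n - (2 * (dP K n * TP K n) + 1)) = pP K n by omega, dcn_eq_zero hp2]
    exact f1.2
  rw [hp3, show 2 * (dP K n * TP K n) + 1 + (pP K n - (2 * (dP K n * TP K n) + 1)) = pP K n by
    omega]
  -- its power
  refine RunA.sq_set 1 (by simp) (by omega) (RunA.sq_set (dP K n - 1) (by simp) (by omega) ?_)
  refine RunA.sq_cons (RunA.loop .k2 _ (fun j => upd (upd (upd (upd (upd (upd (upd (upd (upd
    (fun _ : Rg => 0) .cn (n + 1)) .cN (K * (n + 3))) .cQ (TP K n ^ dP K n)) .cm (dP K n)) .cT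
    (TP K n)) .lev c) .cp (pP K n)) .cpm (pP K n ^ (dP K n - 1 - j))) .k2 j)
    (by simp) (dP K n - 1) (fun j hj => ?_) ?_ rfl) ?_
  · have h5 : pP K n ^ (dP K n - 1 - j) < A := by
      refine lt_of_lt_of_le ?_ a9
      exact Nat.pow_lt_pow_right (by omega) (by omega)
    refine RunA.sq_set (pP K n ^ (dP K n - 1 - j)) ?_ h5 (RunA.sq_set j (by simp) (by omega)
      (RunA.sq_nil.cast ?_))
    · simp
      rw [← pow_succ, show dP K n - 1 - (j + 1) + 1 = dP K n - 1 - j by omega]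
    · funext q; cases q <;> simp
  · rw [Nat.sub_self, pow_zero]
    funext q; cases q <;> simp
  · rw [Nat.sub_zero]
    have h5 : pP K n + TP K n + 1 < A := by omega
    have h6 : TP K n ^ dP K n + pP K n + 4 < A := by omega
    refine RunA.sq_set (pP K n + TP K n + 1) (by simp) h5 (RunA.sq_set
      (TP K n ^ dP K n + pP K n + 4) (by simp) h6 (RunA.sq_nil.cast ?_))
    funext q; cases q <;> simp [initS]

end

end Pool.Agent.Lib.MP_9277c3_lc.CL
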