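import Pool.Agent.Lib.MP_9277c3_lc.helper78.Defs

/-!
# Turns of deterministic pushdown automata
-/

namespace Pool.Agent.Lib.MP_9277c3_lc

/-- Whether the last change of the height of the stack was an increase, after a move which replaces
the top symbol by `k` symbols; `up` is this information before the move. -/
def upNext (up : Bool) : ℕ → Bool
  | 0 => false
  | 1 => up
  | _ + 2 => true

/-- The number of turns in a move which replaces the top symbol by `k` symbols: `1`, if the move
decreases the height of the stack and the last change of the height was an increase, and `0` if
not. -/
def turnOf (up : Bool) : ℕ → ℕ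
  | 0 => if up then 1 else 0
  | _ + 1 => 0

namespace DPDA

variable {α : Type} (M : DPDA α)

/-- `TSteps x r up c c'`: the automaton goes from the configuration `c` to `c'` with `r` turns;
`up` says whether the last change of the height of the stack before this part of the run was an
increase. -/
inductive TSteps (x : List α) :
    ℕ → Bool → M.State × ℕ × List M.Stack → M.State × ℕ × List M.Stack → Prop
  | refl (up : Bool) (c : M.State × ℕ × List M.Stack) : TSteps x 0 up c c
  | head (r : ℕ) (up : Bool) (q : M.State) (i : ℕ) (X : M.Stack) (γ : List M.Stack) (q' : M.State)
      (mv : Move) (β : List M.Stack) (c : M.State × ℕ × List M.Stack)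
      (h : M.next q (cell x i) X = some (q', mv, β))
      (h' : TSteps x r (upNext up β.length) (q', mv.apply x.length i, β ++ γ) c) :
      TSteps x (r + turnOf up β.length) up (q, i, X :: γ) c

/-- Started in the state `start`, with its head on the first position after the left marker and
`bottom` on its stack, the automaton reaches an accepting configuration with `r` turns. -/
def AcceptsTurns (r : ℕ) (x : List α) : Prop :=
  ∃ q i γ, M.TSteps x r false (M.start, 1, [M.bottom]) (q, i, γ) ∧ M.accepting q (cell x i)

end DPDA

end Pool.Agent.Lib.MP_9277c3_lc
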