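import Pool.Agent.Lib.MP_9277c3_lc.helper78.CM.Dp2
import Pool.Agent.Lib.MP_9277c3_lc.helper83.Turn

/-!
# Specifications for the theorem on turns
-/

namespace Pool.Agent.Lib.MP_9277c3_lc.CL

open CM

/-- `Rk S b l s v c`: the value of the node `v` is `c`, and at most `s` nodes of its tree are
branchings above the level `l - 1`, where a child which is below the level `l` has at most `b`
branchings above the level below. -/
inductive Rk (S : Sys) (b : ℕ) : ℕ → ℕ → ℕ → ℕ → Prop
  | done (l s v : ℕ) (h : S.tag v = 0) : Rk S b l s v (S.nx v)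
  | unary (l s v c : ℕ) (h : S.tag v = 1) (h1 : Rk S b (l + 1) s (S.nx v) c) :
      Rk S b (l + 1) s v c
  | left (l s s' v c c' : ℕ) (h0 : S.tag v ≠ 0) (h1 : S.tag v ≠ 1) (hs : s' ≤ b)
      (h2 : Rk S b l s' (S.nx v) c) (h3 : Rk S b (l + 1) s (S.kont v c) c') :
      Rk S b (l + 1) s v c'
  | right (l s s' v c c' : ℕ) (h0 : S.tag v ≠ 0) (h1 : S.tag v ≠ 1) (hs : s' ≤ b)
      (h2 : Rk S b (l + 1) s (S.nx v) c) (h3 : Rk S b l s' (S.kont v c) c') :
      Rk S b (l + 1) s v c'
  | both (l s s' v c c' : ℕ) (h0 : S.tag v ≠ 0) (h1 : S.tag v ≠ 1)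
      (h2 : Rk S b (l + 1) s (S.nx v) c) (h3 : Rk S b (l + 1) s' (S.kont v c) c') :
      Rk S b (l + 1) (s + s' + 1) v c'

/-- `Me S k v c m`: the value of the node `v` is `c`; subtrees without branchings above the level
`k - 1` count as `1`, and the numbers of two other subtrees are added. -/
inductive Me (S : Sys) (k : ℕ) : ℕ → ℕ → ℕ → Prop
  | base (v c : ℕ) (h : Rk S 0 k 0 v c) : Me S k v c 1
  | unary (v c m : ℕ) (h : S.tag v = 1) (h1 : Me S k (S.nx v) c m) : Me S k v c m
  | left (v c c' m : ℕ) (h0 : S.tag v ≠ 0) (h1 : S.tag v ≠ 1)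
      (h2 : Rk S 0 k 0 (S.nx v) c) (h3 : Me S k (S.kont v c) c' m) : Me S k v c' m
  | right (v c c' m : ℕ) (h0 : S.tag v ≠ 0) (h1 : S.tag v ≠ 1)
      (h2 : Me S k (S.nx v) c m) (h3 : Rk S 0 k 0 (S.kont v c) c') : Me S k v c' m
  | both (v c c' m m' : ℕ) (h0 : S.tag v ≠ 0) (h1 : S.tag v ≠ 1)
      (h2 : Me S k (S.nx v) c m) (h3 : Me S k (S.kont v c) c' m') : Me S k v c' (m + m')

/-- ALG: nodes with few branchings on each level are evaluated. Proof: adapt
`Sys.hist_complete` (file `helper78/CM/Alg.lean`): relative to the oracle `O = S.small N T l`, let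
`Bc S O v c k` be the inductive relation which counts the binary nodes with `O (S.nx v) = 0` and
`O (S.kont v c) = 0` (the path goes to the second child, if `O (S.nx v) ≠ 0`, and to the first one
if not); such a node needs exactly `2 * k + 1` steps of `S.hist`. Monotonicity:
`Rk S b l s v c → s ≤ b → Rk S b (l + 1) 0 v c`. -/
def SpecALG : Prop := ∀ (S : Sys) (N T b : ℕ), Sys.Closed S N → 2 * b + 1 ≤ T →
  ∀ l s v c, Rk S b l s v c → s ≤ b → v < N → S.small N T l v = c + 1

/-- SPLIT: by induction on `j`, with `a = (b + 1) ^ j`: for `Me S k v c m` either `m ≤ a`, or there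
is `s` with `Rk S b (k + 2 + j) s v c` and `(s + 1) * a ≤ m`. -/
def SpecSPLIT : Prop := ∀ (S : Sys) (k b j v c m : ℕ), Me S k v c m → m ≤ (b + 1) ^ j →
  ∃ s, s ≤ b ∧ Rk S b (k + 1 + j) s v c

/-- TURN: from a run with `r` turns to the tree. Proof: define trees `WB x r up q i l q' i'` as
`DPDA.Wt` (file `helper78/Equiv.lean`), with the number of turns: `nil`, `halt`, `accept` with
`r = 0`; `step` from `r, upNext up β.length` to `r + turnOf up β.length, up`; `cons` from
`r₁, up` for `[X]` and `r₂, false` for `β` to `r₁ + r₂, up`. `TSteps` gives such a tree as in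
`Steps.exists_wt`. Then by induction on `WB` (with `l.length ≤ C.D` and `i ≤ x.length + 1`), for
the nodes `v = C.code q i l` and `c = C.code q' i' []`, `S = C.sys x`:
(1) if `q = none` then `q' = none`, `r = 0`, `Rk S 0 2 0 v c`, and `Rk S 0 1 0 v c` if
`l.length ≤ 1`; (2) if `q' ≠ none` and `r = 0` then `Rk S 0 2 0 v c`, and `Rk S 0 1 0 v c` if
`l.length ≤ 1`, and `l = []` if `up = true`; (3) if `r = 0` then `Rk S 0 3 0 v c`; (4) there is `m`
with `Me S 3 v c m` and `m ≤ max 1 r`. -/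
def SpecTURN : Prop := ∀ (α : Type) (M : DPDA α) (C : Cd M) (x : List α) (r : ℕ),
  M.AcceptsTurns r x → ∃ (q : Option M.State) (i m : ℕ), i ≤ x.length + 1 ∧ m ≤ max 1 r ∧
    Me (C.sys x) 3 (C.code (some M.start) 1 [M.bottom]) (C.code q i []) m ∧
    ∀ q', q = some q' → M.accepting q' (cell x i)

end Pool.Agent.Lib.MP_9277c3_lc.CL
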