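import Pool.Agent.Lib.MP_9277c3_lc.helper83.Prog
import Pool.Agent.Lib.MP_9277c3_lc.helper78.CM.SmallC
import Pool.Agent.Lib.MP_9277c3_lc.helper83.Init
import Pool.Agent.Lib.MP_9277c3_lc.helper83.Spec
import Pool.Agent.Lib.MP_9277c3_lc.helper78.CM.Dp4

section
/-!
# Correctness of the programs for short vectors
-/
namespace Pool.Agent.Lib.MP_9277c3_lc.CL

open Finset CM

section

variable {α : Type} {X : List α} {cc : Cell α → ℕ} {A : ℕ} {body : Pr → Prg} {P : Par}

theorem PB.fact (hP : PB P A) : Fact P.p.Prime := ⟨hP.prime⟩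

theorem PB.m_lt (hP : PB P A) : P.m < A := hP.hcb3.trans_le hP.hA1

theorem PB.enc_lt (hP : PB P A) (V : ℕ → ZMod P.p) : encZ P.m V < A := by
  have := hP.fact
  exact (encZ_lt _ _).trans_le hP.hA2

theorem PB.m_pos (hP : PB P A) : 0 < P.m := hP.hm0

theorem run_vec (hP : PB P A) {s : Rg → ℕ} (hc : Cst P s) (hvz : s .vz = 0) (hvi : s .vi = 0)
    {V : ℕ → ZMod P.p} (hV : s .R0 = encZ P.m V) {A' C' Z : Exp Rg} (av cv zv : ℕ)
    (hA' : ∀ R z i, A'.eval X cc (upd (upd (upd s .R0 R) .vz z) .vi i) = av)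
    (hC' : ∀ R z i, C'.eval X cc (upd (upd (upd s .R0 R) .vz z) .vi i) = cv)
    (hZ : Z.eval X cc s = zv) (hzv : zv < A) :
    RunA X cc A body 0 (vec A' C' Z) s
      (upd s .R0 (encZ P.m fun i => (av : ZMod P.p) * V i + (cv : ZMod P.p) *
        dg P.p P.T zv i)) := by
  have := hP.fact
  have hm := hP.m_lt
  refine RunA.sq_set zv hZ hzv ?_
  refine RunA.sq_set P.m (by simp [hc.cm]) hm ?_
  refine RunA.sq_cons (RunA.loop .vi _ (fun n => upd (upd (upd s .R0 (encZ P.m (rot P.m V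
    (fun i => (av : ZMod P.p) * V i + (cv : ZMod P.p) * dg P.p P.T zv i) (P.m - n))))
    .vz (zv / P.T ^ (P.m - n))) .vi n) (by simp) P.m (fun n hn => ?_) ?_ rfl) ?_
  · refine RunA.sq_set _ ?_ (hP.enc_lt (rot P.m V
      (fun i => (av : ZMod P.p) * V i + (cv : ZMod P.p) * dg P.p P.T zv i) (P.m - n))) ?_
    · have h1 := rot_step (p := P.p) (m := P.m) (k := P.m - (n + 1)) (by omega) V P.T av cv zv
      rw [show P.m - (n + 1) + 1 = P.m - n by omega] at h1
      simp [hA', hC', hc.cp, hc.cpm, hc.cT, h1]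
    · refine RunA.sq_set (zv / P.T ^ (P.m - n)) ?_ ((Nat.div_le_self _ _).trans_lt hzv) ?_
      · simp [hc.cT]
        rw [Nat.div_div_eq_div_mul, ← pow_succ, show P.m - (n + 1) + 1 = P.m - n by omega]
      · refine RunA.sq_set n (by simp) (by omega) (RunA.sq_nil.cast ?_)
        funext q; cases q <;> simp
  · rw [Nat.sub_self, encZ_rot_zero, pow_zero, Nat.div_one, ← hV]
    funext q; cases q <;> simp
  · refine RunA.sq_set 0 (by simp) (by omega) (RunA.sq_nil.cast ?_)
    rw [Nat.sub_zero, encZ_rot_last]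
    funext q; cases q <;> simp [hvz, hvi]

theorem run_lgC (hP : PB P A) {s : Rg → ℕ} (hc : Cst P s) (hiv : s .iv = 0)
    {C : ZMod P.p} (hC : s .c = C.val) {W : Exp Rg} (w : ℕ)
    (hW : ∀ c' n, W.eval X cc (upd (upd s .c c') .iv n) = w) :
    RunA X cc A body 0 (lgC W) s (upd s .c (C * lg P.p P.T (s .vz % P.T) (w : ZMod P.p)).val) := by
  have := hP.fact
  have hp := hP.hcb2
  have hA := hP.hA1
  have hT := hP.hTp
  refine RunA.sq_set P.T (by simp [hc.cT]) (by omega) ?_
  refine RunA.sq_cons (RunA.loop .iv _ (fun n => upd (upd s .c (C * ∏ b ∈ Ico n P.T,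
    (if b = s .vz % P.T then 1 else (w : ZMod P.p) - (b : ZMod P.p))).val) .iv n)
    (by simp) P.T (fun n hn => ?_) ?_ rfl) ?_
  · refine RunA.sq_set (C * ∏ b ∈ Ico n P.T, (if b = s .vz % P.T then 1 else
      (w : ZMod P.p) - (b : ZMod P.p))).val ?_ ((ZMod.val_lt _).trans (by omega)) ?_
    · have h1 := lg_step (p := P.p) (C := (C * ∏ b ∈ Ico (n + 1) P.T,
        (if b = s .vz % P.T then 1 else (w : ZMod P.p) - (b : ZMod P.p))).val) (w := w) (b := n)
        (a := s .vz % P.T) (by omega)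
      rw [ZMod.natCast_val, ZMod.cast_id', id_eq, mul_assoc C,
        mul_comm (∏ b ∈ Ico (n + 1) P.T, _), ← prod_eq_prod_Ico_succ_bot hn (fun b : ℕ =>
        (if b = s .vz % P.T then (1 : ZMod P.p) else (w : ZMod P.p) - (b : ZMod P.p)))] at h1
      rw [← h1]
      simp [isE, hc.cp, hc.cT, hW]
    · refine RunA.sq_set n (by simp) (by omega) (RunA.sq_nil.cast ?_)
      funext q; cases q <;> simp
  · rw [Ico_self, prod_empty, mul_one, ← hC]
    funext q; cases q <;> simp
  · refine RunA.sq_nil.cast ?_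
    rw [lg, range_eq_Ico]
    funext q; cases q <;> simp [hiv]

theorem run_del (hP : PB P A) {s : Rg → ℕ} (hc : Cst P s) (hvz : s .vz = 0) (hvi : s .vi = 0)
    (hvr : s .vr = 0) (hiv : s .iv = 0) {V : ℕ → ZMod P.p} {k : Rg} (hV : s k = encZ P.m V)
    {C : ZMod P.p} (hC : s .c = C.val) {Z : Exp Rg} (zv : ℕ) (hZ : Z.eval X cc (upd s .vr (s k)) = zv)
    (hzv : zv < A) : RunA X cc A body 0 (del Z k) s
      (upd s .c (C * dlt P.p P.T P.m zv V).val) := by
  have := hP.fact
  have hm := hP.m_lt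
  have hp := hP.hcb2
  have hA := hP.hA1
  refine RunA.sq_set (s k) rfl (by rw [hV]; exact hP.enc_lt V) ?_
  refine RunA.sq_set zv hZ hzv ?_
  refine RunA.sq_set P.m (by simp [hc.cm]) hm ?_
  refine RunA.sq_cons (RunA.loop .vi _ (fun n => upd (upd (upd (upd s .c
    (C * dlt P.p P.T (P.m - n) zv V).val) .vr (encZ P.m V / P.p ^ (P.m - n))) .vz
    (zv / P.T ^ (P.m - n))) .vi n) (by simp) P.m (fun n hn => ?_) ?_ rfl) ?_
  · refine RunA.sq_cons ((run_lgC hP (C := C * dlt P.p P.T (P.m - (n + 1)) zv V)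
      ((((hc.upd (q := .c) (by decide) _).upd (q := .vr) (by decide) _).upd (q := .vz)
      (by decide) _).upd (q := .vi) (by decide) _) (by simp [hiv]) (by simp)
      (encZ P.m V / P.p ^ (P.m - (n + 1))) (fun c' n' => by simp)).cast rfl) ?_
    have h1 : C * dlt P.p P.T (P.m - (n + 1)) zv V * lg P.p P.T (zv / P.T ^ (P.m - (n + 1)) % P.T)
        ((encZ P.m V / P.p ^ (P.m - (n + 1)) : ℕ) : ZMod P.p) = C * dlt P.p P.T (P.m - n) zv V := by
      have h2 := encZ_digit (m := P.m) (i := P.m - (n + 1)) (by omega) V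
      have h3 : ((encZ P.m V / P.p ^ (P.m - (n + 1)) : ℕ) : ZMod P.p) = V (P.m - (n + 1)) := by
        rw [← ZMod.natCast_mod, h2, ZMod.natCast_val, ZMod.cast_id', id_eq]
      rw [h3, mul_assoc, dlt, ← prod_range_succ (fun i => lg P.p P.T (zv / P.T ^ i % P.T) (V i)),
        show P.m - (n + 1) + 1 = P.m - n by omega, dlt]
    simp only [upd_self, upd_ne, ne_eq, reduceCtorEq, not_false_eq_true, h1]
    refine RunA.sq_set (encZ P.m V / P.p ^ (P.m - n)) ?_
        ((Nat.div_le_self _ _).trans_lt (hP.enc_lt V)) ?_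
    · simp [hc.cp]
      rw [Nat.div_div_eq_div_mul, ← pow_succ, show P.m - (n + 1) + 1 = P.m - n by omega]
    · refine RunA.sq_set (zv / P.T ^ (P.m - n)) ?_ ((Nat.div_le_self _ _).trans_lt hzv) ?_
      · simp [hc.cT]
        rw [Nat.div_div_eq_div_mul, ← pow_succ, show P.m - (n + 1) + 1 = P.m - n by omega]
      · refine RunA.sq_set n (by simp) (by omega) (RunA.sq_nil.cast ?_)
        funext q; cases q <;> simp
  · rw [Nat.sub_self, pow_zero, pow_zero, Nat.div_one, Nat.div_one, ← hV, dlt, range_zero,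
      prod_empty, mul_one, ← hC]
    funext q; cases q <;> simp
  · refine RunA.sq_set 0 (by simp) (by omega) (RunA.sq_set 0 (by simp) (by omega)
      (RunA.sq_nil.cast ?_))
    rw [Nat.sub_zero]
    funext q; cases q <;> simp [hvz, hvi, hvr]

theorem run_kapC (hP : PB P A) {s : Rg → ℕ} (hc : Cst P s) (hvz : s .vz = 0) (hvi : s .vi = 0)
    (hiv : s .iv = 0) {C : ZMod P.p} (hC : s .c = C.val) {Z : Exp Rg} (zv : ℕ)
    (hZ : Z.eval X cc s = zv) (hzv : zv < A) : RunA X cc A body 0 (kapC Z) s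
      (upd s .c (C * kap P.p P.T P.m zv).val) := by
  have := hP.fact
  have hm := hP.m_lt
  have hp := hP.hcb2
  have hA := hP.hA1
  refine RunA.sq_set zv hZ hzv ?_
  refine RunA.sq_set P.m (by simp [hc.cm]) hm ?_
  refine RunA.sq_cons (RunA.loop .vi _ (fun n => upd (upd (upd s .c
    (C * dlt P.p P.T (P.m - n) zv (dg P.p P.T zv)).val) .vz
    (zv / P.T ^ (P.m - n))) .vi n) (by simp) P.m (fun n hn => ?_) ?_ rfl) ?_
  · refine RunA.sq_cons ((run_lgC hP (C := C * dlt P.p P.T (P.m - (n + 1)) zv (dg P.p P.T zv))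
      (((hc.upd (q := .c) (by decide) _).upd (q := .vz)
      (by decide) _).upd (q := .vi) (by decide) _) (by simp [hiv]) (by simp)
      (zv / P.T ^ (P.m - (n + 1)) % P.T) (fun c' n' => by simp [hc.cT])).cast rfl) ?_
    have h1 : C * dlt P.p P.T (P.m - (n + 1)) zv (dg P.p P.T zv) *
        lg P.p P.T (zv / P.T ^ (P.m - (n + 1)) % P.T)
        ((zv / P.T ^ (P.m - (n + 1)) % P.T : ℕ) : ZMod P.p) =
          C * dlt P.p P.T (P.m - n) zv (dg P.p P.T zv) := by
      rw [mul_assoc, dlt, ← dg, ← prod_range_succ (fun i => lg P.p P.T (zv / P.T ^ i % P.T)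
        (dg P.p P.T zv i)), show P.m - (n + 1) + 1 = P.m - n by omega, dlt]
    simp only [upd_self, upd_ne, ne_eq, reduceCtorEq, not_false_eq_true, h1]
    refine RunA.sq_set (zv / P.T ^ (P.m - n)) ?_ ((Nat.div_le_self _ _).trans_lt hzv) ?_
    · simp [hc.cT]
      rw [Nat.div_div_eq_div_mul, ← pow_succ, show P.m - (n + 1) + 1 = P.m - n by omega]
    · refine RunA.sq_set n (by simp) (by omega) (RunA.sq_nil.cast ?_)
      funext q; cases q <;> simp
  · rw [Nat.sub_self, pow_zero, Nat.div_one, dlt, range_zero, prod_empty, mul_one, ← hC]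
    funext q; cases q <;> simp
  · refine RunA.sq_set 0 (by simp) (by omega) (RunA.sq_nil.cast ?_)
    rw [Nat.sub_zero, ← kap]
    funext q; cases q <;> simp [hvz, hvi]

theorem pow_inv {p : ℕ} [Fact p.Prime] {C : ZMod p} (hC : C ≠ 0) : C ^ (p - 2) = C⁻¹ := by
  have hp2 := (Fact.out : p.Prime).two_le
  rw [eq_comm, inv_eq_iff_eq_inv, ← one_div, eq_div_iff (pow_ne_zero _ hC), ← pow_succ',
    show p - 2 + 1 = p - 1 by omega]
  exact ZMod.pow_card_sub_one_eq_one hC

theorem run_invK (hP : PB P A) {s : Rg → ℕ} (hc : Cst P s) (hiv : s .iv = 0) (he : s .e2 = 0)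
    {C : ZMod P.p} (hC : s .c = C.val) (hC0 : C ≠ 0) :
    RunA X cc A body 0 invK s (upd s .c (C⁻¹).val) := by
  have := hP.fact
  have hp := hP.hcb2
  have hA := hP.hA1
  have hp2 := hP.prime.two_le
  refine RunA.sq_set 1 rfl (by omega) (RunA.sq_set (P.p - 2) (by simp [hc.cp]) (by omega) ?_)
  refine RunA.sq_cons (RunA.loop .iv _ (fun n => upd (upd s .e2 (C ^ (P.p - 2 - n)).val) .iv n)
    (by simp) (P.p - 2) (fun n hn => ?_) ?_ rfl) ?_
  · refine RunA.sq_set (C ^ (P.p - 2 - n)).val ?_ ((ZMod.val_lt _).trans (by omega)) ?_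
    · simp [hc.cp, hC]
      rw [← ZMod.val_mul, ← pow_succ, show P.p - 2 - (n + 1) + 1 = P.p - 2 - n by omega]
    · refine RunA.sq_set n (by simp) (by omega) (RunA.sq_nil.cast ?_)
      funext q; cases q <;> simp
  · rw [Nat.sub_self, pow_zero, ZMod.val_one_eq_one_mod, Nat.mod_eq_of_lt (by omega : 1 < P.p)]
  · have h1 : C ^ (P.p - 2 - 0) = C⁻¹ := by rw [Nat.sub_zero]; exact pow_inv hC0
    rw [h1]
    refine RunA.sq_set (C⁻¹).val (by simp) ((ZMod.val_lt _).trans (by omega)) (RunA.sq_set 0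
      (by simp) (by omega) (RunA.sq_nil.cast ?_))
    funext q; cases q <;> simp [hiv, he]

theorem run_swp (hP : PB P A) {s : Rg → ℕ} {k : Rg} (hk : k = .R1 ∨ k = .R2)
    {V0 V : ℕ → ZMod P.p} (h0 : s .R0 = encZ P.m V0) (hV : s k = encZ P.m V) (he : s .e2 = 0) :
    RunA X cc A body 0 (swp k) s (upd (upd s .R0 (encZ P.m V)) k (encZ P.m V0)) := by
  have hA := hP.enc_lt V
  have hA' := hP.enc_lt V0
  rcases hk with rfl | rfl
  · refine RunA.sq_set (encZ P.m V0) (by simp [h0]) hA' (RunA.sq_set (encZ P.m V) (by simp [hV]) hA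
      (RunA.sq_set (encZ P.m V0) (by simp) hA' (RunA.sq_set 0 (by simp) (by omega)
      (RunA.sq_nil.cast ?_))))
    funext q; cases q <;> simp [he]
  · refine RunA.sq_set (encZ P.m V0) (by simp [h0]) hA' (RunA.sq_set (encZ P.m V) (by simp [hV]) hA
      (RunA.sq_set (encZ P.m V0) (by simp) hA' (RunA.sq_set 0 (by simp) (by omega)
      (RunA.sq_nil.cast ?_))))
    funext q; cases q <;> simp [he]

theorem run_invC (hP : PB P A) {s : Rg → ℕ} (hc : Cst P s) (hvz : s .vz = 0) (hvi : s .vi = 0)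
    (hiv : s .iv = 0) (hk2 : s .k2 = 0) {V : ℕ → ZMod P.p} (hV : s .R0 = encZ P.m V) {o : ℕ}
    (ho : s .om = o) (ho1 : 0 < o) (ho2 : o < P.p) :
    RunA X cc A body 0 invC s (upd s .R0 (encZ P.m fun i => -((o : ZMod P.p)⁻¹ * V i))) := by
  have := hP.fact
  have hp := hP.hcb2
  have hA := hP.hA1
  have hA4 := hP.hA4
  have hp2 := hP.prime.two_le
  have hAp : (P.p - 1) * (o ^ (P.p - 2) % P.p) ≤ P.p * P.p := Nat.mul_le_mul (by omega)
    (Nat.mod_lt _ (by omega)).le
  refine RunA.sq_set 1 rfl (by omega) (RunA.sq_set (P.p - 2) (by simp [hc.cp]) (by omega) ?_)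
  refine RunA.sq_cons (RunA.loop .k2 _ (fun n => upd (upd s .iv (o ^ (P.p - 2 - n) % P.p)) .k2 n)
    (by simp) (P.p - 2) (fun n hn => ?_) ?_ rfl) ?_
  · refine RunA.sq_set (o ^ (P.p - 2 - n) % P.p) ?_ ((Nat.mod_lt _ (by omega)).trans (by omega)) ?_
    · simp [hc.cp, ho]
      rw [← pow_succ, show P.p - 2 - (n + 1) + 1 = P.p - 2 - n by omega]
    · refine RunA.sq_set n (by simp) (by omega) (RunA.sq_nil.cast ?_)
      funext q; cases q <;> simp
  · rw [Nat.sub_self, pow_zero, Nat.mod_eq_of_lt (by omega : 1 < P.p)]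
  · refine RunA.sq_cons (run_vec hP (V := V) (((hc.upd (q := .iv) (by decide) _).upd (q := .k2)
      (by decide) _)) (by simp [hvz]) (by simp [hvi]) (by simp [hV])
      ((P.p - 1) * (o ^ (P.p - 2) % P.p)) 0 0 (fun R z i => by simp [hc.cp]) (fun R z i => by simp)
      (by simp) (by omega)) (RunA.sq_set 0 (by simp) (by omega) (RunA.sq_nil.cast ?_))
    have h1 : ∀ i, (((P.p - 1) * (o ^ (P.p - 2) % P.p) : ℕ) : ZMod P.p) * V i + ((0 : ℕ) : ZMod P.p) *
        dg P.p P.T 0 i = -((o : ZMod P.p)⁻¹ * V i) := by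
      intro i
      have h2 : (o : ZMod P.p) ≠ 0 := by
        intro h3
        rw [ZMod.natCast_eq_zero_iff] at h3
        exact absurd (Nat.le_of_dvd ho1 h3) (by omega)
      have h4 : (o : ZMod P.p) ^ (P.p - 2) = (o : ZMod P.p)⁻¹ := pow_inv h2
      rw [Nat.cast_zero, zero_mul, add_zero, Nat.cast_mul, ZMod.natCast_mod, Nat.cast_pow, h4,
        Nat.cast_sub (by omega), ZMod.natCast_self]
      ring
    simp only [h1]
    funext q; cases q <;> simp [hiv, hk2]

end

end Pool.Agent.Lib.MP_9277c3_lc.CL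
end

section
/-!
# Correctness of the program for the transition function (short vectors)
-/
namespace Pool.Agent.Lib.MP_9277c3_lc.CL

open Finset CM

/-- The context of the proof: the procedure for the lower level works. -/
structure OC {α : Type} (X : List α) (cc : Cell α → ℕ) (A : ℕ) (body : Pr → Prg) (P : Par) (S : Sys)
    (E : SysE) (O : ℕ → ℕ) (l K F : ℕ) : Prop where
  hP : PB P A
  hI : Impl X cc S P.n E
  hC : Sys.Closed S P.N
  hr : ∀ v, S.nx v + 1 < P.N
  htag : ∀ v, S.tag v ≤ 2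
  hO : ∀ v, v < P.N → O v < P.N
  hl : l + 1 < A
  ok : ∀ s : Rg → ℕ, Gd P s → s .lev = l → s .a < P.N → (s .S + 1) * F ≤ A →
    RunA X cc A body K (Stmt.call Pr.small) s (upd s .res (O (s .a)))

section

variable {α : Type} {X : List α} {cc : Cell α → ℕ} {A : ℕ} {body : Pr → Prg} {P : Par} {S : Sys}
  {E : SysE} {O : ℕ → ℕ} {l K F : ℕ}

theorem PB.Q_pos (hP : PB P A) : 1 ≤ P.Q := by
  have h1 := hP.h4
  have h3 : 1 ≤ P.N ^ 5 := Nat.one_le_pow _ _ (by have := hP.hN; omega)
  omega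

theorem PB.N_lt (hP : PB P A) : P.N < P.cb := by
  have h1 := hP.h4
  have h2 := hP.hcb1
  have h3 : P.N ^ 1 ≤ P.N ^ 5 := Nat.pow_le_pow_right (by have := hP.hN; omega) (by norm_num)
  rw [pow_one] at h3
  omega

theorem run_callO (h : OC X cc A body P S E O l K F) {s : Rg → ℕ} (hg : Gd P s)
    (hlev : s .lev = l + 1) (ha : s .a < P.N) (hS : (s .S + 1) * F ≤ A) :
    RunA X cc A body K callO s (upd s .res (O (s .a))) := by
  have hl := h.hl
  refine RunA.sq_set l (by simp [hlev]) (by omega) ?_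
  refine RunA.sq_cons (h.ok (upd s .lev l) (hg.upd5 (by decide) _) (by simp) (by simpa using ha)
    (by simpa using hS)) ?_
  refine RunA.sq_set (l + 1) (by simp) (by omega) (RunA.sq_nil.cast ?_)
  funext q; cases q <;> simp [hlev]

theorem run_stepC (h : OC X cc A body P S E O l K F) {s : Rg → ℕ} (hg : Gd P s)
    (hlev : s .lev = l + 1) (w : ℕ) (hwv : s .w = w) (hw : w < P.N) (ha : s .a = 0)
    (hres : s .res = 0) (hS : (s .S + 1) * F ≤ A) :
    RunA X cc A body K (stepC E) s (upd (upd (upd s .w (S.nxt O w)) .cd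
      ((open Classical in if S.pend O w then w + 1 else s .cd))) .e 0) := by
  subst hwv
  have hNb := h.hP.N_lt
  have hbA := h.hP.hA1
  have hb4 := h.hP.hcb1
  have hb5 := h.hP.Q_pos
  have htag := h.htag (s .w)
  have hcn : s .cn = P.n := hg.cst.cn
  have hnx := h.hr (s .w)
  refine RunA.sq_set (S.tag (s .w)) (by simp [h.hI.tag, hcn]) (by omega) ?_
  by_cases h0 : S.tag (s .w) = 0
  · refine RunA.sq_cons (RunA.iteF _ _ _ _ _ _ (by simp [h0]) (RunA.skip _ _)) ?_
    refine RunA.sq_set 0 (by simp) (by omega) (RunA.sq_nil.cast ?_)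
    funext q; cases q <;> simp [Sys.nxt, Sys.pend, h0]
  · by_cases h1 : S.tag (s .w) = 1
    · refine RunA.sq_cons (RunA.iteT _ _ _ _ _ _ (by simp [h0]) (RunA.sq_set 0 (by simp [h1])
        (by omega) (RunA.sq_cons (RunA.iteF _ _ _ _ _ _ (by simp) (RunA.set' (S.nx (s .w))
          (by simp [h.hI.nx, hcn]) (by omega))) RunA.sq_nil))) ?_
      refine RunA.sq_set 0 (by simp) (by omega) (RunA.sq_nil.cast ?_)
      funext q; cases q <;> simp [Sys.nxt, Sys.pend, h1]
    · refine RunA.sq_cons (RunA.iteT _ _ _ _ _ _ (by simp [h0]) (RunA.sq_set 1 (by simp; omega)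
        (by omega) (RunA.sq_cons (RunA.iteT _ _ _ _ _ _ (by simp) (RunA.sq_set (S.nx (s .w))
          (by simp [h.hI.nx, hcn]) (by omega) (RunA.sq_cons (run_callO h (((hg.upd (q := .e)
            (Or.inr rfl) (by omega)).upd (q := .e) (Or.inr rfl) (by omega)).upd (q := .a)
            (Or.inr rfl) (by omega)) (by simp [hlev]) (by simp; omega) (by simpa using hS))
            (RunA.sq_cons (t := upd (upd (upd (upd s .e 1) .a (S.nx (s .w))) .w (S.nxt O (s .w)))
              .cd (open Classical in if S.pend O (s .w) then s .w + 1 else s .cd)) ?_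
              (RunA.sq_set 0 (by simp) (by omega) RunA.sq_nil))))) RunA.sq_nil)))
        (RunA.sq_set 0 (by simp) (by omega) (RunA.sq_nil.cast ?_))
      · by_cases h2 : O (S.nx (s .w)) = 0
        · refine RunA.iteF _ _ _ _ _ _ (by simp [h2]) (RunA.sq_set (s .w + 1) (by simp) (by omega)
            (RunA.sq_set (S.nx (s .w)) (by simp) (by omega) (RunA.sq_nil.cast ?_)))
          funext q; cases q <;> simp [Sys.nxt, Sys.pend, h0, h1, h2, hres]
        · have h3 := h.hC.kont (s .w) (O (S.nx (s .w)) - 1)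
          refine RunA.iteT _ _ _ _ _ _ (by simp [h2]) (RunA.sq_set
            (S.kont (s .w) (O (S.nx (s .w)) - 1)) (by simp [h.hI.kont, hcn]) (by omega)
            (RunA.sq_set 0 (by simp) (by omega) (RunA.sq_nil.cast ?_)))
          funext q; cases q <;> simp [Sys.nxt, Sys.pend, h0, h1, h2, hres]
      · funext q; cases q <;> simp [ha]

theorem run_scanC (h : OC X cc A body P S E O l K F) {s : Rg → ℕ} (hg : Gd P s)
    (hlev : s .lev = l + 1) (ha : s .a = 0) (hres : s .res = 0) (hk : s .k2 = 0) (he : s .e = 0)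
    (htg : s .tg ≤ P.N) (hS : (s .S + 1) * F ≤ A) :
    RunA X cc A body K (scanC E) s
      (upd (upd s .w ((S.scanF O (s .tg))^[P.N] ((s .x - 1) % P.N, 0)).1) .cd
        ((S.scanF O (s .tg))^[P.N] ((s .x - 1) % P.N, 0)).2) := by
  have hNb := h.hP.N_lt
  have hbA := h.hP.hA1
  have hN := h.hP.hN
  have hcN : s .cN = P.N := hg.cst.cN
  set it := fun k => (S.scanF O (s .tg))^[k] ((s .x - 1) % P.N, 0) with hit
  have hlt : ∀ k, (it k).1 < P.N ∧ (it k).2 ≤ P.N := fun k =>
    scan_lt h.hC (s .tg) ⟨Nat.mod_lt _ (by omega), Nat.zero_le _⟩ k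
  have hu : (s .x - 1) % P.N < P.N := Nat.mod_lt _ (by omega)
  refine RunA.sq_set ((s .x - 1) % P.N) (by simp [fu, hcN]) (by omega) ?_
  refine RunA.sq_set 0 (by simp) (by omega) ?_
  refine RunA.sq_set P.N (by simp [hcN]) (by omega) ?_
  refine RunA.sq_cons (RunA.loop .k2 _ (fun n => upd (upd (upd s .w (it (P.N - n)).1) .cd
    (it (P.N - n)).2) .k2 n) (by simp) P.N (fun n hn => ?_) ?_ rfl) ?_
  · obtain ⟨h1, h2⟩ := hlt (P.N - (n + 1))
    have hit' : it (P.N - n) = S.scanF O (s .tg) (it (P.N - (n + 1))) := by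
      rw [hit]
      simp only
      rw [show P.N - n = P.N - (n + 1) + 1 by omega, Function.iterate_succ_apply']
    refine RunA.sq_set (((it (P.N - (n + 1))).1 - s .tg) + (s .tg - (it (P.N - (n + 1))).1))
      (by simp) (by omega) ?_
    by_cases hc : (it (P.N - (n + 1))).1 = s .tg
    · refine RunA.sq_cons (RunA.iteF _ _ _ _ _ _ (by simp [hc]) (RunA.skip _ _)) ?_
      refine RunA.sq_set n (by simp) (by omega) (RunA.sq_nil.cast ?_)
      rw [hit', Sys.scanF, if_pos (Or.inl hc), hc]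
      funext q; cases q <;> simp [he]
    · refine RunA.sq_cons (RunA.iteT _ _ _ _ _ _ (by simp; omega) (run_stepC h ?_ (by simp [hlev])
        (it (P.N - (n + 1))).1 (by simp) h1 (by simp [ha]) (by simp [hres]) (by simpa using hS))) ?_
      · exact (((hg.upd (q := .w) (Or.inr rfl) (by omega)).upd (q := .cd) (Or.inr rfl)
          (by omega)).upd (q := .k2) (Or.inr rfl) (by omega)).upd (q := .e) (Or.inr rfl) (by omega)
      · refine RunA.sq_set n (by simp) (by omega) (RunA.sq_nil.cast ?_)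
        rw [hit', Sys.scanF]
        by_cases h0 : S.tag (it (P.N - (n + 1))).1 = 0
        · rw [if_pos (Or.inr h0)]
          funext q; cases q <;> simp [he, Sys.nxt, Sys.pend, h0]
        · rw [if_neg (not_or.2 ⟨hc, h0⟩)]
          funext q; cases q <;> simp [he]
  · rw [Nat.sub_self, hit]
    rfl
  · refine RunA.sq_nil.cast ?_
    rw [Nat.sub_zero]
    funext q; cases q <;> simp [hk, hit]

/-- The program for the way up, as a function on triples. -/
theorem run_ascC (h : OC X cc A body P S E O l K F) {s : Rg → ℕ} (hg : Gd P s)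
    (hlev : s .lev = l + 1) (ha : s .a = 0) (hres : s .res = 0) (hk : s .k2 = 0) (he : s .e = 0)
    (hw : s .w = 0) (hcd : s .cd = 0) (htg : s .tg < P.N) (hr : s .r < P.N) (hst : s .st = 1)
    (hS : (s .S + 1) * F ≤ A) :
    RunA X cc A body K (ascC E) s
      (upd (upd (upd s .tg (S.ascF O ((s .x - 1) % P.N) P.N (s .tg, s .r, 1)).1) .r
        (S.ascF O ((s .x - 1) % P.N) P.N (s .tg, s .r, 1)).2.1) .st
        (S.ascF O ((s .x - 1) % P.N) P.N (s .tg, s .r, 1)).2.2) := by
  have hNb := h.hP.N_lt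
  have hbA := h.hP.hA1
  have hb4 := h.hP.hcb1
  have hb5 := h.hP.Q_pos
  have hN := h.hP.hN
  have hcn : s .cn = P.n := hg.cst.cn
  have hsc := run_scanC h hg hlev ha hres hk he (by omega) hS
  have hlt := scan_lt h.hC (O := O) (s .tg) (q := ((s .x - 1) % P.N, 0))
    ⟨Nat.mod_lt _ (by omega), Nat.zero_le _⟩ P.N
  refine RunA.sq_cons hsc ?_
  unfold Sys.ascF
  simp only [ne_eq, not_true_eq_false, if_false]
  generalize (S.scanF O (s .tg))^[P.N] ((s .x - 1) % P.N, 0) = q at *
  by_cases h0 : q.2 = 0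
  · refine RunA.sq_cons (RunA.iteF _ _ _ _ _ _ (by simp [h0]) (RunA.sq_set 0 (by simp) (by omega)
      (RunA.sq_set 2 (by simp) (by omega) RunA.sq_nil))) ?_
    refine RunA.sq_set 0 (by simp) (by omega) (RunA.sq_set 0 (by simp) (by omega)
      (RunA.sq_nil.cast ?_))
    rw [if_pos h0]
    funext q; cases q <;> simp [hw, hcd]
  · have hkt := h.hC.kont (q.2 - 1) (s .r)
    refine RunA.sq_cons (RunA.iteT _ _ _ _ _ _ (by simp [h0]) (RunA.sq_set (q.2 - 1) (by simp)
      (by omega) (RunA.sq_set (S.kont (q.2 - 1) (s .r)) (by simp [h.hI.kont, hcn]) (by omega)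
      (RunA.sq_cons (run_callO h ?_ (by simp [hlev]) (by simp; omega) (by simpa using hS))
      (RunA.sq_set 0 (by simp) (by omega) (RunA.sq_cons (t := upd (upd (upd (upd (upd s .w q.1) .cd
        q.2) .tg (q.2 - 1)) .r (if O (S.kont (q.2 - 1) (s .r)) = 0 then s .r else
          O (S.kont (q.2 - 1) (s .r)) - 1)) .st (if O (S.kont (q.2 - 1) (s .r)) = 0 then 3 else 1))
        ?_ RunA.sq_nil)))))) ?_
    · exact (((hg.upd (q := .w) (Or.inr rfl) (by omega)).upd (q := .cd) (Or.inr rfl)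
        (by omega)).upd (q := .tg) (Or.inr rfl) (by omega)).upd (q := .a) (Or.inr rfl) (by omega)
    · by_cases h1 : O (S.kont (q.2 - 1) (s .r)) = 0
      · refine RunA.iteF _ _ _ _ _ _ (by simp [h1]) ((RunA.set' 3 (by simp) (by omega)).cast ?_)
        funext q; cases q <;> simp [h1, ha, hres]
      · have h2 := h.hO _ hkt
        refine RunA.iteT _ _ _ _ _ _ (by simp [h1]) (RunA.sq_set
          (O (S.kont (q.2 - 1) (s .r)) - 1) (by simp) (by omega) (RunA.sq_set 0 (by simp) (by omega)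
          (RunA.sq_nil.cast ?_)))
        funext q; cases q <;> simp [h1, ha, hres, hst]
    · refine RunA.sq_set 0 (by simp) (by omega) (RunA.sq_set 0 (by simp) (by omega)
        (RunA.sq_nil.cast ?_))
      rw [if_neg h0]
      by_cases h1 : O (S.kont (q.2 - 1) (s .r)) = 0
      · rw [if_pos h1]
        funext q; cases q <;> simp [hw, hcd, h1]
      · rw [if_neg h1]
        funext q; cases q <;> simp [hw, hcd, h1]

theorem run_ascL (h : OC X cc A body P S E O l K F) {s : Rg → ℕ} (hg : Gd P s)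
    (hlev : s .lev = l + 1) (ha : s .a = 0) (hres : s .res = 0) (hk : s .k2 = 0) (he : s .e = 0)
    (hw : s .w = 0) (hcd : s .cd = 0) (hk1 : s .k1 = 0) (htg : s .tg < P.N) (hr : s .r < P.N)
    (hst : s .st < 4) (hS : (s .S + 1) * F ≤ A) :
    RunA X cc A body K (ascL E) s
      (upd (upd (upd s .tg ((S.ascF O ((s .x - 1) % P.N) P.N)^[P.N] (s .tg, s .r, s .st)).1) .r
        ((S.ascF O ((s .x - 1) % P.N) P.N)^[P.N] (s .tg, s .r, s .st)).2.1) .st
        ((S.ascF O ((s .x - 1) % P.N) P.N)^[P.N] (s .tg, s .r, s .st)).2.2) := by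
  have hNb := h.hP.N_lt
  have hbA := h.hP.hA1
  have hb4 := h.hP.hcb1
  have hb5 := h.hP.Q_pos
  have hN := h.hP.hN
  have hcN : s .cN = P.N := hg.cst.cN
  set it := fun k => (S.ascF O ((s .x - 1) % P.N) P.N)^[k] (s .tg, s .r, s .st) with hit
  have hlt : ∀ k, (it k).1 < P.N ∧ (it k).2.1 < P.N ∧ (it k).2.2 < 4 := fun k =>
    asc_lt' h.hC h.hO (Nat.mod_lt _ (by omega)) ⟨htg, hr, hst⟩ k
  refine RunA.sq_set P.N (by simp [hcN]) (by omega) ?_
  refine RunA.sq_cons (RunA.loop .k1 _ (fun n => upd (upd (upd (upd s .tg (it (P.N - n)).1) .r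
    (it (P.N - n)).2.1) .st (it (P.N - n)).2.2) .k1 n) (by simp) P.N (fun n hn => ?_) ?_ rfl) ?_
  · obtain ⟨h1, h2, h3⟩ := hlt (P.N - (n + 1))
    have hit' : it (P.N - n) = S.ascF O ((s .x - 1) % P.N) P.N (it (P.N - (n + 1))) := by
      rw [hit]
      simp only
      rw [show P.N - n = P.N - (n + 1) + 1 by omega, Function.iterate_succ_apply']
    rw [hit']
    generalize it (P.N - (n + 1)) = q at *
    by_cases hc : q.2.2 = 1
    · have hq : q = (q.1, q.2.1, 1) := by rw [← hc]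
      refine RunA.sq_set 1 (by simp [isE, hc]) (by omega) (RunA.sq_cons (RunA.iteT _ _ _ _ _ _
        (by simp) (RunA.sq_set 0 (by simp) (by omega) (RunA.sq_cons (run_ascC h ?_ (by simp [hlev])
        (by simp [ha]) (by simp [hres]) (by simp [hk]) (by simp) (by simp [hw]) (by simp [hcd])
        (by simp [h1]) (by simp [h2]) (by simp [hc]) (by simpa using hS)) RunA.sq_nil)))
        (RunA.sq_set n (by simp) (by omega) (RunA.sq_nil.cast ?_)))
      · exact (((((hg.upd (q := .tg) (Or.inr rfl) (by omega)).upd (q := .r) (Or.inr rfl)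
          (by omega)).upd (q := .st) (Or.inr rfl) (by omega)).upd (q := .k1) (Or.inr rfl)
          (by omega)).upd (q := .e) (Or.inr rfl) (by omega)).upd (q := .e) (Or.inr rfl) (by omega)
      · rw [hq]
        funext q; cases q <;> simp [he]
    · have hz : (1 : ℕ) - (q.2.2 - 1 + (1 - q.2.2)) = 0 := by omega
      refine RunA.sq_set 0 (by simp [isE, hz]) (by omega) (RunA.sq_cons (RunA.iteF _ _ _ _ _ _
        (by simp) (RunA.skip _ _)) (RunA.sq_set n (by simp) (by omega) (RunA.sq_nil.cast ?_)))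
      rw [Sys.ascF, if_pos hc]
      funext q; cases q <;> simp [he]
  · rw [Nat.sub_self, hit]
    simp only [Function.iterate_zero, id_eq]
    funext q; cases q <;> simp
  · refine RunA.sq_nil.cast ?_
    rw [Nat.sub_zero]
    funext q; cases q <;> simp [hk1, hit]

theorem run_startC (h : OC X cc A body P S E O l K F) {s : Rg → ℕ} (hg : Gd P s)
    (hlev : s .lev = l + 1) (ha : s .a = 0) (hres : s .res = 0) (hk : s .k2 = 0)
    (hw : s .w = 0) (hcd : s .cd = 0) (htg : s .tg = 0) (hr : s .r = 0) (hst : s .st = 0)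
    (he : s .e = (upk P.N (s .x - 1)).md) (he0 : s .e ≠ 0) (hS : (s .S + 1) * F ≤ A) :
    RunA X cc A body K (startC E) s
      (upd (upd (upd (upd s .e 0) .tg (S.start O P.N (upk P.N (s .x - 1))).1) .r
        (S.start O P.N (upk P.N (s .x - 1))).2.1) .st
        (S.start O P.N (upk P.N (s .x - 1))).2.2) := by
  have hNb := h.hP.N_lt
  have hbA := h.hP.hA1
  have hb4 := h.hP.hcb1
  have hb5 := h.hP.Q_pos
  have hN := h.hP.hN
  have hcN : s .cN = P.N := hg.cst.cN
  have hcn : s .cn = P.n := hg.cst.cn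
  have hesm : s .e < P.cb := hg.sm _ (Or.inr rfl)
  by_cases h1 : s .e = 1
  · -- the way down
    have hmd : (upk P.N (s .x - 1)).md = 1 := by rw [← he, h1]
    have hu : (s .x - 1) % P.N < P.N := Nat.mod_lt _ (by omega)
    have hnode := scan_none h.hC (O := O) hu P.N
    have hlt := scan_lt h.hC (O := O) P.N (q := ((s .x - 1) % P.N, 0)) ⟨hu, Nat.zero_le _⟩ P.N
    unfold Sys.start
    rw [if_pos hmd]
    have hu' : (upk P.N (s .x - 1)).u = (s .x - 1) % P.N := rfl
    rw [hu', ← hnode]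
    refine RunA.sq_set 0 (by simp [h1]) (by omega) (RunA.sq_cons (RunA.iteF _ _ _ _ _ _ (by simp)
      (RunA.sq_set P.N (by simp [hcN]) (by omega) (RunA.sq_cons (run_scanC h
        ((hg.upd (q := .e) (Or.inr rfl) (by omega)).upd (q := .tg) (Or.inr rfl) (by omega))
        (by simp [hlev]) (by simp [ha]) (by simp [hres]) (by simp [hk]) (by simp) (by simp)
        (by simpa using hS)) (RunA.sq_set 0 (by simp) (by omega) ?_)))) RunA.sq_nil)
    simp only [upd_self, upd_ne, ne_eq, reduceCtorEq, not_false_eq_true]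
    generalize (S.scanF O P.N)^[P.N] ((s .x - 1) % P.N, 0) = q at *
    have htag := h.htag q.1
    have hnx := h.hr q.1
    refine RunA.sq_set (S.tag q.1) (by simp [h.hI.tag, hcn]) (by omega) ?_
    by_cases h0 : S.tag q.1 = 0
    · rw [if_pos h0]
      refine RunA.sq_cons (RunA.iteF _ _ _ _ _ _ (by simp [h0]) (RunA.sq_set q.1 (by simp)
        (by omega) (RunA.sq_set (S.nx q.1) (by simp [h.hI.nx, hcn]) (by omega)
        (RunA.sq_set 1 (by simp) (by omega) RunA.sq_nil)))) (RunA.sq_set 0 (by simp) (by omega)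
        (RunA.sq_nil.cast ?_))
      funext q; cases q <;> simp [h0, hw, hcd]
    · rw [if_neg h0]
      refine RunA.sq_cons (RunA.iteT _ _ _ _ _ _ (by simp [h0]) (RunA.sq_set 0 (by simp)
        (by omega) (RunA.sq_set 0 (by simp) (by omega) RunA.sq_nil))) (RunA.sq_set 0 (by simp)
        (by omega) (RunA.sq_nil.cast ?_))
      funext q; cases q <;> simp [hw, hcd, hr, hst]
  · have h2 : (s .x - 1) / P.N % P.N < P.N := Nat.mod_lt _ (by omega)
    have h3 : (s .x - 1) / P.N / P.N % P.N < P.N := Nat.mod_lt _ (by omega)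
    unfold Sys.start
    rw [if_neg (by rw [← he]; exact h1)]
    refine RunA.sq_set (s .e - 1) (by simp) (by omega) (RunA.sq_cons (RunA.iteT _ _ _ _ _ _
      (by simp; omega) (RunA.sq_set 0 (by simp) (by omega) (RunA.sq_set ((s .x - 1) / P.N % P.N)
      (by simp [ftg, hcN]) (by omega) (RunA.sq_set ((s .x - 1) / P.N / P.N % P.N)
      (by simp [fr, hcN]) (by omega) (RunA.sq_set 1 (by simp) (by omega) RunA.sq_nil)))))
      (RunA.sq_nil.cast ?_))
    funext q; cases q <;> simp [upk]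

theorem run_finC (h : OC X cc A body P S E O l K F) {s : Rg → ℕ} (hg : Gd P s)
    (hz : s .z = 0) (ht1 : 1 ≤ s .t) (ht2 : s .t ≤ P.T) (htg : s .tg < P.N) (hr : s .r < P.N) :
    ∃ e, RunA X cc A body K (finC E) s (upd (upd s .e e) .z (pk P.N (S.fin (s .t - 1)
      (upk P.N (s .x - 1)) (upk P.N (s .y - 1)) (s .tg, s .r, s .st)))) := by
  have hNb := h.hP.N_lt
  have hbA := h.hP.hA1
  have hb4 := h.hP.hcb1
  have hb5 := h.hP.Q_pos
  have hA3 := h.hP.hA3
  have hN := h.hP.hN
  have hcN : s .cN = P.N := hg.cst.cN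
  have hcn : s .cn = P.n := hg.cst.cn
  have hT := h.hP.hT
  have hmod : ∀ n, n % P.N < P.N := fun n => Nat.mod_lt _ (by omega)
  unfold Sys.fin
  by_cases h2 : s .st = 2
  · have hpar := hmod ((s .x - 1) / P.N / P.N / P.N / P.N)
    simp only [h2, if_true]
    by_cases hp0 : (upk P.N (s .x - 1)).par = 0
    · have hp0' : (s .x - 1) / P.N / P.N / P.N / P.N % P.N = 0 := hp0
      have hle := pk_le hN (h := ⟨0, 0, s .r + 1, 0, 0, 0⟩) (by simp) (by simp) (by simpa using hr)
        (by simp) (by simp) (by simp)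
      refine ⟨0, RunA.sq_set 1 (by simp [isE, h2]) (by omega) (RunA.sq_cons (RunA.iteT _ _ _ _ _ _
        (by simp) (RunA.sq_set 0 (by simp [fpar, hcN, hp0']) (by omega) (RunA.sq_cons
        (RunA.iteF _ _ _ _ _ _ (by simp) (RunA.set' (pk P.N ⟨0, 0, s .r + 1, 0, 0, 0⟩)
        (by simp [pkE, pk, hcN]) (by omega))) RunA.sq_nil))) (RunA.sq_nil.cast ?_))⟩
      rw [if_pos hp0]
      funext q; cases q <;> simp
    · have hp0' : (s .x - 1) / P.N / P.N / P.N / P.N % P.N ≠ 0 := hp0
      have hle := pk_le hN (h := ⟨(upk P.N (s .y - 1)).u, (upk P.N (s .x - 1)).ptgt, s .r,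
        (upk P.N (s .y - 1)).ptgt, 2, (upk P.N (s .y - 1)).par⟩) (hmod _).le (hmod _).le hr.le
        (hmod _).le (hmod _).le (by simp)
      refine ⟨(s .x - 1) / P.N / P.N / P.N / P.N % P.N, RunA.sq_set 1 (by simp [isE, h2]) (by omega)
        (RunA.sq_cons (RunA.iteT _ _ _ _ _ _
        (by simp) (RunA.sq_set ((s .x - 1) / P.N / P.N / P.N / P.N % P.N) (by simp [fpar, hcN])
        (by omega) (RunA.sq_cons
        (RunA.iteT _ _ _ _ _ _ (by simpa using hp0') (RunA.set' (pk P.N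
        ⟨(upk P.N (s .y - 1)).u, (upk P.N (s .x - 1)).ptgt, s .r,
        (upk P.N (s .y - 1)).ptgt, 2, (upk P.N (s .y - 1)).par⟩)
        (by simp [pkE, pk, hcN, upk, fu, fpt, fpar]) (by omega))) RunA.sq_nil)))
        (RunA.sq_nil.cast ?_))⟩
      rw [if_neg hp0]
      funext q; cases q <;> simp
  · have hz2 : (1 : ℕ) - (s .st - 2 + (2 - s .st)) = 0 := by omega
    by_cases h3 : s .st = 3
    · have hkt := h.hC.kont (s .tg) (s .r)
      have hle := pk_le hN (h := ⟨S.kont (s .tg) (s .r), 0, 0, s .tg, 1, s .t - 1 + 1⟩) hkt.le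
        (by simp) (by simp) htg.le (by simp only; omega) (by simp)
      refine ⟨1, RunA.sq_set 0 (by simp [isE, hz2]) (by omega) (RunA.sq_cons (RunA.iteF _ _ _ _ _ _
        (by simp) (RunA.sq_set 1 (by simp [isE, h3]) (by omega) (RunA.sq_cons
        (RunA.iteT _ _ _ _ _ _ (by simp) (RunA.set' (pk P.N ⟨S.kont (s .tg) (s .r), 0, 0, s .tg, 1,
        s .t - 1 + 1⟩) ?_ (by omega))) RunA.sq_nil))) (RunA.sq_nil.cast ?_))⟩
      · simp [pkE, pk, hcN, h.hI.kont, hcn, Nat.sub_add_cancel ht1]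
      · simp only [h3]
        funext q; cases q <;> simp
    · have hz3 : (1 : ℕ) - (s .st - 3 + (3 - s .st)) = 0 := by omega
      refine ⟨0, RunA.sq_set 0 (by simp [isE, hz2]) (by omega) (RunA.sq_cons (RunA.iteF _ _ _ _ _ _
        (by simp) (RunA.sq_set 0 (by simp [isE, hz3]) (by omega) (RunA.sq_cons
        (RunA.iteF _ _ _ _ _ _ (by simp) (RunA.set' 0 (by simp) (by omega))) RunA.sq_nil)))
        (RunA.sq_nil.cast ?_))⟩
      simp only [h2, h3, if_false]
      funext q; cases q <;> simp [pk]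

theorem run_gC (h : OC X cc A body P S E O l K F) {s : Rg → ℕ} (hg : Gd P s)
    (hlev : s .lev = l + 1) (ha : s .a = 0) (hres : s .res = 0) (hk : s .k2 = 0) (he : s .e = 0)
    (hw : s .w = 0) (hcd : s .cd = 0) (hk1 : s .k1 = 0) (htg : s .tg = 0) (hr : s .r = 0)
    (hst : s .st = 0) (hx : s .x - 1 < P.Q) (ht1 : 1 ≤ s .t) (ht2 : s .t ≤ P.T)
    (hS : (s .S + 1) * F ≤ A) :
    RunA X cc A body K (gC E) s (upd s .z (pk P.N (S.gH O P.N (s .t - 1)
      (upk P.N (s .x - 1)) (upk P.N (s .y - 1))))) := by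
  have hNb := h.hP.N_lt
  have hbA := h.hP.hA1
  have hb4 := h.hP.hcb1
  have hb5 := h.hP.Q_pos
  have hN := h.hP.hN
  have hcN : s .cN = P.N := hg.cst.cN
  have hz : s .z = 0 := hg.ze _ rfl
  have hmdle : (upk P.N (s .x - 1)).md ≤ s .x - 1 :=
    (Nat.div_le_self _ _).trans ((Nat.div_le_self _ _).trans ((Nat.div_le_self _ _).trans
      ((Nat.div_le_self _ _).trans (Nat.div_le_self _ _))))
  refine RunA.sq_set (upk P.N (s .x - 1)).md (by simp [fmd, upk, hcN]) (by omega) ?_
  by_cases h0 : (upk P.N (s .x - 1)).md = 0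
  · refine RunA.sq_cons (RunA.iteF _ _ _ _ _ _ (by simp [h0]) (RunA.set' (s .x - 1) (by simp)
      (by omega))) (RunA.sq_set 0 (by simp) (by omega) (RunA.sq_set 0 (by simp) (by omega)
      (RunA.sq_set 0 (by simp) (by omega) (RunA.sq_set 0 (by simp) (by omega)
      (RunA.sq_nil.cast ?_)))))
    rw [Sys.gH, if_pos h0, pk_upk (by omega)]
    funext q; cases q <;> simp [he, htg, hr, hst]
  · have hg1 : Gd P (upd s .e (upk P.N (s .x - 1)).md) := hg.upd (Or.inr rfl) (by omega)
    have h1 := run_startC (K := K) h hg1 (by simp [hlev]) (by simp [ha]) (by simp [hres])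
      (by simp [hk]) (by simp [hw]) (by simp [hcd]) (by simp [htg]) (by simp [hr])
      (by simp [hst]) (by simp) (by simpa using h0) (by simpa using hS)
    simp only [upd_ne, ne_eq, reduceCtorEq, not_false_eq_true] at h1
    -- bounds for the start
    have hb : (S.start O P.N (upk P.N (s .x - 1))).1 < P.N ∧
        (S.start O P.N (upk P.N (s .x - 1))).2.1 < P.N ∧
        (S.start O P.N (upk P.N (s .x - 1))).2.2 < 4 := by
      have hnode : ∀ k, S.node O (upk P.N (s .x - 1)).u k < P.N := by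
        intro k
        induction k with
        | zero => exact Nat.mod_lt _ (by omega)
        | succ k ihk => rw [Sys.node_succ]; exact h.hC.nxt ihk
      unfold Sys.start
      split_ifs
      · exact ⟨hnode _, h.hC.nx _, by simp⟩
      · exact ⟨by simp only; omega, by simp only; omega, by simp⟩
      · exact ⟨Nat.mod_lt _ (by omega), Nat.mod_lt _ (by omega), by simp⟩
    rw [Sys.gH, if_neg h0]
    have hu' : (upk P.N (s .x - 1)).u = (s .x - 1) % P.N := rfl
    rw [hu']
    generalize S.start O P.N (upk P.N (s .x - 1)) = q0 at *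
    have hg2 := (((hg1.upd (q := .e) (Or.inr rfl) (v := 0) (by omega)).upd (q := .tg) (Or.inr rfl)
      (v := q0.1) (by omega)).upd (q := .r) (Or.inr rfl) (v := q0.2.1) (by omega)).upd (q := .st)
      (Or.inr rfl) (v := q0.2.2) (by omega)
    have h2 := run_ascL h hg2 (by simp [hlev]) (by simp [ha]) (by simp [hres]) (by simp [hk])
      (by simp) (by simp [hw]) (by simp [hcd]) (by simp [hk1]) (by simpa using hb.1)
      (by simpa using hb.2.1) (by simpa using hb.2.2) (by simpa using hS)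
    simp only [upd_self, upd_ne, ne_eq, reduceCtorEq, not_false_eq_true] at h2
    have hb' := asc_lt' h.hC h.hO (u := (s .x - 1) % P.N) (Nat.mod_lt _ (by omega)) hb P.N
    change ((S.ascF O ((s .x - 1) % P.N) P.N)^[P.N] (q0.1, q0.2.1, q0.2.2)).1 < _ ∧
      ((S.ascF O ((s .x - 1) % P.N) P.N)^[P.N] (q0.1, q0.2.1, q0.2.2)).2.1 < _ ∧
      ((S.ascF O ((s .x - 1) % P.N) P.N)^[P.N] (q0.1, q0.2.1, q0.2.2)).2.2 < _ at hb'
    have hq0 : q0 = (q0.1, q0.2.1, q0.2.2) := rfl
    rw [hq0]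
    generalize (S.ascF O ((s .x - 1) % P.N) P.N)^[P.N] (q0.1, q0.2.1, q0.2.2) = q1 at *
    have hg3 := ((hg2.upd (q := .tg) (Or.inr rfl) (v := q1.1) (by omega)).upd (q := .r) (Or.inr rfl)
      (v := q1.2.1) (by omega)).upd (q := .st) (Or.inr rfl) (v := q1.2.2) (by omega)
    obtain ⟨e, h3⟩ := run_finC (K := K) h hg3 (by simp [hz]) (by simpa using ht1)
      (by simpa using ht2) (by simpa using hb'.1) (by simpa using hb'.2.1)
    simp only [upd_self, upd_ne, ne_eq, reduceCtorEq, not_false_eq_true] at h3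
    refine RunA.sq_cons (RunA.iteT _ _ _ _ _ _ (by simpa using h0) (RunA.sq_cons h1
      (RunA.sq_cons h2 (RunA.sq_cons h3 RunA.sq_nil)))) (RunA.sq_set 0 (by simp) (by omega)
      (RunA.sq_set 0 (by simp) (by omega)
      (RunA.sq_set 0 (by simp) (by omega) (RunA.sq_set 0 (by simp) (by omega)
      (RunA.sq_nil.cast ?_)))))
    funext q; cases q <;> simp [he, htg, hr, hst]

end

end Pool.Agent.Lib.MP_9277c3_lc.CL
end

section
/-!
# Correctness of the recursive computation of the history (short vectors)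
-/
namespace Pool.Agent.Lib.MP_9277c3_lc.CL

open Finset CM

section

variable {α : Type} {X : List α} {cc : Cell α → ℕ} {A : ℕ} {body : Pr → Prg} {P : Par} {S : Sys}
  {E : SysE} {O : ℕ → ℕ} {l K F : ℕ}

theorem gN_lt (h : OC X cc A body P S E O l K F) {x y τ : ℕ} (hx : x < P.Q)
    (hτ : τ ≤ P.T) : gN S O P.N τ x y < A := by
  have hNb := h.hP.N_lt
  have hbA := h.hP.hA1
  have hb4 := h.hP.hcb1
  have hA3 := h.hP.hA3
  have hN := h.hP.hN
  have hT := h.hP.hT
  have hmod : ∀ n, n % P.N < P.N := fun n => Nat.mod_lt _ (by omega)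
  unfold gN Sys.gH
  split_ifs with h0
  · rw [pk_upk (by omega)]
    omega
  · have hb : (S.start O P.N (upk P.N x)).1 < P.N ∧
        (S.start O P.N (upk P.N x)).2.1 < P.N ∧
        (S.start O P.N (upk P.N x)).2.2 < 4 := by
      have hnode : ∀ k, S.node O (upk P.N x).u k < P.N := by
        intro k
        induction k with
        | zero => exact hmod _
        | succ k ihk => rw [Sys.node_succ]; exact h.hC.nxt ihk
      unfold Sys.start
      split_ifs
      · exact ⟨hnode _, h.hC.nx _, by simp⟩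
      · exact ⟨by simp only; omega, by simp only; omega, by simp⟩
      · exact ⟨hmod _, hmod _, by simp⟩
    have hb' := asc_lt' h.hC h.hO (u := (upk P.N x).u) (hmod _) hb P.N
    generalize (S.ascF O (upk P.N x).u P.N)^[P.N] (S.start O P.N (upk P.N x)) = q at *
    unfold Sys.fin
    split_ifs
    · have hle := pk_le hN (h := ⟨0, 0, q.2.1 + 1, 0, 0, 0⟩) (by simp) (by simp) (by simp only; omega)
        (by simp) (by simp) (by simp)
      omega
    · have hle := pk_le hN (h := ⟨(upk P.N y).u, (upk P.N x).ptgt, q.2.1,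
        (upk P.N y).ptgt, 2, (upk P.N y).par⟩) (hmod _).le (hmod _).le (by simp only; omega)
        (hmod _).le (hmod _).le (by simp)
      omega
    · have hkt := h.hC.kont q.1 q.2.1
      have hle := pk_le hN (h := ⟨S.kont q.1 q.2.1, 0, 0, q.1, 1, τ - 1 + 1⟩) hkt.le
        (by simp) (by simp) (by simp only; omega) (by simp only; omega) (by simp)
      omega
    · have hle := pk_le hN (h := ⟨0, 0, 0, 0, 0, 0⟩) (by simp) (by simp) (by simp)
        (by simp) (by simp) (by simp)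
      omega

/-- One pair of states. -/
theorem run_pair (h : OC X cc A body P S E O l K F) {s : Rg → ℕ} (hg : Gd P s)
    (hlev : s .lev = l + 1) (ha : s .a = 0) (hres : s .res = 0) (hk : s .k2 = 0) (he : s .e = 0)
    (hw : s .w = 0) (hcd : s .cd = 0) (hk1 : s .k1 = 0) (htg : s .tg = 0) (hr : s .r = 0)
    (hst : s .st = 0) (hc : s .c = 0) {xv yv : ℕ} (hx : s .x = xv + 1) (hy : s .y = yv + 1)
    (hx2 : xv < P.Q) (hy2 : yv < P.Q) (ht1 : 1 ≤ s .t) (ht2 : s .t ≤ P.T)
    {V U₁ U₂ : ℕ → ZMod P.p} (h0 : s .R0 = encZ P.m V) (h1 : s .R1 = encZ P.m U₁)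
    (h2 : s .R2 = encZ P.m U₂) (hS : (s .S + 1) * F ≤ A) {l' : List Prg} {u : Rg → ℕ}
    (hl : RunA X cc A body K (sq l') (upd s .R0 (encZ P.m (V + fun i =>
      -((kap P.p P.T P.m xv * kap P.p P.T P.m yv)⁻¹ * dlt P.p P.T P.m xv U₁ *
        dlt P.p P.T P.m yv U₂) * (indN P.N (s .t) (s .j - 1) xv : ZMod P.p) *
        dg P.p P.T (gN S O P.N (s .t) xv yv) i))) u) :
    RunA X cc A body K (sq (set .c 1 :: kapC (Exp.var .x - 1) :: kapC (Exp.var .y - 1) :: invK ::
      del (Exp.var .x - 1) .R1 :: del (Exp.var .y - 1) .R2 ::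
      gC E :: vec 1 ((Exp.var .cp - Exp.var .c) * isE ptrE (Exp.var .j - 1)) (Exp.var .z) ::
      set .c 0 :: set .z 0 :: l')) s u := by
  haveI := h.hP.fact
  have hNb := h.hP.N_lt
  have hbA := h.hP.hA1
  have hb4 := h.hP.hcb1
  have hb5 := h.hP.Q_pos
  have hpb := h.hP.hcb2
  have hp2 := h.hP.prime.two_le
  have hN := h.hP.hN
  have hcst := hg.cst
  have hcN : s .cN = P.N := hg.cst.cN
  have hcp : s .cp = P.p := hg.cst.cp
  have hz : ∀ q : Rg, q.kd = 3 → s q = 0 := hg.ze
  have hone : (1 : ZMod P.p).val = 1 := ZMod.val_one P.p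
  set D := (kap P.p P.T P.m xv * kap P.p P.T P.m yv)⁻¹ * dlt P.p P.T P.m xv U₁ *
    dlt P.p P.T P.m yv U₂ with hD
  have hDlt : D.val < P.p := ZMod.val_lt _
  have hTp := h.hP.hTp
  have hT2 := h.hP.hT2
  have hiv : s .iv = 0 := hz .iv rfl
  have he2 : s .e2 = 0 := hz .e2 rfl
  have hkx := kap_ne_zero (p := P.p) (m := P.m) (z := xv) hTp.le (by omega)
  have hky := kap_ne_zero (p := P.p) (m := P.m) (z := yv) hTp.le (by omega)
  refine RunA.sq_set 1 (by simp) (by omega) ?_
  refine RunA.sq_cons ((run_kapC h.hP (C := 1) (hcst.upd (by decide) _)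
    (by simp [hz .vz rfl]) (by simp [hz .vi rfl]) (by simp [hiv])
    (by simp [hone]) xv (by simp [hx]) (by omega)).mono (Nat.zero_le _)) ?_
  refine RunA.sq_cons ((run_kapC h.hP (C := 1 * kap P.p P.T P.m xv)
    ((hcst.upd (by decide) _).upd (by decide) _)
    (by simp [hz .vz rfl]) (by simp [hz .vi rfl]) (by simp [hiv])
    (by simp) yv (by simp [hy]) (by omega)).mono (Nat.zero_le _)) ?_
  simp only [upd_upd, one_mul]
  refine RunA.sq_cons ((run_invK h.hP (C := kap P.p P.T P.m xv * kap P.p P.T P.m yv)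
    (hcst.upd (by decide) _) (by simp [hiv]) (by simp [he2]) (by simp)
    (mul_ne_zero hkx hky)).mono (Nat.zero_le _)) ?_
  simp only [upd_upd]
  refine RunA.sq_cons ((run_del h.hP (V := U₁)
    (C := (kap P.p P.T P.m xv * kap P.p P.T P.m yv)⁻¹) (hcst.upd (by decide) _)
    (by simp [hz .vz rfl]) (by simp [hz .vi rfl]) (by simp [hz .vr rfl]) (by simp [hiv])
    (k := .R1) (by simpa using h1)
    (by simp) xv (by simp [hx]) (by omega)).mono (Nat.zero_le _)) ?_
  refine RunA.sq_cons ((run_del h.hP (V := U₂)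
    (C := (kap P.p P.T P.m xv * kap P.p P.T P.m yv)⁻¹ * dlt P.p P.T P.m xv U₁)
    ((hcst.upd (by decide) _).upd (by decide) _)
    (by simp [hz .vz rfl]) (by simp [hz .vi rfl]) (by simp [hz .vr rfl]) (by simp [hiv])
    (k := .R2) (by simpa using h2)
    (by simp) yv (by simp [hy]) (by omega)).mono (Nat.zero_le _)) ?_
  simp only [upd_upd]
  rw [← hD]
  have hg' : Gd P (upd s .c D.val) := hg.upd (Or.inr rfl) (by omega)
  refine RunA.sq_cons (run_gC h hg' (by simp [hlev]) (by simp [ha]) (by simp [hres]) (by simp [hk])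
    (by simp [he]) (by simp [hw]) (by simp [hcd]) (by simp [hk1]) (by simp [htg]) (by simp [hr])
    (by simp [hst]) (by simp [hx, hx2]) (by simpa using ht1) (by simpa using ht2)
    (by simpa using hS)) ?_
  have hgN : pk P.N (S.gH O P.N (upd s .c D.val .t - 1) (upk P.N (upd s .c D.val .x - 1))
      (upk P.N (upd s .c D.val .y - 1))) = gN S O P.N (s .t) xv yv := by
    simp [gN, hx, hy]
  rw [hgN]
  have hgA : gN S O P.N (s .t) xv yv < A := gN_lt h hx2 ht2
  have hcast : (((P.p - D.val) * indN P.N (s .t) (s .j - 1) xv : ℕ) : ZMod P.p) =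
      -D * (indN P.N (s .t) (s .j - 1) xv : ZMod P.p) := by
    rw [Nat.cast_mul, Nat.cast_sub hDlt.le, ZMod.natCast_self, ZMod.natCast_val, ZMod.cast_id',
      id_eq, zero_sub]
  refine RunA.sq_cons ((run_vec h.hP (V := V) ((hcst.upd (by decide) _).upd (by decide) _)
    (by simp [hz .vz rfl]) (by simp [hz .vi rfl]) (by simpa using h0) 1
    ((P.p - D.val) * indN P.N (s .t) (s .j - 1) xv) (gN S O P.N (s .t) xv yv)
    (fun R z i => by simp) (fun R z i => ?_) (by simp) hgA).mono (Nat.zero_le _)) ?_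
  · simp [isE, ptrE, fpar, indN, ptrN, upk, hcN, hcp, hx]
  · refine RunA.sq_set 0 (by simp) (by omega) (RunA.sq_set 0 (by simp) (by omega) ?_)
    refine hl.congr_left ?_
    have hV : (fun i => ((1 : ℕ) : ZMod P.p) * V i +
        (((P.p - D.val) * indN P.N (s .t) (s .j - 1) xv : ℕ) : ZMod P.p) *
          dg P.p P.T (gN S O P.N (s .t) xv yv) i) = (V + fun i =>
      -D * (indN P.N (s .t) (s .j - 1) xv : ZMod P.p) * dg P.p P.T (gN S O P.N (s .t) xv yv) i) := by
      funext i
      rw [hcast, Nat.cast_one, one_mul, Pi.add_apply]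
    rw [hV]
    funext q; cases q <;> simp [hz .z rfl, hc]

theorem run_evC (h : OC X cc A body P S E O l K F) {s : Rg → ℕ} (hg : Gd P s)
    (hlev : s .lev = l + 1) (ha : s .a = 0) (hres : s .res = 0) (hk : s .k2 = 0) (he : s .e = 0)
    (hw : s .w = 0) (hcd : s .cd = 0) (hk1 : s .k1 = 0) (htg : s .tg = 0) (hr : s .r = 0)
    (hst : s .st = 0) (hc : s .c = 0) (hx : s .x = 0) (hy : s .y = 0)
    (ht1 : 1 ≤ s .t) (ht2 : s .t ≤ P.T)
    {V U₁ U₂ : ℕ → ZMod P.p} (h0 : s .R0 = encZ P.m V) (h1 : s .R1 = encZ P.m U₁)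
    (h2 : s .R2 = encZ P.m U₂) (hS : (s .S + 1) * F ≤ A) :
    RunA X cc A body K (evC E) s (upd s .R0 (encZ P.m (V + evl P.p P.T P.m
      (indN P.N (s .t) (s .j - 1)) (gN S O P.N (s .t)) U₁ U₂))) := by
  have hbA := h.hP.hA1
  have hb4 := h.hP.hcb1
  have hcQ : s .cQ = P.Q := hg.cst.cQ
  have hQ := h.hP.hQ
  set f : ℕ → ℕ → ℕ → ZMod P.p := fun x y i =>
    -((kap P.p P.T P.m x * kap P.p P.T P.m y)⁻¹ * dlt P.p P.T P.m x U₁ * dlt P.p P.T P.m y U₂) *
    (indN P.N (s .t) (s .j - 1) x : ZMod P.p) * dg P.p P.T (gN S O P.N (s .t) x y) i with hf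
  have hevl : evl P.p P.T P.m (indN P.N (s .t) (s .j - 1)) (gN S O P.N (s .t)) U₁ U₂ =
      ∑ x ∈ range P.Q, ∑ y ∈ range P.Q, f x y := by
    funext i
    rw [evl, Finset.sum_apply, hQ]
    refine sum_congr rfl fun x _ => ?_
    rw [Finset.sum_apply]
  rw [hevl]
  refine RunA.sq_set P.Q (by simp [hcQ]) (by omega) ?_
  refine RunA.sq_cons ((RunA.loop_sum (p := P.p) .x _ (fun V n => upd (upd s .R0 (encZ P.m V)) .x n)
    (by simp) (fun x => ∑ y ∈ range P.Q, f x y) P.Q (fun n hn V => ?_) V).congr_left ?_)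
    (RunA.sq_nil.cast ?_)
  · refine RunA.sq_set P.Q (by simp [hcQ]) (by omega) ?_
    refine RunA.sq_cons ((RunA.loop_sum (p := P.p) .y _ (fun V k => upd (upd (upd s .R0
      (encZ P.m V)) .x (n + 1)) .y k) (by simp) (f n) P.Q (fun k hk' V => ?_) V).congr_left ?_)
      (RunA.sq_set n (by simp) (by omega) (RunA.sq_nil.cast ?_))
    · have hg' := ((hg.upd4 (q := .R0) rfl V).upd (q := .x) (v := n + 1) (Or.inr rfl)
        (by omega)).upd (q := .y) (v := k + 1) (Or.inr rfl) (by omega)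
      refine run_pair h hg' (by simp [hlev]) (by simp [ha]) (by simp [hres]) (by simp [hk])
        (by simp [he]) (by simp [hw]) (by simp [hcd]) (by simp [hk1]) (by simp [htg])
        (by simp [hr]) (by simp [hst]) (by simp [hc]) (xv := n) (yv := k) (by simp) (by simp) hn hk'
        (by simpa using ht1) (by simpa using ht2) (V := V) (U₁ := U₁) (U₂ := U₂) (by simp)
        (by simpa using h1) (by simpa using h2) (by simpa using hS) ?_
      refine RunA.sq_set k (by simp) (by omega) (RunA.sq_nil.cast ?_)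
      simp only [upd_ne, ne_eq, reduceCtorEq, not_false_eq_true, hf]
      funext q; cases q <;> simp
    · funext q; cases q <;> simp [hy]
    · funext q; cases q <;> simp [hy]
  · rw [← h0]
    funext q; cases q <;> simp
  · funext q; cases q <;> simp [hx]

/-- The procedure `hist` works for the time `g`. -/
def OkH (X : List α) (cc : Cell α → ℕ) (A : ℕ) (body : Pr → Prg) (P : Par) (S : Sys) (O : ℕ → ℕ)
    (l v₀ g K F : ℕ) : Prop :=
  ∀ (s : Rg → ℕ) (V : ℕ → ZMod P.p), Gd P s → s .lev = l + 1 → s .v = v₀ → s .t = g →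
    s .R0 = encZ P.m V → (∀ q : Rg, q.kd = 2 → s q = 0) → s .res = 0 → (s .S + 1) * F ≤ A →
    RunA X cc A body K (Stmt.call Pr.hist) s
      (upd s .R0 (encZ P.m (V + dg P.p P.T (pk P.N (S.hist O P.N v₀ g)))))

theorem run_rcall {v₀ g : ℕ} (hP : PB P A) (hH : OkH X cc A body P S O l v₀ g K F) (hF : 1 ≤ F)
    {s : Rg → ℕ} (hg : Gd P s) (hlev : s .lev = l + 1) (hv : s .v = v₀) (ht : s .t < P.cw)
    (hj : s .j < P.cw) (hom : s .om < P.cw)
    (hz2 : ∀ q : Rg, q.kd = 2 → q ≠ .j → q ≠ .om → s q = 0) (hres : s .res = 0)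
    {V : ℕ → ZMod P.p} (h0 : s .R0 = encZ P.m V) {G : Exp Rg} (hG : G.eval X cc s = g)
    (hgb : g < P.cb) (hS : (s .S + 1) * (P.cw ^ 3 * F) ≤ A) :
    RunA X cc A body K (rcall G) s
      (upd s .R0 (encZ P.m (V + dg P.p P.T (pk P.N (S.hist O P.N v₀ g))))) := by
  have hbA := hP.hA1
  have hb4 := hP.hcb1
  have hccw : s .cw = P.cw := hg.cst.cw
  have he2 : s .e2 = 0 := hg.ze _ rfl
  have hjb : s .j < P.cb := hg.sm _ (Or.inr rfl)
  have hob : s .om < P.cb := hg.sm _ (Or.inr rfl)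
  have htb : s .t < P.cb := hg.sm _ (Or.inl rfl)
  have p1 := push_le (S := s .S) ht
  have p2 := push_le (S := s .S * P.cw + s .t) hj
  have p3 := push_le (S := (s .S * P.cw + s .t) * P.cw + s .j) hom
  have q1 := Nat.mul_le_mul_right P.cw p1
  have q2 := Nat.mul_le_mul_right P.cw (p2.trans q1)
  have q3 := p3.trans q2
  have q4 := Nat.mul_le_mul_right F q3
  have e1 : (s .S + 1) * P.cw * P.cw * P.cw * F = (s .S + 1) * (P.cw ^ 3 * F) := by ring
  rw [e1] at q4
  have q5 : (((s .S * P.cw + s .t) * P.cw + s .j) * P.cw + s .om + 1) * 1 ≤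
      (((s .S * P.cw + s .t) * P.cw + s .j) * P.cw + s .om + 1) * F := Nat.mul_le_mul_left _ hF
  rw [Nat.mul_one] at q5
  have q6 : (s .S * P.cw + s .t) * P.cw + s .j ≤
      ((s .S * P.cw + s .t) * P.cw + s .j) * P.cw + s .om :=
    (Nat.le_mul_of_pos_right _ (by omega)).trans (Nat.le_add_right _ _)
  have q7 : s .S * P.cw + s .t ≤ (s .S * P.cw + s .t) * P.cw + s .j :=
    (Nat.le_mul_of_pos_right _ (by omega)).trans (Nat.le_add_right _ _)
  have q8 : s .S ≤ s .S * P.cw + s .t :=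
    (Nat.le_mul_of_pos_right _ (by omega)).trans (Nat.le_add_right _ _)
  refine RunA.sq_set g hG (by omega) ?_
  refine RunA.sq_set (((s .S * P.cw + s .t) * P.cw + s .j) * P.cw + s .om) (by simp [hccw])
    (by omega) ?_
  refine RunA.sq_set g (by simp) (by omega) (RunA.sq_set 0 (by simp) (by omega)
    (RunA.sq_set 0 (by simp) (by omega) (RunA.sq_set 0 (by simp) (by omega) ?_)))
  have hst : upd (upd (upd (upd (upd (upd s .e2 g) .S
      (((s .S * P.cw + s .t) * P.cw + s .j) * P.cw + s .om)) .t g) .j 0) .om 0) .e2 0 =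
      upd (upd (upd (upd s .S (((s .S * P.cw + s .t) * P.cw + s .j) * P.cw + s .om)) .t g)
        .j 0) .om 0 := by
    funext q; cases q <;> simp [he2]
  rw [hst]
  have hg' := (((hg.upd5 (q := .S) (by decide)
    (((s .S * P.cw + s .t) * P.cw + s .j) * P.cw + s .om)).upd (q := .t) (v := g) (Or.inl rfl)
    hgb).upd (q := .j) (v := 0) (Or.inr rfl) (by omega)).upd (q := .om) (v := 0) (Or.inr rfl)
    (by omega)
  refine RunA.sq_cons (hH _ V hg' (by simp [hlev]) (by simp [hv]) (by simp) (by simp [h0])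
    (fun q hq => ?_) (by simp [hres]) ?_) ?_
  · by_cases e1 : q = .om
    · rw [e1, upd_self]
    · by_cases e2 : q = .j
      · rw [e2]; simp
      · have e3 : q ≠ .t := fun h => by rw [h] at hq; exact absurd hq (by decide)
        have e4 : q ≠ .S := fun h => by rw [h] at hq; exact absurd hq (by decide)
        rw [upd_ne e1, upd_ne e2, upd_ne e3, upd_ne e4]
        exact hz2 q hq e2 e1
  · simpa using q4.trans hS
  · refine RunA.sq_set (s .om) (by simp [hccw, push_mod hom]) (by omega)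
      (RunA.sq_set ((s .S * P.cw + s .t) * P.cw + s .j) (by simp [hccw, push_div hom]) (by omega)
      (RunA.sq_set (s .j) (by simp [hccw, push_mod hj]) (by omega)
      (RunA.sq_set (s .S * P.cw + s .t) (by simp [hccw, push_div hj]) (by omega)
      (RunA.sq_set (s .t) (by simp [hccw, push_mod ht]) (by omega)
      (RunA.sq_set (s .S) (by simp [hccw, push_div ht]) (by omega) (RunA.sq_nil.cast ?_))))))
    funext q; cases q <;> simp

/-- Multiplication of the vector in `R0`. -/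
theorem run_scale (hP : PB P A) {s : Rg → ℕ} (hc : Cst P s) (hvz : s .vz = 0) (hvi : s .vi = 0)
    {V : ℕ → ZMod P.p} (hV : s .R0 = encZ P.m V) {A' : Exp Rg} (av : ℕ)
    (hA' : ∀ R z i, A'.eval X cc (upd (upd (upd s .R0 R) .vz z) .vi i) = av) :
    RunA X cc A body 0 (vec A' 0 0) s (upd s .R0 (encZ P.m fun i => (av : ZMod P.p) * V i)) := by
  have hA := hP.m_lt
  refine (run_vec hP hc hvz hvi hV av 0 0 hA' (by simp) (by simp) (by omega)).cast ?_
  congr 2
  funext i
  simp

theorem run_segA {v₀ g o : ℕ} (hP : PB P A) (hH : OkH X cc A body P S O l v₀ g K F) (hF : 1 ≤ F)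
    {s : Rg → ℕ} {k : Rg} (hk : k = .R1 ∨ k = .R2)
    (hg : Gd P s) (hlev : s .lev = l + 1) (hv : s .v = v₀) (ht : s .t < P.cw)
    (hj : s .j < P.cw) (hom : s .om < P.cw) (ho : s .om = o)
    (hz2 : ∀ q : Rg, q.kd = 2 → q ≠ .j → q ≠ .om → s q = 0) (hres : s .res = 0)
    {V : ℕ → ZMod P.p} (h0 : s k = encZ P.m V) {G : Exp Rg}
    (hG : ∀ r₁ r₂, G.eval X cc (upd (upd s .R0 r₁) k r₂) = g)
    (hgb : g < P.cb) (hS : (s .S + 1) * (P.cw ^ 3 * F) ≤ A) :
    RunA X cc A body K (segA k G) s (upd s k (encZ P.m fun i => (o : ZMod P.p) * V i +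
      dg P.p P.T (pk P.N (S.hist O P.N v₀ g)) i)) := by
  obtain ⟨V0, hV0⟩ := hg.ve .R0 rfl
  have hz : ∀ q : Rg, q.kd = 3 → s q = 0 := hg.ze
  have hk0 : k ≠ .R0 := by rcases hk with rfl | rfl <;> simp
  have hk4 : k.kd = 4 := by rcases hk with rfl | rfl <;> rfl
  have hne : ∀ q : Rg, q.kd ≠ 4 → q ≠ k ∧ q ≠ .R0 := fun q hq =>
    ⟨fun h => hq (h ▸ hk4), fun h => hq (by rw [h]; rfl)⟩
  refine RunA.sq_cons ((run_swp hP hk hV0 h0 (hz _ rfl)).mono (Nat.zero_le _)) ?_
  have hc1 : Cst P (upd (upd s .R0 (encZ P.m V)) k (encZ P.m V0)) :=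
    (hg.cst.upd (by decide) _).upd (by omega) _
  have h1 : upd (upd s .R0 (encZ P.m V)) k (encZ P.m V0) .R0 = encZ P.m V := by
    rw [upd_ne hk0.symm, upd_self]
  have hq : ∀ q : Rg, q.kd ≠ 4 → ∀ r₁ r₂, upd (upd s .R0 r₁) k r₂ q = s q := fun q hq r₁ r₂ => by
    rw [upd_ne (hne q hq).1, upd_ne (hne q hq).2]
  refine RunA.sq_cons ((run_scale hP (V := V) hc1 (by rw [hq _ (by decide), hz _ rfl])
    (by rw [hq _ (by decide), hz _ rfl]) h1 o (fun R z i => by
      simp only [eval_var, upd_ne, ne_eq, reduceCtorEq, not_false_eq_true]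
      rw [upd_ne (hne .om (by decide)).1]
      simp [ho])).mono (Nat.zero_le _)) ?_
  have hst : ∀ W : ℕ, upd (upd (upd s .R0 (encZ P.m V)) k (encZ P.m V0)) .R0 W =
      upd (upd s .R0 W) k (encZ P.m V0) := fun W => by
    rw [upd_comm hk0, upd_upd]
  rw [hst]
  have hg2 : Gd P (upd (upd s .R0 (encZ P.m fun i => (o : ZMod P.p) * V i)) k (encZ P.m V0)) :=
    (hg.upd4 rfl _).upd4 hk4 _
  refine RunA.sq_cons (run_rcall (g := g) hP hH hF hg2 (by rw [hq _ (by decide), hlev])
    (by rw [hq _ (by decide), hv]) (by rw [hq _ (by decide)]; exact ht)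
    (by rw [hq _ (by decide)]; exact hj) (by rw [hq _ (by decide)]; exact hom)
    (fun q h1 h2 h3 => by rw [hq _ (by omega)]; exact hz2 q h1 h2 h3)
    (by rw [hq _ (by decide), hres]) (V := fun i => (o : ZMod P.p) * V i)
    (by rw [upd_ne hk0.symm, upd_self]) (hG _ _) hgb (by rw [hq _ (by decide)]; exact hS)) ?_
  rw [upd_comm hk0, upd_upd]
  refine RunA.sq_cons (((run_swp hP hk (V0 := (fun i => (o : ZMod P.p) * V i) +
    dg P.p P.T (pk P.N (S.hist O P.N v₀ g))) (V := V0) (by rw [upd_ne hk0.symm, upd_self])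
    (by rw [upd_self]) (by rw [hq _ (by decide), hz _ rfl])).mono (Nat.zero_le _)).cast ?_)
    RunA.sq_nil
  rw [upd_comm hk0, upd_upd, upd_upd, ← hV0]
  rw [upd_eq_self]
  rfl

theorem run_segB {v₀ g o : ℕ} (hP : PB P A) (hH : OkH X cc A body P S O l v₀ g K F) (hF : 1 ≤ F)
    {s : Rg → ℕ} {k : Rg} (hk : k = .R1 ∨ k = .R2)
    (hg : Gd P s) (hlev : s .lev = l + 1) (hv : s .v = v₀) (ht : s .t < P.cw)
    (hj : s .j < P.cw) (hom : s .om < P.cw) (ho : s .om = o) (ho1 : 0 < o) (ho2 : o < P.p)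
    (hz2 : ∀ q : Rg, q.kd = 2 → q ≠ .j → q ≠ .om → s q = 0) (hres : s .res = 0)
    {V : ℕ → ZMod P.p} (h0 : s k = encZ P.m fun i => (o : ZMod P.p) * V i +
      dg P.p P.T (pk P.N (S.hist O P.N v₀ g)) i) {G : Exp Rg}
    (hG : ∀ r₁ r₂, G.eval X cc (upd (upd s .R0 r₁) k r₂) = g)
    (hgb : g < P.cb) (hS : (s .S + 1) * (P.cw ^ 3 * F) ≤ A) :
    RunA X cc A body K (segB k G) s (upd s k (encZ P.m V)) := by
  have := hP.fact
  obtain ⟨V0, hV0⟩ := hg.ve .R0 rfl
  have hz : ∀ q : Rg, q.kd = 3 → s q = 0 := hg.ze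
  have hk0 : k ≠ .R0 := by rcases hk with rfl | rfl <;> simp
  have hk4 : k.kd = 4 := by rcases hk with rfl | rfl <;> rfl
  have hne : ∀ q : Rg, q.kd ≠ 4 → q ≠ k ∧ q ≠ .R0 := fun q hq =>
    ⟨fun h => hq (h ▸ hk4), fun h => hq (by rw [h]; rfl)⟩
  have hcp : s .cp = P.p := hg.cst.cp
  set W : ℕ → ZMod P.p := fun i => (o : ZMod P.p) * V i +
    dg P.p P.T (pk P.N (S.hist O P.N v₀ g)) i with hW
  refine RunA.sq_cons ((run_swp hP hk hV0 h0 (hz _ rfl)).mono (Nat.zero_le _)) ?_
  have hc1 : Cst P (upd (upd s .R0 (encZ P.m W)) k (encZ P.m V0)) :=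
    (hg.cst.upd (by decide) _).upd (by omega) _
  have h1 : upd (upd s .R0 (encZ P.m W)) k (encZ P.m V0) .R0 = encZ P.m W := by
    rw [upd_ne hk0.symm, upd_self]
  have hq : ∀ q : Rg, q.kd ≠ 4 → ∀ r₁ r₂, upd (upd s .R0 r₁) k r₂ q = s q := fun q hq r₁ r₂ => by
    rw [upd_ne (hne q hq).1, upd_ne (hne q hq).2]
  refine RunA.sq_cons ((run_scale hP (V := W) hc1 (by rw [hq _ (by decide), hz _ rfl])
    (by rw [hq _ (by decide), hz _ rfl]) h1 (P.p - 1) (fun R z i => by
      simp only [eval_sub, eval_one, eval_var, upd_ne, ne_eq, reduceCtorEq, not_false_eq_true]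
      rw [upd_ne (hne .cp (by decide)).1]
      simp [hcp])).mono (Nat.zero_le _)) ?_
  have hst : ∀ W' : ℕ, upd (upd (upd s .R0 (encZ P.m W)) k (encZ P.m V0)) .R0 W' =
      upd (upd s .R0 W') k (encZ P.m V0) := fun W' => by
    rw [upd_comm hk0, upd_upd]
  rw [hst]
  have hg2 : Gd P (upd (upd s .R0 (encZ P.m fun i => ((P.p - 1 : ℕ) : ZMod P.p) * W i)) k
    (encZ P.m V0)) := (hg.upd4 rfl _).upd4 hk4 _
  refine RunA.sq_cons (run_rcall (g := g) hP hH hF hg2 (by rw [hq _ (by decide), hlev])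
    (by rw [hq _ (by decide), hv]) (by rw [hq _ (by decide)]; exact ht)
    (by rw [hq _ (by decide)]; exact hj) (by rw [hq _ (by decide)]; exact hom)
    (fun q h1 h2 h3 => by rw [hq _ (by omega)]; exact hz2 q h1 h2 h3)
    (by rw [hq _ (by decide), hres]) (V := fun i => ((P.p - 1 : ℕ) : ZMod P.p) * W i)
    (by rw [upd_ne hk0.symm, upd_self]) (hG _ _) hgb (by rw [hq _ (by decide)]; exact hS)) ?_
  rw [upd_comm hk0, upd_upd]
  set W2 : ℕ → ZMod P.p := (fun i => ((P.p - 1 : ℕ) : ZMod P.p) * W i) +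
    dg P.p P.T (pk P.N (S.hist O P.N v₀ g)) with hW2
  refine RunA.sq_cons ((run_invC hP (V := W2) (o := o) ((hg.cst.upd (by decide) _).upd (by omega) _)
    (by rw [hq _ (by decide), hz _ rfl]) (by rw [hq _ (by decide), hz _ rfl])
    (by rw [hq _ (by decide), hz _ rfl])
    (by rw [hq _ (by decide)]; exact hz2 _ rfl (by simp) (by simp))
    (by rw [upd_ne hk0.symm, upd_self]) (by rw [hq _ (by decide), ho]) ho1 ho2).mono
      (Nat.zero_le _)) ?_
  rw [upd_comm hk0, upd_upd]
  refine RunA.sq_cons (((run_swp hP hk (V0 := fun i => -((o : ZMod P.p)⁻¹ * W2 i)) (V := V0)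
    (by rw [upd_ne hk0.symm, upd_self])
    (by rw [upd_self]) (by rw [hq _ (by decide), hz _ rfl])).mono (Nat.zero_le _)).cast ?_)
    RunA.sq_nil
  rw [upd_comm hk0, upd_upd, upd_upd, ← hV0, upd_eq_self]
  congr 2
  funext i
  have h2 : (o : ZMod P.p) ≠ 0 := by
    intro h3
    rw [ZMod.natCast_eq_zero_iff] at h3
    exact absurd (Nat.le_of_dvd ho1 h3) (by omega)
  rw [hW2, Pi.add_apply, hW, Nat.cast_sub hP.prime.one_le, ZMod.natCast_self, Nat.cast_one]
  field_simp
  ring

theorem OkH.mono {v₀ g K' F' : ℕ} (hK : K ≤ K') (hF : F ≤ F')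
    (h : OkH X cc A body P S O l v₀ g K F) : OkH X cc A body P S O l v₀ g K' F' :=
  fun s V h1 h2 h3 h4 h5 h6 h7 h8 => (h s V h1 h2 h3 h4 h5 h6 h7
    ((Nat.mul_le_mul_left _ hF).trans h8)).mono hK

theorem run_omC {v₀ τ j' o K' F' : ℕ} (h : OC X cc A body P S E O l K F) (hK : K ≤ K')
    (hF : F ≤ F') (hF1 : 1 ≤ F)
    (hH1 : OkH X cc A body P S O l v₀ (τ - 1) K' F') (hH2 : OkH X cc A body P S O l v₀ j' K' F')
    {s : Rg → ℕ} (hg : Gd P s) (hlev : s .lev = l + 1) (hv : s .v = v₀) (ht : s .t = τ)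
    (hτ1 : 1 ≤ τ) (hτ2 : τ ≤ P.T) (hj : s .j = j' + 1) (hj' : j' < τ) (ho : s .om = o)
    (ho1 : 0 < o) (ho2 : o < P.p)
    (hz2 : ∀ q : Rg, q.kd = 2 → q ≠ .j → q ≠ .om → s q = 0) (hres : s .res = 0)
    {V V₁ V₂ : ℕ → ZMod P.p} (h0 : s .R0 = encZ P.m V) (h1 : s .R1 = encZ P.m V₁)
    (h2 : s .R2 = encZ P.m V₂) (hS : (s .S + 1) * (P.cw ^ 3 * F') ≤ A) :
    RunA X cc A body K' (omC E) s (upd s .R0 (encZ P.m (V + evl P.p P.T P.m (indN P.N τ j')
      (gN S O P.N τ)
      (fun i => (o : ZMod P.p) * V₁ i + dg P.p P.T (pk P.N (S.hist O P.N v₀ (τ - 1))) i)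
      (fun i => (o : ZMod P.p) * V₂ i + dg P.p P.T (pk P.N (S.hist O P.N v₀ j')) i)))) := by
  have hP := h.hP
  have hNb := hP.N_lt
  have hT := hP.hT
  have hw1 := hP.hcw1
  have hw2 := hP.hcw2
  have hS' : (s .S + 1) * F ≤ A := by
    refine le_trans (Nat.mul_le_mul_left _ ?_) hS
    exact hF.trans (Nat.le_mul_of_pos_left _ (Nat.pow_pos (by omega)))
  have hF1' : 1 ≤ F' := hF1.trans hF
  have hz0 : ∀ q : Rg, q.kd = 2 → q ≠ .j → q ≠ .om → s q = 0 := hz2
  refine RunA.sq_cons (run_segA (g := τ - 1) (o := o) hP hH1 hF1' (Or.inl rfl) hg hlev hv (by omega)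
    (by omega) (by omega) ho hz2 hres h1 (fun r₁ r₂ => by simp [ht]) (by omega) hS) ?_
  refine RunA.sq_cons (run_segA (g := j') (o := o) hP hH2 hF1' (Or.inr rfl) (hg.upd4 rfl _)
    (by simp [hlev]) (by simp [hv]) (by simp; omega) (by simp; omega) (by simp; omega)
    (by simp [ho]) (fun q e1 e2 e3 => by
      rw [upd_ne (fun e => by rw [e] at e1; exact absurd e1 (by decide))]; exact hz2 q e1 e2 e3)
    (by simp [hres]) (V := V₂) (by simp [h2]) (fun r₁ r₂ => by simp [hj]) (by omega)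
    (by simpa using hS)) ?_
  refine RunA.sq_cons ((run_evC h ((hg.upd4 rfl _).upd4 rfl _) (by simp [hlev])
    (by simp [hz2 .a rfl]) (by simp [hres]) (by simp [hz2 .k2 rfl]) (by simp [hz2 .e rfl])
    (by simp [hz2 .w rfl]) (by simp [hz2 .cd rfl]) (by simp [hz2 .k1 rfl]) (by simp [hz2 .tg rfl])
    (by simp [hz2 .r rfl]) (by simp [hz2 .st rfl]) (by simp [hz2 .c rfl]) (by simp [hz2 .x rfl])
    (by simp [hz2 .y rfl]) (by simp; omega) (by simp; omega) (V := V) (U₁ := fun i =>
      (o : ZMod P.p) * V₁ i + dg P.p P.T (pk P.N (S.hist O P.N v₀ (τ - 1))) i) (U₂ := fun i =>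
      (o : ZMod P.p) * V₂ i + dg P.p P.T (pk P.N (S.hist O P.N v₀ j')) i) (by simp [h0]) (by simp)
      (by simp) (by simpa using hS')).mono hK) ?_
  simp only [upd_ne, ne_eq, reduceCtorEq, not_false_eq_true, ht, hj, Nat.add_sub_cancel]
  generalize (V + evl P.p P.T P.m (indN P.N τ j') (gN S O P.N τ)
    (fun i => (o : ZMod P.p) * V₁ i + dg P.p P.T (pk P.N (S.hist O P.N v₀ (τ - 1))) i)
    (fun i => (o : ZMod P.p) * V₂ i + dg P.p P.T (pk P.N (S.hist O P.N v₀ j')) i)) = W at *
  have hkd : ∀ q : Rg, q.kd = 2 → q ≠ .j → q ≠ .om → ∀ r₁ r₂ r₃,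
      upd (upd (upd s .R1 r₁) .R2 r₂) .R0 r₃ q = 0 := fun q e1 e2 e3 r₁ r₂ r₃ => by
    rw [upd_ne (fun e => by rw [e] at e1; exact absurd e1 (by decide)),
      upd_ne (fun e => by rw [e] at e1; exact absurd e1 (by decide)),
      upd_ne (fun e => by rw [e] at e1; exact absurd e1 (by decide))]
    exact hz2 q e1 e2 e3
  refine RunA.sq_cons (run_segB (g := τ - 1) (o := o) hP hH1 hF1' (Or.inl rfl)
    (((hg.upd4 rfl _).upd4 rfl _).upd4 rfl _) (by simp [hlev]) (by simp [hv]) (by simp; omega)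
    (by simp; omega) (by simp; omega) (by simp [ho]) ho1 ho2 (fun q e1 e2 e3 => hkd q e1 e2 e3 _ _ _)
    (by simp [hres]) (V := V₁) (by simp) (fun r₁ r₂ => by simp [ht]) (by omega)
    (by simpa using hS)) ?_
  have hR1 : upd s .R1 (encZ P.m V₁) = s := by rw [← h1, upd_eq_self]
  rw [upd_comm (i := Rg.R0) (j := Rg.R1) (by simp), upd_comm (i := Rg.R2) (j := Rg.R1) (by simp),
    upd_upd, hR1]
  refine RunA.sq_cons ((run_segB (g := j') (o := o) hP hH2 hF1' (Or.inr rfl)
    ((hg.upd4 rfl _).upd4 rfl _) (by simp [hlev]) (by simp [hv]) (by simp; omega)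
    (by simp; omega) (by simp; omega) (by simp [ho]) ho1 ho2 (fun q e1 e2 e3 => by
      have e4 := hkd q e1 e2 e3 (s .R1) (encZ P.m fun i => (o : ZMod P.p) * V₂ i +
        dg P.p P.T (pk P.N (S.hist O P.N v₀ j')) i) (encZ P.m W)
      rw [upd_eq_self] at e4
      exact e4)
    (by simp [hres]) (V := V₂) (by simp) (fun r₁ r₂ => by simp [hj]) (by omega)
    (by simpa using hS)).cast ?_) RunA.sq_nil
  rw [upd_comm (i := Rg.R0) (j := Rg.R2) (by simp), upd_upd, ← h2, upd_eq_self]

/-- The procedure `hist` works. -/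
theorem run_hist {v₀ : ℕ} (h : OC X cc A body P S E O l K F) (hbody : body .hist = histC E)
    (hv₀ : v₀ < P.N) (hF1 : 1 ≤ F) (τ : ℕ) :
    τ ≤ P.T → OkH X cc A body P S O l v₀ τ (K + 1 + τ) (F * P.cw ^ (3 * τ)) := by
  induction τ using Nat.strongRecOn with
  | ind τ ih =>
    intro hτ s V hg hlev hv ht h0 hz2 hres hS
    have hP := h.hP
    have := hP.fact
    have hNb := hP.N_lt
    have hbA := hP.hA1
    have hT := hP.hT
    have hw1 := hP.hcw1
    have hw2 := hP.hcw2
    have hpb := hP.hcb2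
    have hN := hP.hN
    have hA3 := hP.hA3
    have hp2 := hP.prime.two_le
    have hb4 := h.hP.hcb1
    have hcp : s .cp = P.p := hg.cst.cp
    have hcN : s .cN = P.N := hg.cst.cN
    rw [show K + 1 + τ = (K + τ) + 1 by omega]
    refine RunA.call _ _ _ _ ?_
    rw [hbody]
    unfold histC
    cases τ with
    | zero =>
      have hle := pk_le hN (h := ⟨v₀, 0, 0, 0, 1, 0⟩) hv₀.le (by simp) (by simp) (by simp) (by simp)
        (by simp)
      refine RunA.iteF _ _ _ _ _ _ ht (((run_vec hP hg.cst (hg.ze _ rfl) (hg.ze _ rfl) h0 1 1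
        (pk P.N ⟨v₀, 0, 0, 0, 1, 0⟩) (by simp) (by simp) (by simp [pkE, pk, hcN, hv])
        (by omega)).mono (Nat.zero_le _)).cast ?_)
      rw [Sys.hist_zero]
      congr 2
      funext i
      simp
    | succ τ =>
      refine RunA.iteT _ _ _ _ _ _ (by rw [ht]; omega) ?_
      obtain ⟨V₁, hV₁⟩ := hg.ve .R1 rfl
      obtain ⟨V₂, hV₂⟩ := hg.ve .R2 rfl
      set sg : ℕ → ℕ := fun n => pk P.N (S.hist O P.N v₀ n) with hsg
      set f : ℕ → ℕ → ℕ → ZMod P.p := fun n k => evl P.p P.T P.m (indN P.N (τ + 1) n)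
        (gN S O P.N (τ + 1)) (fun i => ((k + 1 : ℕ) : ZMod P.p) * V₁ i + dg P.p P.T (sg τ) i)
        (fun i => ((k + 1 : ℕ) : ZMod P.p) * V₂ i + dg P.p P.T (sg n) i) with hf
      have hHSB : ∀ n ≤ P.T, HSB P.N (S.hist O P.N v₀ n) ∧ (S.hist O P.N v₀ n).par ≤ n :=
        fun n hn => ⟨(hist_HSB h.hC h.hr h.hO hv₀ hT n hn).1, (hist_HSB h.hC h.hr h.hO hv₀ hT n hn).2.2⟩
      have hsum : ∑ n ∈ range (τ + 1), ∑ k ∈ range (P.p - 1), f n k =
          dg P.p P.T (pk P.N (S.hist O P.N v₀ (τ + 1))) := by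
        funext i
        rw [Finset.sum_apply]
        have e1 : ∀ n ∈ range (τ + 1), (∑ k ∈ range (P.p - 1), f n k) i =
            (indN P.N (τ + 1) n (sg τ) : ZMod P.p) * dg P.p P.T (gN S O P.N (τ + 1) (sg τ) (sg n)) i := by
          intro n hn
          rw [Finset.sum_apply]
          exact cook_mertz_sum hP.hm hP.hTp.le (by have := hP.hT2; omega) _ _ V₁ V₂
            ((pk_lt (hHSB τ (by omega)).1).trans_le (hP.h4.trans hP.hQ.le))
            ((pk_lt (hHSB n (by have := mem_range.1 hn; omega)).1).trans_le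
              (hP.h4.trans hP.hQ.le)) i
        rw [sum_congr rfl e1, sum_eq_single_of_mem (ptrN P.N (τ + 1) (sg τ))]
        · rw [indN_eq, if_pos rfl, Nat.cast_one, one_mul]
          congr 1
          rw [gN, hsg]
          simp only
          rw [upk_pk (hHSB τ (by omega)).1, upk_pk, Sys.hist_succ, Nat.add_sub_cancel, ptrN,
            upk_pk (hHSB τ (by omega)).1, Nat.add_sub_cancel]
          · congr 3
            omega
          · refine (hHSB _ ?_).1
            have := (hHSB τ (by omega)).2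
            rw [ptrN, upk_pk (hHSB τ (by omega)).1]
            omega
        · rw [mem_range, ptrN]
          omega
        · intro n _ hn
          rw [indN_eq, if_neg hn, Nat.cast_zero, zero_mul]
      rw [← hsum]
      refine RunA.sq_set (τ + 1) (by simp [ht]) (by omega) ?_
      refine RunA.sq_cons ((RunA.loop_sum (p := P.p) .j _ (fun V n => upd (upd s .R0 (encZ P.m V))
        .j n) (by simp) (fun n => ∑ k ∈ range (P.p - 1), f n k) (τ + 1)
        (fun n hn V => ?_) V).congr_left ?_) (RunA.sq_nil.cast ?_)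
      · refine RunA.sq_set (P.p - 1) (by simp [hcp]) (by omega) ?_
        refine RunA.sq_cons ((RunA.loop_sum (p := P.p) .om _ (fun V k => upd (upd (upd s .R0
          (encZ P.m V)) .j (n + 1)) .om k) (by simp) (f n) (P.p - 1) (fun k hk V => ?_)
          V).congr_left ?_) (RunA.sq_set n (by simp) (by omega) (RunA.sq_nil.cast ?_))
        · have hg' := ((hg.upd4 (q := .R0) rfl V).upd (q := .j) (v := n + 1) (Or.inr rfl)
            (by omega)).upd (q := .om) (v := k + 1) (Or.inr rfl) (by omega)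
          have hH1 := (ih τ (Nat.lt_succ_self _) (by omega)).mono (K' := K + (τ + 1))
            (F' := F * P.cw ^ (3 * τ)) (by omega) le_rfl
          have hH2 := (ih n hn (by omega)).mono (K' := K + (τ + 1))
            (F' := F * P.cw ^ (3 * τ)) (by omega) (Nat.mul_le_mul_left _
              (Nat.pow_le_pow_right (by omega) (by omega)))
          refine RunA.sq_cons (run_omC (τ := τ + 1) (j' := n) (o := k + 1) h (by omega)
            (Nat.le_mul_of_pos_right _ (Nat.pow_pos (by omega))) hF1 hH1 hH2 hg' (by simp [hlev])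
            (by simp [hv]) (by simp [ht]) (by omega) hτ (by simp) hn (by simp) (by omega) (by omega)
            (fun q e1 e2 e3 => ?_) (by simp [hres]) (V := V) (V₁ := V₁) (V₂ := V₂) (by simp)
            (by simp [hV₁]) (by simp [hV₂]) ?_) (RunA.sq_set k (by simp) (by omega)
            (RunA.sq_nil.cast ?_))
          · rw [upd_ne e3, upd_ne e2, upd_ne (fun e => by rw [e] at e1; exact absurd e1 (by decide))]
            exact hz2 q e1
          · simp only [upd_ne, ne_eq, reduceCtorEq, not_false_eq_true]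
            refine (le_of_eq ?_).trans hS
            ring
          · funext q; cases q <;> simp [hf, hsg]
        · funext q; cases q <;> simp
        · funext q; cases q <;> simp [hz2 .om rfl]
      · rw [← h0]
        funext q; cases q <;> simp
      · funext q; cases q <;> simp [hz2 .j rfl]

end

end Pool.Agent.Lib.MP_9277c3_lc.CL
end

section
/-!
# Correctness of the evaluation by levels (short vectors)
-/
namespace Pool.Agent.Lib.MP_9277c3_lc.CL

open Finset CM

section

variable {α : Type} {X : List α} {cc : Cell α → ℕ} {A : ℕ} {body : Pr → Prg} {P : Par} {S : Sys}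
  {E : SysE} {O : ℕ → ℕ} {l K F : ℕ}

theorem run_digC {k : ℕ} (hP : PB P A) {s : Rg → ℕ} (hc : Cst P s) (hvr : s .vr = 0)
    (hvi : s .vi = 0) {V : ℕ → ZMod P.p} (h0 : s .R0 = encZ P.m V) {iv : ℕ} (hi : s .i = iv + 1)
    (hiv : iv < P.m) :
    RunA X cc A body k digC s (upd s .vr (encZ P.m V / P.p ^ iv)) := by
  have hm := hP.m_lt
  have hE := hP.enc_lt V
  have hcp : s .cp = P.p := hc.cp
  refine RunA.sq_set (encZ P.m V) (by simp [h0]) hE (RunA.sq_set iv (by simp [hi]) (by omega) ?_)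
  refine RunA.sq_cons (RunA.loop .vi _ (fun n => upd (upd s .vr (encZ P.m V / P.p ^ (iv - n)))
    .vi n) (by simp) iv (fun n hn => ?_) ?_ rfl) (RunA.sq_nil.cast ?_)
  · refine RunA.sq_set (encZ P.m V / P.p ^ (iv - n)) ?_ ((Nat.div_le_self _ _).trans_lt hE)
      (RunA.sq_set n (by simp) (by omega) (RunA.sq_nil.cast ?_))
    · simp [hcp]
      rw [Nat.div_div_eq_div_mul, ← pow_succ, show iv - (n + 1) + 1 = iv - n by omega]
    · funext q; cases q <;> simp
  · rw [Nat.sub_self, pow_zero, Nat.div_one]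
  · rw [Nat.sub_zero]
    funext q; cases q <;> simp [hvi]

theorem run_bitC {v₀ : ℕ} (hP : PB P A) (hH : OkH X cc A body P S O l v₀ P.T K F)
    {s : Rg → ℕ} (hg : Gd P s) (hlev : s .lev = l + 1) (hv : s .v = v₀) (ht : s .t = P.T)
    (hz2 : ∀ q : Rg, q.kd = 2 → s q = 0) (hres : s .res = 0) (hd0 : s .d0 = 0)
    {V : ℕ → ZMod P.p} (h0 : s .R0 = encZ P.m V) {iv : ℕ} (hi : s .i = iv + 1) (hiv : iv < P.m)
    (hacc : P.T * s .acc + P.T ≤ P.cb)
    (hS : (s .S + 1) * F ≤ A) :
    RunA X cc A body K bitC s (upd (upd s .acc (P.T * s .acc +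
      pk P.N (S.hist O P.N v₀ P.T) / P.T ^ iv % P.T)) .i iv) := by
  have := hP.fact
  have hbA := hP.hA1
  have hpb := hP.hcb2
  have hp2 := hP.prime.two_le
  have hb4 := hP.hcb1
  have hcp : s .cp = P.p := hg.cst.cp
  have hz : ∀ q : Rg, q.kd = 3 → s q = 0 := hg.ze
  have hmb := hP.hcb3
  have hTp := hP.hTp
  have hT2 := hP.hT2
  have hcT : s .cT = P.T := hg.cst.cT
  have hib : s .i < P.cb := hg.sm _ (Or.inl rfl)
  set σ := pk P.N (S.hist O P.N v₀ P.T) with hσ
  have hdlt : (V iv).val < P.p := ZMod.val_lt _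
  refine RunA.sq_cons (run_digC hP hg.cst (hz _ rfl) (hz _ rfl) h0 hi hiv) ?_
  refine RunA.sq_set (V iv).val (by simp [hcp, encZ_digit hiv]) (by omega)
    (RunA.sq_set 0 (by simp) (by omega) ?_)
  have hst : upd (upd (upd s .vr (encZ P.m V / P.p ^ iv)) .d0 (V iv).val) .vr 0 =
      upd s .d0 (V iv).val := by
    funext q; cases q <;> simp [hz .vr rfl]
  rw [hst]
  have hg1 : Gd P (upd s .d0 (V iv).val) := hg.upd (Or.inl rfl) (by omega)
  have hkd : ∀ q : Rg, q.kd = 2 → ∀ r₁ r₂ r₃, upd (upd (upd s .d0 r₁) .R0 r₂) .acc r₃ q = 0 :=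
    fun q e1 r₁ r₂ r₃ => by
      rw [upd_ne (fun e => by rw [e] at e1; exact absurd e1 (by decide)),
        upd_ne (fun e => by rw [e] at e1; exact absurd e1 (by decide)),
        upd_ne (fun e => by rw [e] at e1; exact absurd e1 (by decide))]
      exact hz2 q e1
  refine RunA.sq_cons (hH _ V hg1 (by simp [hlev]) (by simp [hv]) (by simp [ht]) (by simp [h0])
    (fun q e1 => by
      rw [upd_ne (fun e => by rw [e] at e1; exact absurd e1 (by decide))]; exact hz2 q e1)
    (by simp [hres]) (by simpa using hS)) ?_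
  rw [← hσ]
  refine RunA.sq_cons (run_digC hP (hg1.cst.upd (by decide) _) (by simp [hz .vr rfl])
    (by simp [hz .vi rfl]) (V := V + dg P.p P.T σ) (by simp) (iv := iv) (by simp [hi]) hiv) ?_
  have hbit : (((V + dg P.p P.T σ) iv).val + P.p - (V iv).val) % P.p = σ / P.T ^ iv % P.T := by
    have e0 : σ / P.T ^ iv % P.T < P.T := Nat.mod_lt _ (by omega)
    have e1 : σ / P.T ^ iv % P.T = (σ / P.T ^ iv % P.T) % P.p := (Nat.mod_eq_of_lt (by omega)).symm
    rw [e1, ← ZMod.natCast_eq_natCast_iff', Nat.cast_sub (by omega), Nat.cast_add,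
      ZMod.natCast_self, ZMod.natCast_val, ZMod.cast_id', id_eq, ZMod.natCast_val, ZMod.cast_id',
      id_eq, Pi.add_apply, dg]
    ring
  have hb2 : σ / P.T ^ iv % P.T < P.T := Nat.mod_lt _ (by omega)
  refine RunA.sq_set (P.T * s .acc + σ / P.T ^ iv % P.T) ?_ (by omega) ?_
  · simp only [eval_add, eval_mul, eval_sub, eval_mod, eval_var, eval_ofNat, upd_self, upd_ne,
      ne_eq, reduceCtorEq, not_false_eq_true, hcp, hcT, encZ_digit hiv, hbit]
  · refine RunA.sq_set 0 (by simp) (by omega) ?_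
    have hst2 : upd (upd (upd (upd (upd s .d0 (V iv).val) .R0 (encZ P.m (V + dg P.p P.T σ))) .vr
        (encZ P.m (V + dg P.p P.T σ) / P.p ^ iv)) .acc (P.T * s .acc + σ / P.T ^ iv % P.T)) .vr 0 =
        upd (upd (upd s .d0 (V iv).val) .R0 (encZ P.m (V + dg P.p P.T σ))) .acc
          (P.T * s .acc + σ / P.T ^ iv % P.T) := by
      funext q; cases q <;> simp [hz .vr rfl]
    rw [hst2]
    have hc2 : ∀ r, Cst P (upd (upd (upd s .d0 (V iv).val) .R0 r) .acc
        (P.T * s .acc + σ / P.T ^ iv % P.T)) := fun r =>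
      ((hg1.cst.upd (by decide) _).upd (by decide) _)
    refine RunA.sq_cons ((run_scale hP (V := V + dg P.p P.T σ) (hc2 _) (by simp [hz .vz rfl])
      (by simp [hz .vi rfl]) (by simp) (P.p - 1) (fun R z i => by simp [hcp])).mono
        (Nat.zero_le _)) ?_
    have hst3 : ∀ r r', upd (upd (upd (upd s .d0 (V iv).val) .R0 r) .acc
        (P.T * s .acc + σ / P.T ^ iv % P.T)) .R0 r' = upd (upd (upd s .d0 (V iv).val) .R0 r') .acc
        (P.T * s .acc + σ / P.T ^ iv % P.T) := fun r r' => by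
      rw [upd_comm (i := Rg.acc) (j := Rg.R0) (by simp), upd_upd]
    rw [hst3]
    have hg3 : ∀ W : ℕ → ZMod P.p, Gd P (upd (upd (upd s .d0 (V iv).val) .R0 (encZ P.m W)) .acc
        (P.T * s .acc + σ / P.T ^ iv % P.T)) := fun W =>
      (hg1.upd4 rfl W).upd (Or.inl rfl) (by omega)
    refine RunA.sq_cons (hH _ (fun i => ((P.p - 1 : ℕ) : ZMod P.p) * (V + dg P.p P.T σ) i) (hg3 _)
      (by simp [hlev]) (by simp [hv]) (by simp [ht]) (by simp)
      (fun q e1 => hkd q e1 _ _ _) (by simp [hres]) (by simpa using hS)) ?_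
    rw [hst3, ← hσ]
    refine RunA.sq_cons ((run_scale hP (V := (fun i => ((P.p - 1 : ℕ) : ZMod P.p) *
      (V + dg P.p P.T σ) i) + dg P.p P.T σ) (hc2 _) (by simp [hz .vz rfl])
      (by simp [hz .vi rfl]) (by simp) (P.p - 1) (fun R z i => by simp [hcp])).mono
        (Nat.zero_le _)) ?_
    rw [hst3]
    have hV : (fun i => ((P.p - 1 : ℕ) : ZMod P.p) * ((fun i => ((P.p - 1 : ℕ) : ZMod P.p) *
        (V + dg P.p P.T σ) i) + dg P.p P.T σ) i) = V := by
      funext i
      simp only [Pi.add_apply]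
      rw [Nat.cast_sub hP.prime.one_le, ZMod.natCast_self, Nat.cast_one]
      ring
    rw [hV]
    refine RunA.sq_set 0 (by simp) (by omega) (RunA.sq_set iv (by simp [hi]) (by omega)
      (RunA.sq_nil.cast ?_))
    rw [← h0]
    funext q; cases q <;> simp [hd0]

theorem Gd.zero {s : Rg → ℕ} (h : Gd P s) (hb : 0 < P.cb) : Gd P (ovr saved (fun _ => 0) s) where
  cst := h.cst.of_eq fun q hq => by rw [ovr_saved, if_neg (by omega)]
  sm q hq := by rw [ovr_saved, if_pos hq]; exact hb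
  ze q hq := by rw [ovr_saved, if_neg (by omega)]; exact h.ze q hq
  ve q hq := by rw [ovr_saved, if_neg (by omega)]; exact h.ve q hq

/-- The stack needed on level `l`. -/
def FS (P : Par) (l : ℕ) : ℕ := (P.cb ^ saved.length * P.cw ^ (3 * P.T)) ^ l

/-- The nesting depth on level `l`. -/
def KS (P : Par) (l : ℕ) : ℕ := 1 + l * (P.T + 2)

/-- The evaluation by levels is correct. -/
theorem run_small (hP : PB P A) (hI : Impl X cc S P.n E) (hC : Sys.Closed S P.N)
    (hr : ∀ v, S.nx v + 1 < P.N) (htag : ∀ v, S.tag v ≤ 2)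
    (hb1 : body .small = smallC E) (hb2 : body .hist = histC E) (l : ℕ) (hl : l < A) :
    ∀ s : Rg → ℕ, Gd P s → s .lev = l → s .a < P.N → (s .S + 1) * FS P l ≤ A →
      RunA X cc A body (KS P l) (Stmt.call Pr.small) s (upd s .res (S.small P.N P.T l (s .a))) := by
  induction l with
  | zero =>
    intro s hg hlev ha hS
    have hcn : s .cn = P.n := hg.cst.cn
    have hNb := hP.N_lt
    have hbA := hP.hA1
    have h1 := hr (s .a)
    rw [KS, Nat.zero_mul, Nat.add_zero]
    refine RunA.call 0 _ _ _ ?_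
    rw [hb1]
    refine RunA.iteF _ _ _ _ _ _ hlev (RunA.set' _ ?_ ?_)
    · simp only [eval_mul, eval_sub, eval_add, eval_one, hI.tag s _ hcn, hI.nx s _ hcn, eval_var]
      rw [Sys.small]
      by_cases h0 : S.tag (s .a) = 0
      · rw [if_pos h0, h0]
        omega
      · rw [if_neg h0, show 1 - S.tag (s .a) = 0 by omega, Nat.zero_mul]
    · rw [Sys.small]
      split_ifs <;> omega
  | succ l ih =>
    intro s hg hlev ha hS
    have hF1 : 1 ≤ FS P l := Nat.one_le_iff_ne_zero.2 (by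
      unfold FS
      have h1 : 0 < P.cb := by have := hP.N_lt; omega
      have h2 : 0 < P.cw := by have := hP.hcw1; omega
      positivity)
    have hoc : OC X cc A body P S E (S.small P.N P.T l) l (KS P l) (FS P l) :=
      { hP := hP, hI := hI, hC := hC, hr := hr, htag := htag
        hO := fun v hv => small_lt hC hr P.T l hv
        hl := hl, ok := ih (by omega) }
    have hH := run_hist (v₀ := s .a) hoc hb2 ha hF1 P.T le_rfl
    have hNb := hP.N_lt
    have hbA := hP.hA1
    have hb4 := hP.hcb1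
    have hT := hP.hT
    have hN := hP.hN
    have hb0 : 0 < P.cb := by omega
    have hcb : s .cb = P.cb := hg.cst.cb
    have hcT : s .cT = P.T := hg.cst.cT
    have hcm : s .cm = P.m := hg.cst.cm
    have hcN : s .cN = P.N := hg.cst.cN
    have hmb := hP.hcb3
    have hT2 := hP.hT2
    have hsv : ∀ q ∈ saved, s q < P.cb ∧ q ≠ .S ∧ q ≠ .cb := fun q hq => by
      refine ⟨hg.sm q ((mem_saved q).1 hq), ?_, ?_⟩ <;> rintro rfl <;>
        simp [saved] at hq
    set F' := FS P l * P.cw ^ (3 * P.T) with hF'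
    set S' := encS P.cb s saved (s .S) with hS'
    have e1 : (s .S + 1) * FS P (l + 1) = (s .S + 1) * P.cb ^ saved.length * F' := by
      rw [FS, pow_succ, hF', FS]
      ring
    have e2 : S' + 1 ≤ (s .S + 1) * P.cb ^ saved.length :=
      encS_le saved (fun q hq => (hsv q hq).1) (s .S)
    have hF'1 : 1 ≤ F' := Nat.one_le_iff_ne_zero.2 (by
      rw [hF']
      have h2 : 0 < P.cw := by have := hP.hcw1; omega
      positivity)
    have e3 : (s .S + 1) * P.cb ^ saved.length ≤ A := by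
      refine le_trans ?_ (e1 ▸ hS)
      exact Nat.le_mul_of_pos_right _ (by omega)
    have e4 : (S' + 1) * F' ≤ A := (Nat.mul_le_mul_right _ e2).trans (e1 ▸ hS)
    have hpush := run_pushL (X := X) (cc := cc) (body := body) (k := KS P l + 1 + P.T) hcb hb0 saved
      (fun q hq => ⟨(hsv q hq).1, (hsv q hq).2.1⟩) (s .S) e3
    rw [upd_eq_self, ← hS'] at hpush
    set σ := pk P.N (S.hist (S.small P.N P.T l) P.N (s .a) P.T) with hσ
    have hHSB := (hist_HSB hC hr (fun v hv => small_lt hC hr P.T l hv) ha hT P.T le_rfl).1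
    have hσlt : σ < P.Q := (pk_lt hHSB).trans_le hP.h4
    have e5 : KS P (l + 1) = (KS P l + 1 + P.T) + 1 := by
      simp only [KS]
      ring
    rw [e5]
    refine RunA.call _ _ _ _ ?_
    rw [hb1]
    unfold smallC
    refine RunA.iteT _ _ _ _ _ _ (by rw [hlev]; omega) (RunA.sq_cons hpush ?_)
    refine RunA.sq_set (s .a) (by simp) (by omega) (RunA.sq_cons (run_zeroL (by omega) _ _) ?_)
    refine RunA.sq_set (s .a) (by simp [ovr_saved, Rg.kd]) (by omega) ?_
    refine RunA.sq_set 0 (by simp) (by omega) ?_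
    refine RunA.sq_set P.T (by simp [ovr_saved, Rg.kd, hcT]) (by omega) ?_
    refine RunA.sq_set P.m (by simp [ovr_saved, Rg.kd, hcm]) (by omega) ?_
    set s1 : Rg → ℕ := upd (upd (upd (ovr saved (fun _ => 0) (upd s .S S')) .res 0) .v (s .a)) .t P.T
      with hs1
    have hg1 : Gd P s1 := (((Gd.zero (hg.upd5 (by decide) S') hb0).upd5 (by decide) 0).upd
      (Or.inl rfl) (by omega)).upd (Or.inl rfl) (by omega)
    refine RunA.sq_cons (RunA.loop .i _ (fun n => upd (upd s1 .acc (σ / P.T ^ n)) .i n) (by simp) P.m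
      (fun n hn => ?_) ?_ rfl) ?_
    · have h1 : σ / P.T ^ (n + 1) ≤ σ := Nat.div_le_self _ _
      have h1' : P.T * (σ / P.T ^ (n + 1)) + P.T ≤ P.Q := by
        have h4 : σ / P.T ^ (n + 1) < P.T ^ (P.m - (n + 1)) := by
          rw [Nat.div_lt_iff_lt_mul (Nat.pow_pos (by omega)), ← pow_add,
            show P.m - (n + 1) + (n + 1) = P.m by omega, ← hP.hQ]
          exact hσlt
        have h5 : P.T * (P.T ^ (P.m - (n + 1))) ≤ P.Q := by
          rw [← pow_succ', hP.hQ]
          exact Nat.pow_le_pow_right (by omega) (by omega)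
        calc P.T * (σ / P.T ^ (n + 1)) + P.T = P.T * (σ / P.T ^ (n + 1) + 1) := by ring
          _ ≤ P.T * (P.T ^ (P.m - (n + 1))) := Nat.mul_le_mul_left _ h4
          _ ≤ P.Q := h5
      have hg2 : Gd P (upd (upd s1 .acc (σ / P.T ^ (n + 1))) .i (n + 1)) :=
        (hg1.upd (Or.inl rfl) (by omega)).upd (Or.inl rfl) (by omega)
      obtain ⟨V, hV⟩ := hg.ve .R0 rfl
      refine (run_bitC hP hH hg2 (by simp [hs1, ovr_saved, Rg.kd, hlev]) (by simp [hs1])
        (by simp [hs1]) (fun q hq => ?_) (by simp [hs1]) (by simp [hs1, ovr_saved, Rg.kd])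
        (V := V) (by simp [hs1, ovr_saved, Rg.kd, hV]) (iv := n) (by simp) hn
        (by simp; omega) (by simp [hs1, ovr_saved, Rg.kd]; exact e4)).cast ?_
      · rw [upd_ne (fun e => by rw [e] at hq; exact absurd hq (by decide)),
          upd_ne (fun e => by rw [e] at hq; exact absurd hq (by decide)), hs1,
          upd_ne (fun e => by rw [e] at hq; exact absurd hq (by decide)),
          upd_ne (fun e => by rw [e] at hq; exact absurd hq (by decide)),
          upd_ne (fun e => by rw [e] at hq; exact absurd hq (by decide)), ovr_saved, if_pos (Or.inr hq)]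
      · have h2 : P.T * (σ / P.T ^ (n + 1)) + σ / P.T ^ n % P.T = σ / P.T ^ n := by
          rw [pow_succ, ← Nat.div_div_eq_div_mul]
          exact Nat.div_add_mod _ _
        simp only [upd_self, upd_ne, ne_eq, reduceCtorEq, not_false_eq_true, ← hσ, h2]
        funext q; cases q <;> simp
    · have h3 : σ / P.T ^ P.m = 0 := Nat.div_eq_of_lt (by rw [← hP.hQ]; exact hσlt)
      rw [h3, hs1]
      funext q; cases q <;> simp [ovr_saved, Rg.kd]
    · have hup := upk_pk hHSB
      rw [← hσ] at hup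
      have hsm : S.small P.N P.T (l + 1) (s .a) = (upk P.N σ).r * (1 - (upk P.N σ).md) := by
        rw [hup, Sys.small]
        split_ifs with h0
        · rw [h0, Nat.sub_zero, Nat.mul_one]
        · have h1 : 1 - (S.hist (S.small P.N P.T l) P.N (s .a) P.T).md = 0 := by omega
          rw [h1, Nat.mul_zero]
      have hsmN := small_lt hC hr P.T (l + 1) ha
      refine RunA.sq_set (S.small P.N P.T (l + 1) (s .a)) ?_ (by omega) ?_
      · rw [hsm, hs1]
        simp [fr, fmd, upk, ovr_saved, Rg.kd, hcN]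
      · refine RunA.sq_cons ((run_popL hb0 hbA saved hsv (s .S) _ ?_ ?_ e3).cast ?_) RunA.sq_nil
        · simp [hs1, ovr_saved, Rg.kd, hcb]
        · simp [hs1, ovr_saved, Rg.kd, hS']
        · rw [hs1]
          funext q; cases q <;> simp [ovr_saved, Rg.kd]

end

end Pool.Agent.Lib.MP_9277c3_lc.CL
end

section
/-!
# Turing machines which evaluate systems in logarithmic space
-/
namespace Pool.Agent.Lib.MP_9277c3_lc.CL

open CM

/-- What is needed in order to evaluate systems on `c` levels. -/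
structure SysOK {α : Type} (cc : Cell α → ℕ) (K c : ℕ) (E : SysE) (startE accE : Exp Rg)
    (S : Sys) (v : ℕ) (x : List α) (L : Prop) : Prop where
  impl : Impl x cc S (x.length + 1) E
  closed : Sys.Closed S (K * (x.length + 3))
  lt : ∀ v, S.nx v + 1 < K * (x.length + 3)
  tag : ∀ v, S.tag v ≤ 2
  v_lt : v < K * (x.length + 3)
  start : ∀ s : Rg → ℕ, s .cn = x.length + 1 → startE.eval x cc s = v
  le_one : ∀ s : Rg → ℕ, accE.eval x cc s ≤ 1
  acc : ∀ s : Rg → ℕ, s .cn = x.length + 1 →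
    s .res = S.small (K * (x.length + 3)) (TP K x.length) c v →
    (accE.eval x cc s ≠ 0 ↔ L)

theorem PB.N_lt' {P : Par} {A : ℕ} (h : PB P A) : P.N < P.cb := by
  have h1 := h.h4
  have h2 := h.hcb1
  have h3 : P.N ≤ P.N ^ 5 := Nat.le_self_pow (by norm_num) _
  omega

/-- Systems are evaluated on a constant number of levels by Turing machines in logarithmic
space. -/
theorem exists_TM_of_sys {α : Type} [Finite α] (cc : Cell α → ℕ) (h1 : cc Cell.right = 1)
    (h2 : ∀ a, 2 ≤ cc (Cell.letter a)) (K c : ℕ) (hK : 64 ≤ K) (h3 : ∀ d, cc d ≤ K)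
    (E : SysE) (startE accE : Exp Rg) (S : List α → Sys) (v : List α → ℕ) (L : List α → Prop)
    (H : ∀ x, SysOK cc K c E startE accE (S x) (v x) x (L x)) :
    ∃ (C : ℕ) (A : TM α), A.DecidesIn L fun n => C * Nat.log 2 (n + 2) := by
  have : Finite Rg := by
    refine Finite.of_injective (β := Fin 64) (fun r => ⟨r.ctorIdx % 64, Nat.mod_lt _ (by norm_num)⟩)
      fun r r' h => ?_
    cases r <;> cases r' <;> first | rfl | (simp [Rg.ctorIdx] at h)
  have : Finite Pr := by
    refine Finite.of_injective (β := Fin 64) (fun r => ⟨r.ctorIdx % 64, Nat.mod_lt _ (by norm_num)⟩)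
      fun r r' h => ?_
    cases r <;> cases r' <;> first | rfl | (simp [Pr.ctorIdx] at h)
  obtain ⟨c₀, hc₀⟩ := exists_TM_of_run cc (bodyC E) (mainC K c startE accE) .e
  obtain ⟨A, hA⟩ := hc₀ L (fun n => 2 ^ eP c K n) (fun n => KS (par K n) c) (fun n => by
    have f1 := e_ge (c := c) (K := K) (n := n)
    have f3 := m_ge (n := n) hK
    calc 2 = 2 ^ 1 := rfl
      _ ≤ 2 ^ eP c K n := Nat.pow_le_pow_right (by norm_num) (by omega)) (fun x => by
    have hx := H x
    have hPB := par_PB (c := c) (n := x.length) hK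
    have hNb := hPB.N_lt'
    have hbA := hPB.hA1
    have hp0 : 0 < pP K x.length := hPB.prime.pos
    have a6 : eP c K x.length < 2 ^ eP c K x.length := Nat.lt_two_pow_self
    have f3 := m_ge (n := x.length) hK
    have a7 : c ≤ eP c K x.length := by
      unfold eP
      have h5 : 1 ≤ mP K x.length := by omega
      nlinarith [Nat.zero_le (c * mP K x.length)]
    have hvN : v x < (par K x.length).N := hx.v_lt
    have hg : Gd (par K x.length) (upd (initS c K x.length) .a (v x)) := by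
      refine ⟨?_, ?_, ?_, ?_⟩
      · constructor <;> simp [initS, par]
      · intro q hq
        by_cases hqa : q = .a
        · rw [hqa, upd_self]
          exact hvN.trans hNb
        · rw [upd_ne hqa]
          cases q <;> simp [Rg.kd] at hq hqa ⊢ <;> simp [initS, par]
      · intro q hq
        cases q <;> simp [Rg.kd] at hq ⊢ <;> simp [initS]
      · intro q hq
        refine ⟨0, ?_⟩
        rw [encZ_zero]
        cases q <;> simp [Rg.kd] at hq ⊢ <;> simp [initS]
    have hrun := run_small (X := x) (cc := cc) (body := bodyC E) (E := E) (S := S x) hPB hx.impl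
      hx.closed hx.lt hx.tag rfl rfl c (by omega) _ hg (by simp [initS])
      (by simpa using hvN) (by
        have h5 := par_FS (c := c) (n := x.length) hK
        simpa [initS, FS] using h5)
    have hle := hx.le_one
    refine ⟨_, RunA.sq_cons ((run_initC hK h1 h2 h3).mono (Nat.zero_le _)) (RunA.sq_set (v x)
      (hx.start _ (by simp [initS])) (by omega) (RunA.sq_cons hrun (RunA.sq_set _ rfl
      ((hle _).trans_lt ?_) RunA.sq_nil))), ?_⟩
    · omega
    · rw [upd_self]
      exact hx.acc _ (by simp [initS]) (by simp [par]))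
  refine ⟨c₀ * ((304 * c + 304) * (5 * Nat.log 2 K + 22)), A,
    TM.DecidesIn.mono (fun n => ?_) hA⟩
  have f1 := m_le' K n hK
  have f2 := T_le_m (n := n) hK
  have f3 := m_ge (n := n) hK
  have e1 : Nat.log 2 (2 ^ eP c K n) = eP c K n := Nat.log_pow (by norm_num) _
  have e2 : KS (par K n) c ≤ 1 + 2 * c * mP K n := by
    simp only [KS, par]
    have h5 : c * (TP K n + 2) ≤ c * (2 * mP K n) := Nat.mul_le_mul_left _ (by omega)
    calc 1 + c * (TP K n + 2) ≤ 1 + c * (2 * mP K n) := by omega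
      _ = 1 + 2 * c * mP K n := by ring
  rw [e1]
  calc c₀ * (eP c K n + KS (par K n) c + 1)
      ≤ c₀ * ((304 * c + 304) * mP K n) := by
        refine Nat.mul_le_mul_left _ ?_
        unfold eP
        nlinarith [Nat.zero_le (c * mP K n)]
    _ ≤ c₀ * ((304 * c + 304) * ((5 * Nat.log 2 K + 22) * Nat.log 2 (n + 2))) := by gcongr
    _ = c₀ * ((304 * c + 304) * (5 * Nat.log 2 K + 22)) * Nat.log 2 (n + 2) := by ring

end Pool.Agent.Lib.MP_9277c3_lc.CL
end

section
/-!
# Turing machines for languages of pushdown automata with few turns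
-/
namespace Pool.Agent.Lib.MP_9277c3_lc.CL

open CM

/-- For each automaton there is a set of accepted words which contains all words accepted with few
turns and is decided in logarithmic space. -/
theorem exists_TM_of_turns' (hALG : SpecALG) (hSPLIT : SpecSPLIT) (hTURN : SpecTURN) {α : Type}
    [Finite α] (M : DPDA α) (a : ℕ) :
    ∃ (L : List α → Prop) (c : ℕ) (A : TM α), A.DecidesIn L (fun n => c * Nat.log 2 (n + 2)) ∧
      (∀ x, L x → M.Accepts x) ∧
      ∀ x r, r ≤ Nat.log 2 (x.length + 2) ^ a → M.AcceptsTurns r x → L x := by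
  obtain ⟨C⟩ := exists_Cd M
  have hK : 64 ≤ C.K := by unfold Cd.K; omega
  set res : List α → ℕ := fun x => (C.sys x).small (C.K * (x.length + 3)) (TP C.K x.length)
    (3 + 1 + 4 * a) (C.code (some M.start) 1 [M.bottom]) with hres
  set L : List α → Prop := fun x => (res x - (res x - 1)) *
    C.tA ((res x - 1) % C.K) (cell x (min ((res x - 1) / C.K) (x.length + 1))) ≠ 0 with hL
  obtain ⟨c, A, hA⟩ := exists_TM_of_sys C.cc rfl (fun a => by simp [Cd.cc]) C.K (3 + 1 + 4 * a) hK
    (fun d => (C.cc_lt d).le) C.sysE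
    (Exp.lit (C.enc (some M.start) [M.bottom]) + Exp.lit C.K * 1) C.accE C.sys
    (fun _ => C.code (some M.start) 1 [M.bottom]) L (fun x => by
      refine ⟨C.impl x, C.closed x, C.nx_lt x, fun v => C.tagF_le _, C.code_lt (by omega),
        fun s _ => rfl, fun s => ?_, fun s hs hr => ?_⟩
      · simp only [Cd.accE, eval_mul, eval_sub, eval_var, eval_one, Cd.eval_tab]
        have h1 : s .res - (s .res - 1) ≤ 1 := by omega
        refine (Nat.mul_le_mul h1 (?_ : _ ≤ 1)).trans (by norm_num)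
        split_ifs
        · exact C.tA_le _ _
        · exact Nat.zero_le _
      · rw [C.eval_accE hs, hr])
  refine ⟨L, c, A, hA, fun x hx => ?_, fun x r hr hacc => ?_⟩
  · -- words of `L` are accepted
    have h0 : res x ≠ 0 := by
      intro h0
      apply hx
      rw [h0]
      simp
    obtain ⟨c, hc⟩ : ∃ c, res x = c + 1 := ⟨res x - 1, by omega⟩
    obtain ⟨n, hn⟩ := Sys.small_sound (C.closed x) _ _ _ (C.code_lt (by omega)) c hc
    obtain ⟨q, i, hi, hci, w, _, hw⟩ := C.sound hn (some M.start) 1 [M.bottom] C.hD1 (by omega) rfl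
    refine WtAcc.accepts (w := w) ⟨q, i, hw, fun q' hq' => ?_⟩
    by_contra hcon
    apply hx
    rw [hc, Nat.add_sub_cancel, hci, C.code_mod, C.code_div, min_eq_left hi, hq']
    simp only [Cd.tA, C.dec_enc (q := some q') (l := []) (Nat.zero_le _), if_neg hcon,
      Nat.mul_zero]
  · -- words accepted with few turns are in `L`
    obtain ⟨q, i, m, hi, hm, h1, h2⟩ := hTURN α M C x r hacc
    have hT := TP_even (n := x.length) hK
    have hT8 := T_ge (n := x.length) hK
    have hmT : m ≤ (TP C.K x.length / 2 - 1 + 1) ^ (4 * a) := by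
      rw [show TP C.K x.length / 2 - 1 + 1 = TP C.K x.length / 2 by omega]
      refine hm.trans (max_le ?_ (hr.trans (levels_ge hK a)))
      exact Nat.one_le_pow _ _ (by omega)
    obtain ⟨s', hs', hRk⟩ := hSPLIT (C.sys x) 3 _ _ _ _ m h1 hmT
    have hsm : res x = _ := hALG (C.sys x) (C.K * (x.length + 3)) (TP C.K x.length) _ (C.closed x)
      (by omega) _ _ _ _ hRk hs' (C.code_lt (by omega))
    have e4 : C.tA (C.enc q []) (cell x i) = 1 := by
      cases q with
      | none => simp only [Cd.tA, C.dec_enc (q := none) (l := []) (Nat.zero_le _)]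
      | some q' => simp only [Cd.tA, C.dec_enc (q := some q') (l := []) (Nat.zero_le _),
          if_pos (h2 q' rfl)]
    rw [hL]
    dsimp only
    rw [hsm, Nat.add_sub_cancel, C.code_mod, C.code_div, min_eq_left hi, e4]
    omega

/-- The languages of automata which accept with few turns are decided in logarithmic space. -/
theorem exists_TM_of_turns (hALG : SpecALG) (hSPLIT : SpecSPLIT) (hTURN : SpecTURN) {α : Type}
    [Finite α] (M : DPDA α) (a : ℕ)
    (H : ∀ x, M.Accepts x → ∃ r, r ≤ Nat.log 2 (x.length + 2) ^ a ∧ M.AcceptsTurns r x) :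
    ∃ (c : ℕ) (A : TM α), A.DecidesIn M.Accepts fun n => c * Nat.log 2 (n + 2) := by
  obtain ⟨L, c, A, hA, h1, h2⟩ := exists_TM_of_turns' hALG hSPLIT hTURN M a
  have hL : L = M.Accepts := by
    funext x
    refine propext ⟨h1 x, fun hx => ?_⟩
    obtain ⟨r, hr, hr'⟩ := H x hx
    exact h2 x r hr hr'
  exact ⟨c, A, hL ▸ hA⟩

end Pool.Agent.Lib.MP_9277c3_lc.CL
end
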