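import Pool.Agent.Lib.MP_9277c3_lc.helper78.CM.Vec

/-!
# Numbers as short vectors over a prime field

The digits of a number in base `B` are elements of `ZMod p`. The products
`lg p B a w = ∏ (w - b)`, over all `b < B` except `a`, replace the indicator functions of bits. We
prove the identity of Cook and Mertz.
-/

namespace Pool.Agent.Lib.MP_9277c3_lc.CL

open Finset CM

section

variable {p : ℕ}

/-- The digits of `z` in base `B`. -/
def dg (p B z i : ℕ) : ZMod p := ((z / B ^ i % B : ℕ) : ZMod p)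

/-- The product of all `w - b`, `b < B`, except for `b = a`. -/
def lg (p B a : ℕ) (w : ZMod p) : ZMod p := ∏ b ∈ range B, if b = a then 1 else w - (b : ZMod p)

/-- The product of the values of `lg`, for the first `m` digits of `z`. -/
def dlt (p B m z : ℕ) (V : ℕ → ZMod p) : ZMod p := ∏ i ∈ range m, lg p B (z / B ^ i % B) (V i)

/-- The value of `dlt` for the digits of `z`. -/
def kap (p B m z : ℕ) : ZMod p := dlt p B m z (dg p B z)

variable [NeZero p]

/-- One step of a rotation. -/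
theorem rot_step {m k : ℕ} (hk : k < m) (V : ℕ → ZMod p) (B a c z : ℕ) :
    encZ m (rot m V (fun i => (a : ZMod p) * V i + (c : ZMod p) * dg p B z i) k) / p +
      (a * (encZ m (rot m V (fun i => (a : ZMod p) * V i + (c : ZMod p) * dg p B z i) k) % p) +
        c * (z / B ^ k % B)) % p * p ^ (m - 1) =
      encZ m (rot m V (fun i => (a : ZMod p) * V i + (c : ZMod p) * dg p B z i) (k + 1)) := by
  set F : ℕ → ZMod p := fun i => (a : ZMod p) * V i + (c : ZMod p) * dg p B z i with hF
  obtain ⟨m, rfl⟩ : ∃ j, m = j + 1 := ⟨m - 1, by omega⟩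
  rw [encZ_div, encZ_mod, Nat.add_sub_cancel, encZ_succ']
  have h1 : (a * (rot (m + 1) V F k 0).val + c * (z / B ^ k % B)) % p =
      (rot (m + 1) V F (k + 1) m).val := by
    rw [rot, if_pos (by omega), rot, if_neg (by omega), Nat.zero_add, ← ZMod.val_natCast]
    congr 1
    rw [Nat.cast_add, Nat.cast_mul, Nat.cast_mul, ZMod.natCast_val, ZMod.cast_id', id_eq,
      show m + (k + 1) - (m + 1) = k by omega, hF]
    simp only [dg]
  rw [h1]
  congr 1
  refine encZ_congr fun i hi => ?_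
  rw [rot, rot, show i + 1 + k = i + (k + 1) by omega]

omit [NeZero p] in
/-- One factor of `lg`. -/
theorem lg_step {C w b a : ℕ} (hb : b ≤ p) :
    (C * ((1 - ((a - b) + (b - a))) + (1 - (1 - ((a - b) + (b - a)))) * (w % p + p - b))) % p =
      ((C : ZMod p) * (if b = a then 1 else (w : ZMod p) - (b : ZMod p))).val := by
  rw [← ZMod.val_natCast]
  congr 1
  by_cases h : b = a
  · subst h
    rw [if_pos rfl, show 1 - ((b - b) + (b - b)) = 1 by omega]
    push_cast
    ring
  · rw [if_neg h, show 1 - ((a - b) + (b - a)) = 0 by omega]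
    rw [Nat.cast_mul, Nat.zero_add, Nat.sub_zero, Nat.one_mul, Nat.cast_sub (by omega),
      Nat.cast_add, ZMod.natCast_mod, ZMod.natCast_self]
    ring

end

theorem prod_ite_erase {M : Type} [CommMonoid M] {B a : ℕ} (ha : a < B) (f : ℕ → M) :
    (∏ b ∈ range B, if b = a then 1 else f b) = ∏ b ∈ (range B).erase a, f b := by
  rw [← mul_prod_erase (range B) _ (mem_range.2 ha), if_pos rfl, one_mul]
  exact prod_congr rfl fun b hb => if_neg (ne_of_mem_erase hb)

section

variable {p : ℕ} [Fact p.Prime]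

theorem lg_self {B a : ℕ} (hB : B ≤ p) (ha : a < B) : lg p B a (a : ZMod p) ≠ 0 := by
  rw [lg, prod_ne_zero_iff]
  intro b hb
  have hb' := mem_range.1 hb
  split_ifs with h
  · exact one_ne_zero
  · intro h1
    rw [sub_eq_zero, ZMod.natCast_eq_natCast_iff', Nat.mod_eq_of_lt (by omega),
      Nat.mod_eq_of_lt (by omega)] at h1
    exact h h1.symm

theorem lg_other {B a b : ℕ} (hb : b < B) (h : a ≠ b) : lg p B a (b : ZMod p) = 0 := by
  rw [lg]
  refine prod_eq_zero (mem_range.2 hb) ?_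
  rw [if_neg h.symm, sub_self]

theorem kap_ne_zero {B m z : ℕ} (hB : B ≤ p) (hB0 : 0 < B) : kap p B m z ≠ 0 := by
  rw [kap, dlt, prod_ne_zero_iff]
  intro i _
  exact lg_self hB (Nat.mod_lt _ hB0)

theorem digits_inj {B m : ℕ} (hB0 : 0 < B) : ∀ {x z : ℕ}, x < B ^ m → z < B ^ m →
    (∀ i < m, x / B ^ i % B = z / B ^ i % B) → x = z := by
  induction m with
  | zero => intro x z hx hz _; rw [pow_zero] at hx hz; omega
  | succ m ih =>
    intro x z hx hz h
    have h0 := h 0 (Nat.succ_pos _)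
    rw [pow_zero, Nat.div_one, Nat.div_one] at h0
    have h1 : x / B = z / B := by
      refine ih ?_ ?_ fun i hi => ?_
      · rw [Nat.div_lt_iff_lt_mul hB0, ← pow_succ]; exact hx
      · rw [Nat.div_lt_iff_lt_mul hB0, ← pow_succ]; exact hz
      · rw [Nat.div_div_eq_div_mul, Nat.div_div_eq_div_mul, ← pow_succ']
        exact h (i + 1) (by omega)
    rw [← Nat.div_add_mod x B, ← Nat.div_add_mod z B, h0, h1]

/-- On vectors of digits, `dlt` is a multiple of the Kronecker symbol. -/
theorem dlt_dg {B m x z : ℕ} (hB0 : 0 < B) (hx : x < B ^ m) (hz : z < B ^ m) :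
    dlt p B m x (dg p B z) = if x = z then kap p B m x else 0 := by
  split_ifs with h
  · subst h
    rfl
  · have h1 : ∃ i < m, x / B ^ i % B ≠ z / B ^ i % B := by
      by_contra hcon
      push Not at hcon
      exact h (digits_inj hB0 hx hz hcon)
    obtain ⟨i, hi, h2⟩ := h1
    rw [dlt]
    exact prod_eq_zero (mem_range.2 hi) (lg_other (Nat.mod_lt _ hB0) h2)

open Polynomial in
/-- The factors of `dlt` on a line. -/
theorem dlt_line (B m z : ℕ) (V U : ℕ → ZMod p) : ∃ P : Polynomial (ZMod p),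
    P.natDegree ≤ m * (B - 1) ∧ ∀ w, P.eval w = dlt p B m z fun i => w * V i + U i := by
  classical
  rcases Nat.eq_zero_or_pos B with rfl | hB0
  · refine ⟨1, by simp, fun w => ?_⟩
    simp [dlt, lg]
  refine ⟨∏ i ∈ range m, ∏ b ∈ range B, if b = z / B ^ i % B then 1 else
    (X * C (V i) + C (U i) - C (b : ZMod p)), ?_, fun w => ?_⟩
  · refine (natDegree_prod_le _ _).trans ?_
    refine (sum_le_card_nsmul _ _ (B - 1) fun i _ => ?_).trans (by simp)
    rw [prod_ite_erase (Nat.mod_lt _ hB0)]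
    refine (natDegree_prod_le _ _).trans ?_
    refine (sum_le_card_nsmul _ _ 1 fun b _ => ?_).trans ?_
    · have h1 : (X * C (V i) + C (U i) : (ZMod p)[X]).natDegree ≤ 1 := by
        rw [natDegree_add_C]
        refine natDegree_mul_le.trans ?_
        rw [natDegree_C, Nat.add_zero]
        exact natDegree_X_le
      refine (natDegree_sub_le _ _).trans (max_le h1 ?_)
      rw [natDegree_C]
      exact Nat.zero_le _
    · rw [smul_eq_mul, mul_one, card_erase_of_mem (mem_range.2 (Nat.mod_lt _ hB0)), card_range]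
  · rw [eval_prod, dlt]
    refine prod_congr rfl fun i _ => ?_
    rw [eval_prod, lg]
    refine prod_congr rfl fun b _ => ?_
    split_ifs
    · simp
    · simp only [eval_add, eval_mul, eval_sub, eval_C, eval_X]

/-- The identity of Cook and Mertz. -/
theorem cook_mertz {B m : ℕ} (hm : 2 * (m * (B - 1)) < p - 1) (x y : ℕ)
    (V₁ V₂ U₁ U₂ : ℕ → ZMod p) :
    ∑ k ∈ range (p - 1), dlt p B m x (fun i => ((k + 1 : ℕ) : ZMod p) * V₁ i + U₁ i) *
      dlt p B m y (fun i => ((k + 1 : ℕ) : ZMod p) * V₂ i + U₂ i) =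
        -(dlt p B m x U₁ * dlt p B m y U₂) := by
  obtain ⟨P, hP, hP'⟩ := dlt_line B m x V₁ U₁
  obtain ⟨Q, hQ, hQ'⟩ := dlt_line B m y V₂ U₂
  have h1 := sum_eval (P * Q) (Polynomial.natDegree_mul_le.trans_lt (by omega))
  simp only [Polynomial.eval_mul, hP', hQ', zero_mul, zero_add] at h1
  exact h1

/-- The vector which is added for one pair of vectors. -/
def evl (p B m : ℕ) (ind : ℕ → ℕ) (G : ℕ → ℕ → ℕ)
    (U₁ U₂ : ℕ → ZMod p) (i : ℕ) : ZMod p :=
  ∑ x ∈ range (B ^ m), ∑ y ∈ range (B ^ m),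
    -((kap p B m x * kap p B m y)⁻¹ * dlt p B m x U₁ * dlt p B m y U₂) * (ind x : ZMod p) *
      dg p B (G x y) i

theorem cook_mertz_sum {B m : ℕ} (hm : 2 * (m * (B - 1)) < p - 1) (hB : B ≤ p) (hB0 : 0 < B)
    (ind : ℕ → ℕ) (G : ℕ → ℕ → ℕ) (V₁ V₂ : ℕ → ZMod p) {s t : ℕ} (hs : s < B ^ m) (ht : t < B ^ m)
    (i : ℕ) :
    ∑ k ∈ range (p - 1), evl p B m ind G (fun i => ((k + 1 : ℕ) : ZMod p) * V₁ i + dg p B s i)
      (fun i => ((k + 1 : ℕ) : ZMod p) * V₂ i + dg p B t i) i =
        (ind s : ZMod p) * dg p B (G s t) i := by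
  simp only [evl]
  rw [sum_comm]
  have h1 : ∀ x ∈ range (B ^ m), ∑ k ∈ range (p - 1), ∑ y ∈ range (B ^ m),
      -((kap p B m x * kap p B m y)⁻¹ *
        dlt p B m x (fun i => ((k + 1 : ℕ) : ZMod p) * V₁ i + dg p B s i) *
        dlt p B m y (fun i => ((k + 1 : ℕ) : ZMod p) * V₂ i + dg p B t i)) * (ind x : ZMod p) *
          dg p B (G x y) i =
      ∑ y ∈ range (B ^ m), (if x = s then 1 else 0) * (if y = t then 1 else 0) *
        (ind x : ZMod p) * dg p B (G x y) i := by
    intro x hx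
    rw [sum_comm]
    refine sum_congr rfl fun y hy => ?_
    have h2 := cook_mertz hm x y V₁ V₂ (dg p B s) (dg p B t)
    rw [dlt_dg hB0 (mem_range.1 hx) hs, dlt_dg hB0 (mem_range.1 hy) ht] at h2
    have hx0 := kap_ne_zero (m := m) (z := x) hB hB0
    have hy0 := kap_ne_zero (m := m) (z := y) hB hB0
    have h3 : ∀ k : ℕ, -((kap p B m x * kap p B m y)⁻¹ *
        dlt p B m x (fun i => ((k + 1 : ℕ) : ZMod p) * V₁ i + dg p B s i) *
        dlt p B m y (fun i => ((k + 1 : ℕ) : ZMod p) * V₂ i + dg p B t i)) * (ind x : ZMod p) *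
          dg p B (G x y) i = -((kap p B m x * kap p B m y)⁻¹ * (ind x : ZMod p) *
          dg p B (G x y) i) * (dlt p B m x (fun i => ((k + 1 : ℕ) : ZMod p) * V₁ i + dg p B s i) *
        dlt p B m y (fun i => ((k + 1 : ℕ) : ZMod p) * V₂ i + dg p B t i)) := fun k => by ring
    rw [sum_congr rfl fun k _ => h3 k, ← mul_sum, h2]
    split_ifs with e1 e2
    · field_simp
    · ring
    · ring
    · ring
  rw [sum_congr rfl h1, sum_eq_single_of_mem s (mem_range.2 hs), sum_eq_single_of_mem t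
    (mem_range.2 ht)]
  · simp
  · intro y _ hy
    simp [hy]
  · intro x _ hx
    simp [hx]

end

end Pool.Agent.Lib.MP_9277c3_lc.CL
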