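import Pool.Agent.Lib.MP_9277c3_lc.helper78.CM.Prog
import Pool.Agent.Lib.MP_9277c3_lc.helper83.Vec

/-!
# The program with short vectors

The number of coordinates is in the register `cm`, the base for the digits in `cT` (this is also the
length of the history), the number of states in `cQ`.
-/

namespace Pool.Agent.Lib.MP_9277c3_lc.CL

open Finset CM

section

open Rg

/-- The digits `d` of `R0` in base `cp` are replaced by `A * d + C * b`, where `b` are the digits
of `Z` in base `cT`. -/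
def vec (A C Z : Exp Rg) : Prg :=
  sq [set vz Z, set vi cm, Stmt.loop vi (sq [
    set R0 (R0 / cp + ((A * (R0 % cp) + C * (vz % cT)) % cp) * cpm),
    set vz (vz / cT), set vi (vi - 1)]), set vz 0]

/-- Multiply `c` by the product of all `W - b`, `b < cT`, except for the digit `vz % cT`. -/
def lgC (W : Exp Rg) : Prg :=
  sq [set iv cT, Stmt.loop iv (sq [
    set c ((c * (isE (vz % cT) (iv - 1) + (1 - isE (vz % cT) (iv - 1)) *
      (W % cp + cp - (iv - 1)))) % cp), set iv (iv - 1)])]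

/-- Multiply `c` by the value of `dlt` for `Z` and the vector in `k`. -/
def del (Z : Exp Rg) (k : Rg) : Prg :=
  sq [set vr k, set vz Z, set vi cm, Stmt.loop vi (sq [lgC vr,
    set vr (vr / cp), set vz (vz / cT), set vi (vi - 1)]), set vz 0, set vr 0]

/-- Multiply `c` by the value of `kap` for `Z`. -/
def kapC (Z : Exp Rg) : Prg :=
  sq [set vz Z, set vi cm, Stmt.loop vi (sq [lgC (vz % cT), set vz (vz / cT), set vi (vi - 1)]),
    set vz 0]

/-- Replace `c` by its inverse. -/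
def invK : Prg :=
  sq [set e2 1, set iv (cp - 2), Stmt.loop iv (sq [set e2 ((e2 * c) % cp), set iv (iv - 1)]),
    set c e2, set e2 0]

section

variable (E : SysE)

/-- The sum over all pairs of states. -/
def evC : Prg :=
  sq [set x cQ, Stmt.loop x (sq [set y cQ, Stmt.loop y (sq [
    set c 1, kapC (x - 1), kapC (y - 1), invK, del (x - 1) R1, del (y - 1) R2, gC E,
    vec 1 ((cp - c) * isE ptrE (j - 1)) z, set c 0, set z 0, set y (y - 1)]), set x (x - 1)])]

/-- Division of `R0` by `-om`. -/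
def invC : Prg :=
  sq [set iv 1, set k2 (cp - 2), Stmt.loop k2 (sq [set iv ((iv * om) % cp), set k2 (k2 - 1)]),
    vec ((cp - 1) * iv) 0 0, set iv 0]

/-- The vector in `k` is multiplied by `om`; then the digits of the state at time `G` are added. -/
def segA (k : Rg) (G : Exp Rg) : Prg := sq [swp k, vec om 0 0, rcall G, swp k]

/-- The inverse of `segA`. -/
def segB (k : Rg) (G : Exp Rg) : Prg := sq [swp k, vec (cp - 1) 0 0, rcall G, invC, swp k]

def omC : Prg :=
  sq [segA R1 (t - 1), segA R2 (j - 1), evC E, segB R1 (t - 1), segB R2 (j - 1)]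

/-- The digits of the state at time `t` are added to `R0`. -/
def histC : Prg :=
  Stmt.ite t (sq [set j t, Stmt.loop j (sq [set om (cp - 1), Stmt.loop om (sq [omC E,
    set om (om - 1)]), set j (j - 1)])]) (vec 1 1 (pkE v 0 0 0 0 1))

/-- One digit of the last state. -/
def bitC : Prg :=
  sq [digC, set d0 (vr % cp), set vr 0, Stmt.call Pr.hist, digC,
    set acc (cT * acc + (vr % cp + cp - d0) % cp), set vr 0, vec (cp - 1) 0 0, Stmt.call Pr.hist,
    vec (cp - 1) 0 0, set d0 0, set i (i - 1)]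

/-- The evaluation of the node `a` on the level `lev`. -/
def smallC : Prg :=
  Stmt.ite lev (sq [pushL saved, set res a, zeroL saved, set v res, set res 0, set t cT, set i cm,
    Stmt.loop i bitC, set res (fr acc * (1 - fmd acc)), popL saved])
    (set res ((1 - E.tag a) * (E.nx a + 1)))

/-- The procedures. -/
def bodyC : Pr → Prg
  | Pr.small => smallC E
  | Pr.hist => histC E

end

end

/-! ### Lemmas on states -/

/-- The parameters of the algorithm. -/
structure Par where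
  N : ℕ
  m : ℕ
  p : ℕ
  T : ℕ
  Q : ℕ
  cw : ℕ
  cb : ℕ
  n : ℕ

/-- The registers for constants have the right values. -/
structure Cst (P : Par) (s : Rg → ℕ) : Prop where
  cN : s .cN = P.N
  cm : s .cm = P.m
  cp : s .cp = P.p
  cpm : s .cpm = P.p ^ (P.m - 1)
  cT : s .cT = P.T
  cQ : s .cQ = P.Q
  cw : s .cw = P.cw
  cb : s .cb = P.cb
  cn : s .cn = P.n

theorem Cst.of_eq {P : Par} {s s' : Rg → ℕ} (h : Cst P s) (h' : ∀ q : Rg, q.kd = 0 → s' q = s q) :
    Cst P s' := by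
  constructor
  · rw [h' _ rfl, h.cN]
  · rw [h' _ rfl, h.cm]
  · rw [h' _ rfl, h.cp]
  · rw [h' _ rfl, h.cpm]
  · rw [h' _ rfl, h.cT]
  · rw [h' _ rfl, h.cQ]
  · rw [h' _ rfl, h.cw]
  · rw [h' _ rfl, h.cb]
  · rw [h' _ rfl, h.cn]

theorem Cst.upd {P : Par} {s : Rg → ℕ} (h : Cst P s) {q : Rg} (hq : q.kd ≠ 0) (v : ℕ) :
    Cst P (upd s q v) :=
  h.of_eq fun q' hq' => upd_ne (fun h1 => hq (by rw [← h1]; exact hq')) _ _

/-- Good states. -/
structure Gd (P : Par) (s : Rg → ℕ) : Prop where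
  cst : Cst P s
  sm : ∀ q : Rg, q.kd = 1 ∨ q.kd = 2 → s q < P.cb
  ze : ∀ q : Rg, q.kd = 3 → s q = 0
  ve : ∀ q : Rg, q.kd = 4 → ∃ V : ℕ → ZMod P.p, s q = encZ P.m V

theorem Gd.upd {P : Par} {s : Rg → ℕ} (h : Gd P s) {q : Rg} (hq : q.kd = 1 ∨ q.kd = 2) {v : ℕ}
    (hv : v < P.cb) : Gd P (upd s q v) where
  cst := h.cst.upd (by omega) _
  sm q' hq' := by
    by_cases h1 : q' = q
    · rw [h1, upd_self]; exact hv
    · rw [upd_ne h1]; exact h.sm q' hq'
  ze q' hq' := by
    rw [upd_ne (fun h1 => by rw [h1] at hq'; omega)]; exact h.ze q' hq'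
  ve q' hq' := by
    rw [upd_ne (fun h1 => by rw [h1] at hq'; omega)]; exact h.ve q' hq'

theorem Gd.upd5 {P : Par} {s : Rg → ℕ} (h : Gd P s) {q : Rg} (hq : 5 ≤ q.kd) (v : ℕ) :
    Gd P (CM.upd s q v) where
  cst := h.cst.upd (by omega) _
  sm q' hq' := by
    rw [upd_ne (fun h1 => by rw [h1] at hq'; omega)]; exact h.sm q' hq'
  ze q' hq' := by
    rw [upd_ne (fun h1 => by rw [h1] at hq'; omega)]; exact h.ze q' hq'
  ve q' hq' := by
    rw [upd_ne (fun h1 => by rw [h1] at hq'; omega)]; exact h.ve q' hq'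

theorem Gd.upd4 {P : Par} {s : Rg → ℕ} (h : Gd P s) {q : Rg} (hq : q.kd = 4) (V : ℕ → ZMod P.p) :
    Gd P (CM.upd s q (encZ P.m V)) where
  cst := h.cst.upd (by omega) _
  sm q' hq' := by
    rw [upd_ne (fun h1 => by rw [h1] at hq'; omega)]; exact h.sm q' hq'
  ze q' hq' := by
    rw [upd_ne (fun h1 => by rw [h1] at hq'; omega)]; exact h.ze q' hq'
  ve q' hq' := by
    by_cases h1 : q' = q
    · rw [h1, upd_self]; exact ⟨V, rfl⟩
    · rw [upd_ne h1]; exact h.ve q' hq'

/-- Bounds for the parameters. -/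
structure PB (P : Par) (A : ℕ) : Prop where
  prime : P.p.Prime
  hm : 2 * (P.m * (P.T - 1)) < P.p - 1
  hTp : P.T < P.p
  hm0 : 0 < P.m
  hT2 : 2 ≤ P.T
  hN : 1 < P.N
  hT : P.T < P.N
  hQ : P.Q = P.T ^ P.m
  h4 : 4 * P.N ^ 5 ≤ P.Q
  hcw1 : P.T < P.cw
  hcw2 : P.p < P.cw
  hcb1 : P.Q + 4 ≤ P.cb
  hcb2 : P.p < P.cb
  hcb3 : P.m < P.cb
  hA1 : P.cb ≤ A
  hA2 : P.p ^ P.m ≤ A
  hA3 : 7 * P.N ^ 6 + 2 < A
  hA4 : P.p * P.p < A

end Pool.Agent.Lib.MP_9277c3_lc.CL
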